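import Pool.Agent.H32.Dense.EntX

/-!
# The turning step: one shape, and the closing inequality

`B₀`, `B₁` are the labels of a line at two small windows of one large window, `C` is their common
coarse cell, `Y` is a fine point of the line in the window of `B₁`.
-/

set_option autoImplicit false

namespace Pool.TRN

open Finset Real
open Pool.Agent.H49.Ent Pool.Agent.H32.Dense

section core

variable {Ω : Type*} [Fintype Ω] {α β β' γ ζ : Type*} {p : Ω → ℝ}

/-- **Visibility.** -/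
theorem vis {κ : Type*} (hp : ∀ ω, 0 ≤ p ω) (b : Ω → κ) (C : Ω → α) (Y : Ω → γ) (Z : Ω → ζ)
    {h c y : ℝ} (hb : CH p b Z ≤ h) (hc : CH p C (fun ω => (b ω, Z ω)) ≤ c)
    (hy : CH p Y (fun ω => (C ω, (b ω, Z ω))) ≤ y) :
    CH p b (fun ω => ((Y ω, C ω), Z ω)) ≤ h + c + y - CH p (fun ω => (Y ω, C ω)) Z := by
  have h1 := CH_chain hp b (fun ω => (Y ω, C ω)) Z
  have h2 := CH_chain hp (fun ω => (Y ω, C ω)) b Z
  have h3 := CH_chain hp Y C (fun ω => (b ω, Z ω))
  have h4 : CH p (fun ω => (b ω, (Y ω, C ω))) Z = CH p (fun ω => ((Y ω, C ω), b ω)) Z := by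
    refine CH_congr hp ?_ ?_ (fun _ _ _ _ h => h) (fun _ _ _ _ h => h)
    · intro ω ω' _ _ h
      simp only [Prod.mk.injEq] at h ⊢
      tauto
    · intro ω ω' _ _ h
      simp only [Prod.mk.injEq] at h ⊢
      tauto
  linarith

/-- **The two labels and the points.** -/
theorem pairY (hp : ∀ ω, 0 ≤ p ω) (b : Ω → β) (C : Ω → α) (Y : Ω → γ) (Z : Ω → ζ) :
    CH p (fun ω => (b ω, C ω)) Z + CH p Y (fun ω => ((b ω, C ω), Z ω)) =
      CH p (fun ω => (Y ω, C ω)) Z + CH p b (fun ω => ((Y ω, C ω), Z ω)) := by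
  have h1 := CH_chain hp Y (fun ω => (b ω, C ω)) Z
  have h2 := CH_chain hp b (fun ω => (Y ω, C ω)) Z
  have h4 : CH p (fun ω => (b ω, (Y ω, C ω))) Z = CH p (fun ω => (Y ω, (b ω, C ω))) Z := by
    refine CH_congr hp ?_ ?_ (fun _ _ _ _ h => h) (fun _ _ _ _ h => h)
    · intro ω ω' _ _ h
      simp only [Prod.mk.injEq] at h ⊢
      tauto
    · intro ω ω' _ _ h
      simp only [Prod.mk.injEq] at h ⊢
      tauto
  linarith

end core

/-- **The closing inequality.** `X` is the difference of the filling and of the defect, `G` the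
gain, `K` the range, `L` the length of the block and the age, `v` the visibility, `hd` the
growth of the natural volume, `D` the defect of optimality, `H` the length of the codes. -/
theorem closing {X G K L v hd D H lk e ρ a C c τ u : ℝ} (he : 0 ≤ e) (ha : 1 ≤ a)
    (hC : 0 ≤ C) (hτ : 0 ≤ τ) (hG : 0 ≤ G) (hL : 0 ≤ L) (hρ0 : 0 ≤ ρ) (hu1 : u ≤ 1)
    (h1 : X ≤ e * K + hd + c + D + H) (h2 : G ≤ -X + v + e * K + C * lk + C * u * L + c + D + H)
    (h3 : v ≤ 2 * X + C * L + 2 * C * lk + c) (h4 : hd ≤ ρ * G + C * u * L)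
    (h5 : K ≤ a * G + a * L) (h6 : lk ≤ τ * K + c)
    (hs : (2 * e + 3 * C * τ) * a ≤ 1 / 4) (hρ : ρ ≤ 1 / 4) (hc : 3 * c + 3 * C * c ≤ L) :
    G ≤ (6 * C + 3) * L + 4 * (D + H) ∧ K ≤ a * ((6 * C + 4) * L + 4 * (D + H)) ∧
      hd ≤ (ρ * (6 * C + 3) + C * u) * L + 4 * ρ * (D + H) := by
  have hq : 0 ≤ 2 * e + 3 * C * τ := by positivity
  have k1 : (2 * e + 3 * C * τ) * K ≤ (2 * e + 3 * C * τ) * (a * G + a * L) :=
    mul_le_mul_of_nonneg_left h5 hq
  have k2 : (2 * e + 3 * C * τ) * (a * G) ≤ 1 / 4 * G := by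
    have := mul_le_mul_of_nonneg_right hs hG
    nlinarith
  have k3 : (2 * e + 3 * C * τ) * (a * L) ≤ 1 / 4 * L := by
    have := mul_le_mul_of_nonneg_right hs hL
    nlinarith
  have hCL : 0 ≤ C * L := by positivity
  have k5 : C * u * L ≤ C * L := by
    have h := mul_le_mul_of_nonneg_left hu1 hCL
    calc C * u * L = C * L * u := by ring
      _ ≤ C * L * 1 := h
      _ = C * L := by ring
  have k6 : ρ * G ≤ 1 / 4 * G := mul_le_mul_of_nonneg_right hρ hG
  have k7 : 3 * C * lk ≤ 3 * C * (τ * K + c) := mul_le_mul_of_nonneg_left h6 (by positivity)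
  have k8 : G ≤ (6 * C + 3) * L + 4 * (D + H) := by
    nlinarith
  refine ⟨k8, ?_, ?_⟩
  · have h7 : a * G ≤ a * ((6 * C + 3) * L + 4 * (D + H)) :=
      mul_le_mul_of_nonneg_left k8 (by linarith)
    nlinarith
  · have h7 := mul_le_mul_of_nonneg_left k8 hρ0
    nlinarith

end Pool.TRN
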