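import Pool.Agent.H15.KNH.Pen
import Pool.Agent.H96.KN.TurnC

/-!
# The turning step

A label which is almost optimal for the family, at the windows of `w + l` digits, is almost constant
along the lines on the windows of `w` digits: the range of the shape of the labels of two samples
of a line is bounded in the mean by the defect of optimality, the length of the block and the
age, and the excess of the natural volume of their coarse cell is small.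
-/

set_option autoImplicit false

namespace Pool.TRN

open Finset Real
open Pool.Agent.H49.Ent Pool.Agent.H32.Dense Pool.STK Pool.KA
open Pool.KM7 (Psh P2 P2_isLaw P2_fst P2_snd P2_pos P2_CH avg_Ex avg_CH cond_isLaw)
open Pool.KNH hiding Ex_add Ex_mono

/-! ### Fresh noise -/

/-- A uniform number of `N` values, independent of the sample. -/
noncomputable def nz {Ω : Type} (p : Ω → ℝ) (N : ℕ) : Ω × Fin N → ℝ := fun e => p e.1 * (1 / N)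

section nz

variable {Ω : Type} {p : Ω → ℝ} {N : ℕ}

theorem nz_isLaw [Fintype Ω] (hp : IsLaw p) (hN : 0 < N) : IsLaw (nz p N) := by
  have hN' : (N : ℝ) ≠ 0 := by exact_mod_cast hN.ne'
  refine ⟨fun e => mul_nonneg (hp.nonneg _) (by positivity), ?_⟩
  unfold nz
  rw [Fintype.sum_prod_type]
  simp only [Finset.sum_const, Finset.card_univ, Fintype.card_fin, nsmul_eq_mul]
  have h : ∀ x, (N : ℝ) * (p x * (1 / N)) = p x := fun x => by
    field_simp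
  simp only [h]
  exact hp.sum_one

theorem nz_pos (hN : 0 < N) {e : Ω × Fin N} : 0 < nz p N e ↔ 0 < p e.1 := by
  have hN' : (0 : ℝ) < 1 / N := by positivity
  unfold nz
  constructor
  · intro h
    by_contra h1
    push Not at h1
    have := mul_le_mul_of_nonneg_right h1 hN'.le
    linarith
  · intro h
    exact mul_pos h hN'

theorem nz_fst [Fintype Ω] (hN : 0 < N) : Psh (nz p N) Prod.fst p := by
  classical
  have hN' : (N : ℝ) ≠ 0 := by exact_mod_cast hN.ne'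
  intro ω
  unfold law nz
  rw [Fintype.sum_prod_type]
  rw [Finset.sum_eq_single ω]
  · simp only [if_true, Finset.sum_const, Finset.card_univ, Fintype.card_fin, nsmul_eq_mul]
    field_simp
  · intro b _ hb
    refine Finset.sum_eq_zero fun n _ => ?_
    rw [if_neg hb]
  · intro h
    exact absurd (Finset.mem_univ _) h

end nz

/-! ### The data -/

variable {m : ℕ} {L : LB m} {G : GS L.Cx L.V}

/-- The data of the turning step: the potential is `cap + h`, where `h` is the natural volume; a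
label inside the coarse cell `c` has `h` at most `hc c`; `gn` is the gain of the join of two
labels; `nd` says that the label is not deep; the points `Yf` of a line in a window, for a coarse
cell and a depth, depend on a uniform number; `U` is their count; `bok` are the labels given by
the boxes; the labels given by the boxes are at most `ra` times the range thinner than the old
label. -/
structure TD {m : ℕ} (L : LB m) (G : GS L.Cx L.V) where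
  ra : ℕ
  cap : (_J _w : ℕ) → Ln m → (_t : ℕ) → L.V → ℝ
  h : L.V → ℝ
  hc : L.Cx → ℝ
  gn : (_J _w _l : ℕ) → L.Cx → (_k _a _t₀ _t₁ : ℕ) → L.V → L.V → ℝ
  nd : ℕ → L.V → Prop
  dom : (_J _w : ℕ) → L.Cx → (_k : ℕ) → Ln m → (_t : ℕ) → Prop
  bok : (_J _w : ℕ) → L.Cx → (_k : ℕ) → Ln m → (_t : ℕ) → L.V → Prop
  N : (_J _w _k : ℕ) → ℕ
  Γ : Type
  Yf : (_J _w : ℕ) → L.Cx → (_k : ℕ) → Ln m → (_t _n : ℕ) → Γ
  U : (_J _w : ℕ) → L.Cx → (_k : ℕ) → Ln m → (_t : ℕ) → ℝ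

/-- **(BOX, uniform times)** For all families of lines inside coarse cells given by the side
information: a label with the capacity given by the points, up to `ε k`. -/
def TD.Box (D : TD L G) (ε : ℝ) (k₀ : ℕ) : Prop :=
  ∀ (J w k : ℕ), w ≤ J → k₀ ≤ k → ∀ (F : Fam m J) (z : F.ζ → L.Cx),
    (∀ ω, 0 < F.p ω → D.dom J w (z (F.Z ω)) k (F.l ω) (F.T ω / 2 ^ (J - w))) →
    ∃ (E : Type) (_ : Fintype E) (p' : E → ℝ) (_ : IsLaw p') (pr : E → F.Ω) (b : E → L.V),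
      Psh p' pr F.p ∧
      (∀ e, 0 < p' e →
        D.bok J w (z (F.Z (pr e))) k (F.l (pr e)) (F.T (pr e) / 2 ^ (J - w)) (b e)) ∧
      Ex p' (fun e => D.cap J w (F.l (pr e)) (F.T (pr e) / 2 ^ (J - w)) (b e)) +
        CH p' (fun e => (F.T (pr e) / 2 ^ (J - w), b e)) (fun e => F.Z (pr e)) ≤
      CH (nz F.p (D.N J w k)) (fun e =>
          D.Yf J w (z (F.Z e.1)) k (F.l e.1) (F.T e.1 / 2 ^ (J - w)) e.2) (fun e => F.Z e.1) -
        Ex F.p (fun ω => D.U J w (z (F.Z ω)) k (F.l ω) (F.T ω / 2 ^ (J - w))) + ε * k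

/-- All the pairs of labels have the shape `s`. -/
def Pair (D : TD L G) {J : ℕ} (F : Fam m J) (w l : ℕ) (c : F.ζ → L.Cx) (k a : ℕ) (s : G.Sh)
    (t₀ : F.Ω → ℕ) (b₀ b₁ : F.Ω → L.V) : Prop :=
  ∀ ω, 0 < F.p ω →
    G.Two (L := L.toLA) J w l (c (F.Z ω)) k a (F.l ω) (t₀ ω) (F.T ω / 2 ^ (J - (w + l)))
      (b₀ ω) (b₁ ω) ∧
    G.sh J w l (c (F.Z ω)) k a (t₀ ω) (F.T ω / 2 ^ (J - (w + l))) (b₀ ω) (b₁ ω) = s ∧
    D.nd J (b₀ ω) ∧ D.nd J (b₁ ω)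

/-- The coarse cell of a pair. -/
def zc (G : GS L.Cx L.V) {J : ℕ} (F : Fam m J) (w l : ℕ) (c : F.ζ → L.Cx) (k a : ℕ) (s : G.Sh)
    (t₀ : F.Ω → ℕ) (b₀ : F.Ω → L.V) (ω : F.Ω) : L.Cx :=
  G.crs J w l (c (F.Z ω)) k a (t₀ ω) (b₀ ω) s

/-- The points of the lines in the coarse cell of the pairs. -/
def TD.Y (D : TD L G) {J : ℕ} (F : Fam m J) (w l : ℕ) (c : F.ζ → L.Cx) (k a : ℕ) (s : G.Sh)
    (t₀ : F.Ω → ℕ) (b₀ : F.Ω → L.V) (e : F.Ω × Fin (D.N J (w + l) (G.rg s))) : D.Γ :=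
  D.Yf J (w + l) (zc G F w l c k a s t₀ b₀ e.1) (G.rg s) (F.l e.1)
    (F.T e.1 / 2 ^ (J - (w + l))) e.2

/-- The count of the points. -/
def TD.UU (D : TD L G) {J : ℕ} (F : Fam m J) (w l : ℕ) (c : F.ζ → L.Cx) (k a : ℕ) (s : G.Sh)
    (t₀ : F.Ω → ℕ) (b₀ : F.Ω → L.V) (ω : F.Ω) : ℝ :=
  D.U J (w + l) (zc G F w l c k a s t₀ b₀ ω) (G.rg s) (F.l ω) (F.T ω / 2 ^ (J - (w + l)))

/-- **The fields of the turning step.** -/
structure TF (D : TD L G) (C a' ρ u : ℝ) (g : ℕ) : Prop where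
  pot_eq : ∀ (J w : ℕ) (x : Ln m) (t : ℕ) (v : L.V), L.pot J w x t v = D.cap J w x t v + D.h v
  N_pos : ∀ J w k : ℕ, 0 < D.N J w k
  /-- the points are counted by the label of their window -/
  cnt₁ : ∀ (J w l : ℕ), 1 ≤ l → w + l ≤ J → ∀ (F : Fam m J) (c : F.ζ → L.Cx) (k a : ℕ)
    (s : G.Sh) (t₀ : F.Ω → ℕ) (b₀ b₁ : F.Ω → L.V), Pair D F w l c k a s t₀ b₀ b₁ →
    CH (nz F.p (D.N J (w + l) (G.rg s))) (D.Y F w l c k a s t₀ b₀)
      (fun e => (zc G F w l c k a s t₀ b₀ e.1,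
        ((F.T e.1 / 2 ^ (J - (w + l)), b₁ e.1), F.Z e.1))) ≤
      Ex F.p (D.UU F w l c k a s t₀ b₀) +
      Ex F.p (fun ω => D.cap J (w + l) (F.l ω) (F.T ω / 2 ^ (J - (w + l))) (b₁ ω)) +
      C * Real.log (2 + G.rg s)
  /-- the points are counted by the label of another window -/
  cnt₀ : ∀ (J w l : ℕ), 1 ≤ l → w + l ≤ J → ∀ (F : Fam m J) (c : F.ζ → L.Cx) (k a : ℕ)
    (s : G.Sh) (t₀ : F.Ω → ℕ) (b₀ b₁ : F.Ω → L.V), Pair D F w l c k a s t₀ b₀ b₁ →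
    CH (nz F.p (D.N J (w + l) (G.rg s))) (D.Y F w l c k a s t₀ b₀)
      (fun e => (zc G F w l c k a s t₀ b₀ e.1, ((t₀ e.1, b₀ e.1), F.Z e.1))) ≤
      Ex F.p (D.UU F w l c k a s t₀ b₀) +
      Ex F.p (fun ω => D.cap J (w + l) (F.l ω) (t₀ ω) (b₀ ω)) +
      C * (l + Ex F.p (fun ω => (L.age (b₀ ω) : ℝ))) + C * Real.log (2 + G.rg s)
  dom_of : ∀ (J w l : ℕ) (c : L.Cx) (k a : ℕ), 1 ≤ l → w + l ≤ J → ∀ (x : Ln m) (t₀ t₁ : ℕ)
    (v₀ v₁ : L.V), G.Two (L := L.toLA) J w l c k a x t₀ t₁ v₀ v₁ → D.nd J v₀ → D.nd J v₁ →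
    D.dom J (w + l) (G.crs J w l c k a t₀ v₀ (G.sh J w l c k a t₀ t₁ v₀ v₁))
      (G.rg (G.sh J w l c k a t₀ t₁ v₀ v₁)) x t₁
  /-- the labels given by the boxes -/
  out : ∀ (J w l : ℕ) (c : L.Cx) (k a : ℕ), 1 ≤ l → w + l ≤ J → ∀ (x : Ln m) (t₀ t₁ : ℕ)
    (v₀ v₁ v : L.V), G.Two (L := L.toLA) J w l c k a x t₀ t₁ v₀ v₁ → D.nd J v₀ → D.nd J v₁ →
    D.bok J (w + l) (G.crs J w l c k a t₀ v₀ (G.sh J w l c k a t₀ t₁ v₀ v₁))
      (G.rg (G.sh J w l c k a t₀ t₁ v₀ v₁)) x t₁ v →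
    L.ok J (w + l) c k (a + g) x t₁ v ∧
      D.h v ≤ D.hc (G.crs J w l c k a t₀ v₀ (G.sh J w l c k a t₀ t₁ v₀ v₁)) ∧
      L.Sub (D.ra * G.rg (G.sh J w l c k a t₀ t₁ v₀ v₁)) v₁ v ∧ L.age v = 0
  /-- the join of the two labels and of the label given by a box -/
  join : ∀ (J w l : ℕ) (c : L.Cx) (k a : ℕ), 1 ≤ l → w + l ≤ J → L.cw c w → ∀ (t₀ t₁ : ℕ)
    (v₀ v₁ v₂ : L.V), ∃ 𝒥 : Finset L.V, Real.log 𝒥.card ≤
      C + C * Real.log (2 + G.rg (G.sh J w l c k a t₀ t₁ v₀ v₁)) ∧ ∀ x : Ln m,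
    G.Two (L := L.toLA) J w l c k a x t₀ t₁ v₀ v₁ → D.nd J v₀ → D.nd J v₁ →
    D.bok J (w + l) (G.crs J w l c k a t₀ v₀ (G.sh J w l c k a t₀ t₁ v₀ v₁))
      (G.rg (G.sh J w l c k a t₀ t₁ v₀ v₁)) x t₁ v₂ →
    ∃ v ∈ 𝒥, L.ok J (w + l) c k (a + g) x t₁ v ∧
      D.cap J (w + l) x t₁ v ≤ D.cap J (w + l) x t₁ v₂ + C ∧
      D.h v ≤ D.h v₁ - D.gn J w l c k a t₀ t₁ v₀ v₁ + C + C * u * (l + L.age v₀ + L.age v₁) ∧
      L.Sub (D.ra * G.rg (G.sh J w l c k a t₀ t₁ v₀ v₁)) v₁ v ∧ L.age v = 0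
  gn_nonneg : ∀ (J w l : ℕ) (c : L.Cx) (k a : ℕ), 1 ≤ l → w + l ≤ J → ∀ (x : Ln m)
    (t₀ t₁ : ℕ) (v₀ v₁ : L.V), G.Two (L := L.toLA) J w l c k a x t₀ t₁ v₀ v₁ → D.nd J v₀ →
    D.nd J v₁ → 0 ≤ D.gn J w l c k a t₀ t₁ v₀ v₁
  /-- the excess of the coarse cell -/
  lat : ∀ (J w l : ℕ) (c : L.Cx) (k a : ℕ), 1 ≤ l → w + l ≤ J → ∀ (x : Ln m) (t₀ t₁ : ℕ)
    (v₀ v₁ : L.V), G.Two (L := L.toLA) J w l c k a x t₀ t₁ v₀ v₁ → D.nd J v₀ → D.nd J v₁ →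
    D.hc (G.crs J w l c k a t₀ v₀ (G.sh J w l c k a t₀ t₁ v₀ v₁)) - D.h v₁ ≤
      ρ * D.gn J w l c k a t₀ t₁ v₀ v₁ + C * u * (l + L.age v₀ + L.age v₁)
  /-- the range -/
  range : ∀ (J w l : ℕ) (c : L.Cx) (k a : ℕ), 1 ≤ l → w + l ≤ J → ∀ (x : Ln m) (t₀ t₁ : ℕ)
    (v₀ v₁ : L.V), G.Two (L := L.toLA) J w l c k a x t₀ t₁ v₀ v₁ → D.nd J v₀ → D.nd J v₁ →
    (G.rg (G.sh J w l c k a t₀ t₁ v₀ v₁) : ℝ) ≤
      a' * D.gn J w l c k a t₀ t₁ v₀ v₁ + a' * (l + L.age v₀ + L.age v₁)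
  rg_ge : ∀ (J w l : ℕ) (c : L.Cx) (k a : ℕ), 1 ≤ l → w + l ≤ J → ∀ (x : Ln m) (t₀ t₁ : ℕ)
    (v₀ v₁ : L.V), G.Two (L := L.toLA) J w l c k a x t₀ t₁ v₀ v₁ → D.nd J v₀ → D.nd J v₁ →
    l ≤ G.rg (G.sh J w l c k a t₀ t₁ v₀ v₁)

/-! ### One shape -/

section piece

variable {D : TD L G} {C a' ρ u : ℝ} {g : ℕ} {J w l : ℕ} {F : Fam m J} {c : F.ζ → L.Cx}
  {k a : ℕ} {s : G.Sh} {t₀ : F.Ω → ℕ} {b₀ b₁ : F.Ω → L.V}

/-- The box with more side information. -/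
theorem TD.Box.cnd {ε : ℝ} {k₀ : ℕ} (hB : D.Box ε k₀) {W kk : ℕ} (hW : W ≤ J) (hk : k₀ ≤ kk)
    {κ₁ : Type} (B : F.Ω → κ₁) (zf : κ₁ → L.Cx)
    (hd : ∀ ω, 0 < F.p ω → D.dom J W (zf (B ω)) kk (F.l ω) (F.T ω / 2 ^ (J - W))) :
    ∃ (E : Type) (_ : Fintype E) (p' : E → ℝ) (_ : IsLaw p') (pr : E → F.Ω) (b : E → L.V),
      Psh p' pr F.p ∧
      (∀ e, 0 < p' e →
        D.bok J W (zf (B (pr e))) kk (F.l (pr e)) (F.T (pr e) / 2 ^ (J - W)) (b e)) ∧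
      Ex p' (fun e => D.cap J W (F.l (pr e)) (F.T (pr e) / 2 ^ (J - W)) (b e)) +
        CH p' (fun e => (F.T (pr e) / 2 ^ (J - W), b e)) (fun e => (B (pr e), F.Z (pr e))) ≤
      CH (nz F.p (D.N J W kk)) (fun e =>
          D.Yf J W (zf (B e.1)) kk (F.l e.1) (F.T e.1 / 2 ^ (J - W)) e.2)
            (fun e => (B e.1, F.Z e.1)) -
        Ex F.p (fun ω => D.U J W (zf (B ω)) kk (F.l ω) (F.T ω / 2 ^ (J - W))) + ε * kk :=
  hB J W kk hW hk (F.cnd B) (fun q => zf q.1) hd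

/-- The range of the shape of a pair is large. -/
theorem rg_of_pair (hT : TF D C a' ρ u g) (hl : 1 ≤ l) (hwJ : w + l ≤ J)
    (hP : Pair D F w l c k a s t₀ b₀ b₁) : l ≤ G.rg s := by
  obtain ⟨ω, hω⟩ : ∃ ω, 0 < F.p ω := by
    by_contra hcon
    push Not at hcon
    have hs : ∑ ω, F.p ω ≤ 0 := Finset.sum_nonpos fun ω _ => hcon ω
    rw [F.isLaw.sum_one] at hs
    linarith
  obtain ⟨k1, k2, k3, k4⟩ := hP ω hω
  have k5 := hT.rg_ge J w l (c (F.Z ω)) k a hl hwJ _ _ _ _ _ k1 k3 k4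
  rw [k2] at k5
  exact k5

/-- The label of the box in the coarse cell. -/
theorem piece₁ (hT : TF D C a' ρ u g) {ε : ℝ} {k₀ : ℕ} (hB : D.Box ε k₀) (hl : 1 ≤ l)
    (hk₀ : k₀ ≤ l) (hwJ : w + l ≤ J) (hP : Pair D F w l c k a s t₀ b₀ b₁) {σ κ ς : ℝ} (hσ : 0 ≤ σ)
    {pn : F.ζ → L.V → ℝ} (hpn : ∀ z, L.Pen σ κ ς (pn z)) :
    L.Get F (w + l) c k (a + g) pn (((w + l : ℕ) + m * J) * Real.log 2 -
      (CH (nz F.p (D.N J (w + l) (G.rg s))) (fun e => (D.Y F w l c k a s t₀ b₀ e,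
        zc G F w l c k a s t₀ b₀ e.1)) (fun e => F.Z e.1) -
        Ex F.p (D.UU F w l c k a s t₀ b₀)) -
      Ex F.p (fun ω => D.hc (zc G F w l c k a s t₀ b₀ ω)) -
      Ex F.p (fun ω => pn (F.Z ω) (b₁ ω)) - (ε + ς * D.ra) * (G.rg s : ℝ)) := by
  set z := zc G F w l c k a s t₀ b₀ with hz
  have hN := hT.N_pos J (w + l) (G.rg s)
  obtain ⟨E, i, p', hp', pr, b', h1, h2, h3⟩ := hB.cnd (kk := G.rg s) hwJ
    (hk₀.trans (rg_of_pair hT hl hwJ hP)) z (fun q => q)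
    (by
      intro ω hω
      obtain ⟨k1, k2, k3, k4⟩ := hP ω hω
      have k5 := hT.dom_of J w l (c (F.Z ω)) k a hl hwJ _ _ _ _ _ k1 k3 k4
      rw [k2] at k5
      exact k5)
  have h0 := hp'.nonneg
  have hout : ∀ e, 0 < p' e → L.ok J (w + l) (c (F.Z (pr e))) k (a + g) (F.l (pr e))
      (F.T (pr e) / 2 ^ (J - (w + l))) (b' e) ∧ D.h (b' e) ≤ D.hc (z (pr e)) ∧
      L.Sub (D.ra * G.rg s) (b₁ (pr e)) (b' e) ∧ L.age (b' e) = 0 := by
    intro e he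
    obtain ⟨k1, k2, k3, k4⟩ := hP (pr e) (h1.pos h0 he)
    have k5 := hT.out J w l (c (F.Z (pr e))) k a hl hwJ _ _ _ _ _ (b' e) k1 k3 k4
    rw [k2] at k5
    exact k5 (h2 e he)
  refine ⟨E, i, p', hp', pr, b', h1, fun e he => (hout e he).1, ?_⟩
  refine le_trans ?_ (LA.Psi_eq (F.ext p' hp' pr) pn (w + l) b').ge
  -- the potential
  have e1 : Ex p' (fun e => L.pot J (w + l) (F.l (pr e)) (F.T (pr e) / 2 ^ (J - (w + l))) (b' e)) ≤
      Ex p' (fun e => D.cap J (w + l) (F.l (pr e)) (F.T (pr e) / 2 ^ (J - (w + l))) (b' e)) +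
        Ex F.p (fun ω => D.hc (z ω)) := by
    rw [← h1.Ex_eq (fun ω => D.hc (z ω)), ← Ex_add]
    refine Ex_mono h0 fun e he => ?_
    rw [hT.pot_eq]
    linarith [(hout e he).2.1]
  have e2 : Ex p' (fun e => pn (F.Z (pr e)) (b' e)) ≤
      Ex F.p (fun ω => pn (F.Z ω) (b₁ ω)) + ς * D.ra * (G.rg s : ℝ) := by
    rw [← h1.Ex_eq (fun ω => pn (F.Z ω) (b₁ ω)), ← KNH.Ex_add_const hp']
    refine Ex_mono h0 fun e he => ?_
    have k1 := (hpn (F.Z (pr e))).2 _ _ _ (hout e he).2.2.1 (hout e he).2.2.2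
    have k2 : 0 ≤ σ * (L.age (b₁ (pr e)) : ℝ) := mul_nonneg hσ (Nat.cast_nonneg _)
    push_cast at k1
    linarith
  -- the entropy
  have e3 : CH p' (fun e => (F.T (pr e) / 2 ^ (J - (w + l)), b' e)) (fun e => F.Z (pr e)) ≤
      CH p' (fun e => z (pr e)) (fun e => F.Z (pr e)) +
      CH p' (fun e => (F.T (pr e) / 2 ^ (J - (w + l)), b' e))
        (fun e => (z (pr e), F.Z (pr e))) :=
    CH_le_add h0 _ (fun e => z (pr e)) (fun e => F.Z (pr e))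
  have e4 : CH p' (fun e => z (pr e)) (fun e => F.Z (pr e)) = CH F.p z F.Z := h1.CH_eq z F.Z
  have e5 : CH (nz F.p (D.N J (w + l) (G.rg s))) (fun e => z e.1) (fun e => F.Z e.1) =
      CH F.p z F.Z := (nz_fst hN).CH_eq z F.Z
  have hn0 := (nz_isLaw F.isLaw hN).nonneg
  have e6 := CH_chain hn0 (D.Y F w l c k a s t₀ b₀) (fun e => z e.1) (fun e => F.Z e.1)
  have h3' : Ex p' (fun e => D.cap J (w + l) (F.l (pr e)) (F.T (pr e) / 2 ^ (J - (w + l))) (b' e)) +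
      CH p' (fun e => (F.T (pr e) / 2 ^ (J - (w + l)), b' e))
        (fun e => (z (pr e), F.Z (pr e))) ≤
      CH (nz F.p (D.N J (w + l) (G.rg s))) (D.Y F w l c k a s t₀ b₀)
        (fun e => (z e.1, F.Z e.1)) -
        Ex F.p (D.UU F w l c k a s t₀ b₀) + ε * (G.rg s : ℝ) := h3
  have e7 : (ε + ς * D.ra) * (G.rg s : ℝ) = ε * (G.rg s : ℝ) + ς * D.ra * (G.rg s : ℝ) := by ring
  rw [e7, e6]
  change _ ≤ (((w + l : ℕ) : ℝ) + m * J) * Real.log 2 -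
    (Ex p' (fun e => L.pot J (w + l) (F.l (pr e)) (F.T (pr e) / 2 ^ (J - (w + l))) (b' e)) +
      Ex p' (fun e => pn (F.Z (pr e)) (b' e))) -
    CH p' (fun e => (F.T (pr e) / 2 ^ (J - (w + l)), b' e)) (fun e => F.Z (pr e))
  linarith

/-- The entropy of the labels given the points. -/
noncomputable def vis2 (D : TD L G) {J : ℕ} (F : Fam m J) (w l : ℕ) (c : F.ζ → L.Cx) (k a : ℕ)
    (s : G.Sh) (t₀ : F.Ω → ℕ) (b₀ b₁ : F.Ω → L.V) : ℝ :=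
  CH (nz F.p (D.N J (w + l) (G.rg s)))
    (fun e => ((t₀ e.1, b₀ e.1), (F.T e.1 / 2 ^ (J - (w + l)), b₁ e.1)))
    (fun e => ((D.Y F w l c k a s t₀ b₀ e, zc G F w l c k a s t₀ b₀ e.1), F.Z e.1))

/-- **Visibility of the two labels.** -/
theorem vis2_le (hT : TF D C a' ρ u g) (hl : 1 ≤ l) (hwJ : w + l ≤ J)
    (hP : Pair D F w l c k a s t₀ b₀ b₁) {Cg : ℝ}
    (hg : CH F.p (zc G F w l c k a s t₀ b₀)
      (fun ω => ((F.T ω / 2 ^ (J - (w + l)), b₁ ω), F.Z ω)) ≤ Cg) :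
    vis2 D F w l c k a s t₀ b₀ b₁ ≤
      (CH F.p (fun ω => (t₀ ω, b₀ ω)) F.Z +
        Ex F.p (fun ω => D.cap J (w + l) (F.l ω) (t₀ ω) (b₀ ω))) +
      (CH F.p (fun ω => (F.T ω / 2 ^ (J - (w + l)), b₁ ω)) F.Z +
        Ex F.p (fun ω => D.cap J (w + l) (F.l ω) (F.T ω / 2 ^ (J - (w + l))) (b₁ ω))) +
      C * (l + Ex F.p (fun ω => (L.age (b₀ ω) : ℝ))) + 2 * C * Real.log (2 + G.rg s) + Cg -
      2 * (CH (nz F.p (D.N J (w + l) (G.rg s))) (fun e => (D.Y F w l c k a s t₀ b₀ e,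
        zc G F w l c k a s t₀ b₀ e.1)) (fun e => F.Z e.1) -
        Ex F.p (D.UU F w l c k a s t₀ b₀)) := by
  set z := zc G F w l c k a s t₀ b₀ with hz
  have hN := hT.N_pos J (w + l) (G.rg s)
  have hn0 := (nz_isLaw F.isLaw hN).nonneg
  have hf := nz_fst (p := F.p) hN
  have c1 := hT.cnt₁ J w l hl hwJ F c k a s t₀ b₀ b₁ hP
  have c0 := hT.cnt₀ J w l hl hwJ F c k a s t₀ b₀ b₁ hP
  rw [← hz] at c1 c0
  have h1 := vis hn0 (fun e : F.Ω × Fin (D.N J (w + l) (G.rg s)) =>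
      (F.T e.1 / 2 ^ (J - (w + l)), b₁ e.1)) (fun e => z e.1) (D.Y F w l c k a s t₀ b₀)
    (fun e => F.Z e.1) (hf.CH_eq (fun ω => (F.T ω / 2 ^ (J - (w + l)), b₁ ω)) F.Z).le
    ((hf.CH_eq z (fun ω => ((F.T ω / 2 ^ (J - (w + l)), b₁ ω), F.Z ω))).le.trans hg) c1
  have h0' : CH (nz F.p (D.N J (w + l) (G.rg s))) (fun e => z e.1)
      (fun e => ((t₀ e.1, b₀ e.1), F.Z e.1)) ≤ 0 := by
    refine (CH_eq_zero hn0 ?_).le
    intro e e' _ _ h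
    simp only [Prod.mk.injEq] at h
    obtain ⟨⟨h1, h2⟩, h3⟩ := h
    show z e.1 = z e'.1
    rw [hz]
    unfold zc
    rw [h1, h2, h3]
  have h0 := vis hn0 (fun e : F.Ω × Fin (D.N J (w + l) (G.rg s)) => (t₀ e.1, b₀ e.1))
    (fun e => z e.1) (D.Y F w l c k a s t₀ b₀)
    (fun e => F.Z e.1) (hf.CH_eq (fun ω => (t₀ ω, b₀ ω)) F.Z).le h0' c0
  have h2 := CH_subadd hn0 (fun e : F.Ω × Fin (D.N J (w + l) (G.rg s)) => (t₀ e.1, b₀ e.1))
    (fun e => (F.T e.1 / 2 ^ (J - (w + l)), b₁ e.1))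
    (fun e => ((D.Y F w l c k a s t₀ b₀ e, z e.1), F.Z e.1))
  unfold vis2
  linarith

/-- The label of the join. -/
theorem piece₂ (hT : TF D C a' ρ u g) (hC : 0 ≤ C) {ε : ℝ} {k₀ : ℕ} (hB : D.Box ε k₀)
    (hl : 1 ≤ l) (hk₀ : k₀ ≤ l) (hwJ : w + l ≤ J) (hP : Pair D F w l c k a s t₀ b₀ b₁) {σ κ ς : ℝ} (hσ : 0 ≤ σ)
    {pn : F.ζ → L.V → ℝ} (hpn : ∀ z, L.Pen σ κ ς (pn z)) :
    L.Get F (w + l) c k (a + g) pn (((w + l : ℕ) + m * J) * Real.log 2 -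
      (CH (nz F.p (D.N J (w + l) (G.rg s))) (fun e => (D.Y F w l c k a s t₀ b₀ e,
        zc G F w l c k a s t₀ b₀ e.1)) (fun e => F.Z e.1) -
        Ex F.p (D.UU F w l c k a s t₀ b₀)) - vis2 D F w l c k a s t₀ b₀ b₁ -
      Ex F.p (fun ω => D.h (b₁ ω) - D.gn J w l (c (F.Z ω)) k a (t₀ ω)
        (F.T ω / 2 ^ (J - (w + l))) (b₀ ω) (b₁ ω) +
        C * u * (l + L.age (b₀ ω) + L.age (b₁ ω))) -
      Ex F.p (fun ω => pn (F.Z ω) (b₁ ω)) - (ε + ς * D.ra) * (G.rg s : ℝ) -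
      (3 * C + C * Real.log (2 + G.rg s))) := by
  classical
  set z := zc G F w l c k a s t₀ b₀ with hz
  have hN := hT.N_pos J (w + l) (G.rg s)
  set BB : F.Ω → (ℕ × L.V) × (ℕ × L.V) :=
    fun ω => ((t₀ ω, b₀ ω), (F.T ω / 2 ^ (J - (w + l)), b₁ ω)) with hBB
  obtain ⟨E, i, p', hp', pr, b₂, h1, h2, h3⟩ := hB.cnd (kk := G.rg s) hwJ
    (hk₀.trans (rg_of_pair hT hl hwJ hP)) (fun ω => (BB ω, z ω)) (fun q => q.2)
    (by
      intro ω hω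
      obtain ⟨k1, k2, k3, k4⟩ := hP ω hω
      have k5 := hT.dom_of J w l (c (F.Z ω)) k a hl hwJ _ _ _ _ _ k1 k3 k4
      rw [k2] at k5
      exact k5)
  have h0 := hp'.nonneg
  -- the join
  choose 𝒥 h𝒥 hj using hT.join J w l
  have hj' : ∀ e, 0 < p' e → ∃ v, (∀ hcw : L.cw (c (F.Z (pr e))) w,
      v ∈ 𝒥 (c (F.Z (pr e))) k a hl hwJ hcw (t₀ (pr e)) (F.T (pr e) / 2 ^ (J - (w + l)))
        (b₀ (pr e)) (b₁ (pr e)) (b₂ e)) ∧
      L.ok J (w + l) (c (F.Z (pr e))) k (a + g) (F.l (pr e))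
        (F.T (pr e) / 2 ^ (J - (w + l))) v ∧
      D.cap J (w + l) (F.l (pr e)) (F.T (pr e) / 2 ^ (J - (w + l))) v ≤
        D.cap J (w + l) (F.l (pr e)) (F.T (pr e) / 2 ^ (J - (w + l))) (b₂ e) + C ∧
      D.h v ≤ D.h (b₁ (pr e)) - D.gn J w l (c (F.Z (pr e))) k a (t₀ (pr e))
        (F.T (pr e) / 2 ^ (J - (w + l))) (b₀ (pr e)) (b₁ (pr e)) + C +
        C * u * (l + L.age (b₀ (pr e)) + L.age (b₁ (pr e))) ∧
      L.Sub (D.ra * G.rg s) (b₁ (pr e)) v ∧ L.age v = 0 := by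
    intro e he
    obtain ⟨k1, k2, k3, k4⟩ := hP (pr e) (h1.pos h0 he)
    have hcw : L.cw (c (F.Z (pr e))) w := k1.1
    have k5 := hj (c (F.Z (pr e))) k a hl hwJ hcw (t₀ (pr e))
      (F.T (pr e) / 2 ^ (J - (w + l))) (b₀ (pr e)) (b₁ (pr e)) (b₂ e) (F.l (pr e)) k1 k3 k4
    rw [k2] at k5
    obtain ⟨v, hv, k6⟩ := k5 (h2 e he)
    exact ⟨v, fun _ => hv, k6⟩
  have hne : Nonempty L.V := by
    obtain ⟨e, he⟩ : ∃ e, 0 < p' e := by
      by_contra hcon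
      push Not at hcon
      have hs : ∑ e, p' e ≤ 0 := Finset.sum_nonpos fun e _ => hcon e
      rw [hp'.sum_one] at hs
      linarith
    exact ⟨b₂ e⟩
  obtain ⟨b', hb'⟩ : ∃ b' : E → L.V, ∀ e, 0 < p' e → ((∀ hcw : L.cw (c (F.Z (pr e))) w,
      b' e ∈ 𝒥 (c (F.Z (pr e))) k a hl hwJ hcw (t₀ (pr e)) (F.T (pr e) / 2 ^ (J - (w + l)))
        (b₀ (pr e)) (b₁ (pr e)) (b₂ e)) ∧
      L.ok J (w + l) (c (F.Z (pr e))) k (a + g) (F.l (pr e))
        (F.T (pr e) / 2 ^ (J - (w + l))) (b' e) ∧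
      D.cap J (w + l) (F.l (pr e)) (F.T (pr e) / 2 ^ (J - (w + l))) (b' e) ≤
        D.cap J (w + l) (F.l (pr e)) (F.T (pr e) / 2 ^ (J - (w + l))) (b₂ e) + C ∧
      D.h (b' e) ≤ D.h (b₁ (pr e)) - D.gn J w l (c (F.Z (pr e))) k a (t₀ (pr e))
        (F.T (pr e) / 2 ^ (J - (w + l))) (b₀ (pr e)) (b₁ (pr e)) + C +
        C * u * (l + L.age (b₀ (pr e)) + L.age (b₁ (pr e))) ∧
      L.Sub (D.ra * G.rg s) (b₁ (pr e)) (b' e) ∧ L.age (b' e) = 0) := by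
    refine ⟨fun e => if he : 0 < p' e then (hj' e he).choose else hne.some, fun e he => ?_⟩
    simp only [dif_pos he]
    exact (hj' e he).choose_spec
  refine ⟨E, i, p', hp', pr, b', h1, fun e he => (hb' e he).2.1, ?_⟩
  refine le_trans ?_ (LA.Psi_eq (F.ext p' hp' pr) pn (w + l) b').ge
  -- the potential
  have e1 : Ex p' (fun e => L.pot J (w + l) (F.l (pr e)) (F.T (pr e) / 2 ^ (J - (w + l))) (b' e)) ≤
      Ex p' (fun e => D.cap J (w + l) (F.l (pr e)) (F.T (pr e) / 2 ^ (J - (w + l))) (b₂ e)) +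
        Ex F.p (fun ω => D.h (b₁ ω) - D.gn J w l (c (F.Z ω)) k a (t₀ ω)
          (F.T ω / 2 ^ (J - (w + l))) (b₀ ω) (b₁ ω) +
          C * u * (l + L.age (b₀ ω) + L.age (b₁ ω))) + 2 * C := by
    rw [← h1.Ex_eq (fun ω => D.h (b₁ ω) - D.gn J w l (c (F.Z ω)) k a (t₀ ω)
      (F.T ω / 2 ^ (J - (w + l))) (b₀ ω) (b₁ ω) + C * u * (l + L.age (b₀ ω) + L.age (b₁ ω))),
      ← Ex_add, ← KNH.Ex_add_const hp']
    refine Ex_mono h0 fun e he => ?_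
    rw [hT.pot_eq]
    have k1 := (hb' e he).2.2.1
    have k2 := (hb' e he).2.2.2.1
    linarith
  have e2 : Ex p' (fun e => pn (F.Z (pr e)) (b' e)) ≤
      Ex F.p (fun ω => pn (F.Z ω) (b₁ ω)) + ς * D.ra * (G.rg s : ℝ) := by
    rw [← h1.Ex_eq (fun ω => pn (F.Z ω) (b₁ ω)), ← KNH.Ex_add_const hp']
    refine Ex_mono h0 fun e he => ?_
    have k1 := (hpn (F.Z (pr e))).2 _ _ _ (hb' e he).2.2.2.2.1 (hb' e he).2.2.2.2.2
    have k2 : 0 ≤ σ * (L.age (b₁ (pr e)) : ℝ) := mul_nonneg hσ (Nat.cast_nonneg _)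
    push_cast at k1
    linarith
  -- the entropy
  set Tw : E → ℕ := fun e => F.T (pr e) / 2 ^ (J - (w + l)) with hTw
  have e3 : CH p' (fun e => (Tw e, b' e)) (fun e => F.Z (pr e)) ≤
      CH p' (fun e => (BB (pr e), z (pr e))) (fun e => F.Z (pr e)) +
      CH p' (fun e => (Tw e, b' e)) (fun e => ((BB (pr e), z (pr e)), F.Z (pr e))) :=
    CH_le_add h0 _ (fun e => (BB (pr e), z (pr e))) (fun e => F.Z (pr e))
  have e4 : CH p' (fun e => (Tw e, b' e)) (fun e => ((BB (pr e), z (pr e)), F.Z (pr e))) ≤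
      CH p' (fun e => (Tw e, b₂ e)) (fun e => ((BB (pr e), z (pr e)), F.Z (pr e))) +
      CH p' (fun e => (Tw e, b' e))
        (fun e => ((Tw e, b₂ e), ((BB (pr e), z (pr e)), F.Z (pr e)))) :=
    CH_le_add h0 _ (fun e => (Tw e, b₂ e)) _
  have e5 : CH p' (fun e => (Tw e, b' e))
      (fun e => ((Tw e, b₂ e), ((BB (pr e), z (pr e)), F.Z (pr e)))) ≤
      C + C * Real.log (2 + G.rg s) := by
    refine KNH.CH_le_of_card hp' _ _ ?_
    rintro ⟨⟨tt, v₂⟩, ⟨⟨⟨⟨s0, v0⟩, ⟨s1, v1⟩⟩, z0⟩, ζ₀⟩⟩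
    by_cases hex : ∃ e, 0 < p' e ∧ ((Tw e, b₂ e), ((BB (pr e), z (pr e)), F.Z (pr e))) =
      ((tt, v₂), ((((s0, v0), (s1, v1)), z0), ζ₀))
    swap
    · refine ⟨∅, ?_, fun e he hee => absurd ⟨e, he, hee⟩ hex⟩
      have h2 : (0 : ℝ) ≤ Real.log (2 + (G.rg s : ℝ)) :=
        Real.log_nonneg (by linarith [(Nat.cast_nonneg (G.rg s) : (0 : ℝ) ≤ _)])
      simp only [Finset.card_empty, Nat.cast_zero, Real.log_zero]
      positivity
    have hcz : L.cw (c ζ₀) w := by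
      obtain ⟨e, he, hee⟩ := hex
      simp only [Prod.mk.injEq] at hee
      rw [← hee.2.2]
      exact (hP (pr e) (h1.pos h0 he)).1.1
    have hsh : G.sh J w l (c ζ₀) k a s0 tt v0 v1 = s := by
      obtain ⟨e, he, hee⟩ := hex
      simp only [hBB, Prod.mk.injEq] at hee
      obtain ⟨⟨i1, i2⟩, ⟨⟨⟨i3, i4⟩, ⟨i5, i6⟩⟩, i7⟩, i8⟩ := hee
      have k2 := (hP (pr e) (h1.pos h0 he)).2.1
      have i1' : F.T (pr e) / 2 ^ (J - (w + l)) = tt := i1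
      rw [i8, i3, i4, i1', i6] at k2
      exact k2
    refine ⟨(𝒥 (c ζ₀) k a hl hwJ hcz s0 tt v0 v1 v₂).image (fun v => (tt, v)), ?_, ?_⟩
    · have h𝒥' := h𝒥 (c ζ₀) k a hl hwJ hcz s0 tt v0 v1 v₂
      rw [hsh] at h𝒥'
      refine le_trans ?_ h𝒥'
      rcases Nat.eq_zero_or_pos
        ((𝒥 (c ζ₀) k a hl hwJ hcz s0 tt v0 v1 v₂).image (fun v => (tt, v))).card with h | h
      · rw [h]
        simpa using Real.log_natCast_nonneg _
      · exact Real.log_le_log (by exact_mod_cast h) (by exact_mod_cast Finset.card_image_le)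
    · intro e he hee
      simp only [hBB, Prod.mk.injEq] at hee
      obtain ⟨⟨i1, i2⟩, ⟨⟨⟨i3, i4⟩, ⟨i5, i6⟩⟩, i7⟩, i8⟩ := hee
      refine Finset.mem_image.2 ⟨b' e, ?_, by rw [i1]⟩
      have k1 := (hb' e he).1
      subst i8
      have k2 := k1 hcz
      rw [i3, i4, i6, i2] at k2
      rw [show F.T (pr e) / 2 ^ (J - (w + l)) = tt from i1] at k2
      exact k2
  have e6 : CH p' (fun e => (BB (pr e), z (pr e))) (fun e => F.Z (pr e)) =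
      CH F.p (fun ω => (BB ω, z ω)) F.Z := h1.CH_eq (fun ω => (BB ω, z ω)) F.Z
  have e7 : CH (nz F.p (D.N J (w + l) (G.rg s))) (fun e => (BB e.1, z e.1))
      (fun e => F.Z e.1) = CH F.p (fun ω => (BB ω, z ω)) F.Z :=
    (nz_fst hN).CH_eq (fun ω => (BB ω, z ω)) F.Z
  have hn0 := (nz_isLaw F.isLaw hN).nonneg
  have e8 := pairY hn0 (fun e : F.Ω × Fin (D.N J (w + l) (G.rg s)) => BB e.1)
    (fun e => z e.1) (D.Y F w l c k a s t₀ b₀) (fun e => F.Z e.1)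
  have h3' : Ex p' (fun e => D.cap J (w + l) (F.l (pr e)) (Tw e) (b₂ e)) +
      CH p' (fun e => (Tw e, b₂ e)) (fun e => ((BB (pr e), z (pr e)), F.Z (pr e))) ≤
      CH (nz F.p (D.N J (w + l) (G.rg s))) (D.Y F w l c k a s t₀ b₀)
        (fun e => ((BB e.1, z e.1), F.Z e.1)) -
        Ex F.p (D.UU F w l c k a s t₀ b₀) + ε * (G.rg s : ℝ) := h3
  have e9 : (ε + ς * D.ra) * (G.rg s : ℝ) = ε * (G.rg s : ℝ) + ς * D.ra * (G.rg s : ℝ) := by ring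
  rw [e9]
  unfold vis2
  change _ ≤ (((w + l : ℕ) : ℝ) + m * J) * Real.log 2 -
    (Ex p' (fun e => L.pot J (w + l) (F.l (pr e)) (Tw e) (b' e)) +
      Ex p' (fun e => pn (F.Z (pr e)) (b' e))) -
    CH p' (fun e => (Tw e, b' e)) (fun e => F.Z (pr e))
  linarith

end piece

/-! ### All shapes -/

theorem avg_dep {Ω σ : Type} [Fintype Ω] [DecidableEq σ] {Q : Ω → ℝ} (hQ : IsLaw Q) (S : Ω → σ)
    (f : σ → Ω → ℝ) :
    Ex Q (fun e => f (S e) e) = ∑ s ∈ univ.image S, law Q S s * Ex (cond Q S s) (f s) := by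
  rw [avg_Ex hQ.nonneg S (fun e => f (S e) e)]
  refine Finset.sum_congr rfl fun s _ => ?_
  by_cases hs : law Q S s = 0
  · rw [hs, zero_mul, zero_mul]
  congr 1
  have hQl : IsLaw (cond Q S s) := cond_isLaw hQ.nonneg S hs
  unfold Ex
  refine Finset.sum_congr rfl fun e _ => ?_
  rcases (hQl.nonneg e).eq_or_lt with h0 | h0
  · rw [← h0, zero_mul, zero_mul]
  · have h1 : S e = s := ((cond_pos_iff hQ.nonneg S _ e).mp h0).2
    show cond Q S s e * f (S e) e = cond Q S s e * f s e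
    rw [h1]

theorem Ex_congr {Ω : Type} [Fintype Ω] {p : Ω → ℝ} (hp : ∀ ω, 0 ≤ p ω) {f h : Ω → ℝ}
    (hfh : ∀ ω, 0 < p ω → f ω = h ω) : Ex p f = Ex p h :=
  le_antisymm (Ex_mono hp fun ω hω => (hfh ω hω).le) (Ex_mono hp fun ω hω => (hfh ω hω).ge)

theorem log_le_tau {τ r : ℝ} (hτ : 0 < τ) (hr : 0 ≤ r) :
    Real.log (2 + r) ≤ τ * r + (2 * τ - 1 - Real.log τ) := by
  have h1 := Real.log_le_sub_one_of_pos (show 0 < τ * (2 + r) by positivity)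
  rw [Real.log_mul hτ.ne' (by linarith)] at h1
  linarith

theorem sum_lin {σ : Type} (I : Finset σ) (P : σ → ℝ) (h1 : ∑ s ∈ I, P s = 1) (M e : ℝ)
    (a f h r : σ → ℝ) :
    ∑ s ∈ I, P s * (M - a s - f s - h s - e * r s) =
      M - ∑ s ∈ I, P s * a s - ∑ s ∈ I, P s * f s - ∑ s ∈ I, P s * h s -
        e * ∑ s ∈ I, P s * r s := by
  have h2 : ∀ s, P s * (M - a s - f s - h s - e * r s) =
      P s * M - P s * a s - P s * f s - P s * h s - e * (P s * r s) := fun s => by ring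
  rw [Finset.sum_congr rfl fun s _ => h2 s]
  simp only [Finset.sum_sub_distrib]
  rw [← Finset.sum_mul, ← Finset.mul_sum, h1, one_mul]

theorem sum_lin2 {σ : Type} (I : Finset σ) (P : σ → ℝ) (h1 : ∑ s ∈ I, P s = 1) (M e c d : ℝ)
    (a v f h r q : σ → ℝ) :
    ∑ s ∈ I, P s * (M - a s - v s - f s - h s - e * r s - (c + d * q s)) =
      M - ∑ s ∈ I, P s * a s - ∑ s ∈ I, P s * v s - ∑ s ∈ I, P s * f s - ∑ s ∈ I, P s * h s -
        e * ∑ s ∈ I, P s * r s - (c + d * ∑ s ∈ I, P s * q s) := by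
  have h2 : ∀ s, P s * (M - a s - v s - f s - h s - e * r s - (c + d * q s)) =
      P s * M - P s * a s - P s * v s - P s * f s - P s * h s - e * (P s * r s) - P s * c -
        d * (P s * q s) :=
    fun s => by ring
  rw [Finset.sum_congr rfl fun s _ => h2 s]
  simp only [Finset.sum_sub_distrib]
  rw [← Finset.sum_mul, ← Finset.sum_mul, ← Finset.mul_sum, ← Finset.mul_sum, h1, one_mul,
    one_mul]
  ring

theorem avg_num {Ω σ : Type} [Fintype Ω] [DecidableEq σ] {Q : Ω → ℝ} (hQ : IsLaw Q) (S : Ω → σ)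
    (r : σ → ℝ) : Ex Q (fun e => r (S e)) = ∑ s ∈ univ.image S, law Q S s * r s := by
  rw [avg_dep hQ S (fun s _ => r s)]
  refine Finset.sum_congr rfl fun s _ => ?_
  by_cases hs : law Q S s = 0
  · rw [hs, zero_mul, zero_mul]
  rw [Ex_const (cond_isLaw hQ.nonneg S hs).sum_one]

section all

variable {D : TD L G} {C a' ρ u : ℝ} {g : ℕ} {cl : ℕ → ℕ → ℕ → L.Cx → L.V → ℝ} {Cg : ℝ} {gg : ℕ}
  {J : ℕ}

/-- **The turning step**, with all the constants. -/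
theorem turn_core (hG : Geo L.toLA G cl Cg gg) (hT : TF D C a' ρ u g) (hC : 0 ≤ C)
    (hCg : 0 ≤ Cg) (ha' : 1 ≤ a')
    (hρ0 : 0 ≤ ρ) (hρ : ρ ≤ 1 / 4) (hu1 : u ≤ 1) {ε : ℝ} {k₀ : ℕ} (hB : D.Box ε k₀)
    (hε : 0 ≤ ε) {σ κ ς τ : ℝ} (hσ : 0 ≤ σ) (hς : 0 ≤ ς) (hτ : 0 < τ)
    (hsm : (2 * (ε + ς * D.ra) + 3 * C * τ) * a' ≤ 1 / 4) {w l : ℕ} (hl : 1 ≤ l) (hwJ : w + l ≤ J)
    (hk₀ : k₀ ≤ l)
    (hl0 : (3 + 3 * C) * (3 * C + Cg + |2 * τ - 1 - Real.log τ|) ≤ l)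
    (F : Fam m J) (c : F.ζ → L.Cx) (hc : ∀ ω, 0 < F.p ω → L.cw (c (F.Z ω)) w) (k a : ℕ)
    (pn : F.ζ → L.V → ℝ) (hpn : ∀ z, L.Pen σ κ ς (pn z)) (b : F.Ω → L.V)
    (hb : L.Ok F (w + l) c k a b) (hnd : ∀ ω, 0 < F.p ω → D.nd J (b ω)) {D₀ : ℝ}
    (hD : ∀ x, L.Get F (w + l) c k (a + g) pn x → x ≤ L.Psi F pn (w + l) b + D₀) :
    Ex (P2 F.p (G.gg (L := L.toLA) F w l c k a b))
        (fun e => (G.rg (G.SS (L := L.toLA) F w l c k a b e) : ℝ)) ≤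
      a' * ((6 * C + 4) * (l + 2 * Ex F.p (fun ω => (L.age (b ω) : ℝ))) +
        4 * (D₀ + Ex F.p (fun ω => cl l k a (c (F.Z ω)) (b ω)))) ∧
    Ex (P2 F.p (G.gg (L := L.toLA) F w l c k a b))
        (fun e => D.hc (G.CC (L := L.toLA) F w l c k a b e) - D.h (b e.2)) ≤
      (ρ * (6 * C + 3) + C * u) * (l + 2 * Ex F.p (fun ω => (L.age (b ω) : ℝ))) +
        4 * ρ * (D₀ + Ex F.p (fun ω => cl l k a (c (F.Z ω)) (b ω))) := by
  classical
  set g' := G.gg (L := L.toLA) F w l c k a b with hg'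
  set Q := P2 F.p g' with hQdef
  have hPl : IsLaw Q := P2_isLaw F.isLaw g'
  have hQ0 := hPl.nonneg
  have hfst : Psh Q Prod.fst F.p := P2_fst F.isLaw g'
  have hsnd : Psh Q Prod.snd F.p := P2_snd F.isLaw g'
  have hpos : ∀ e, 0 < Q e → 0 < F.p e.1 ∧ 0 < F.p e.2 ∧ g' e.1 = g' e.2 := fun e he =>
    (P2_pos F.isLaw e).mp he
  have hline : ∀ e, 0 < Q e → F.l e.1 = F.l e.2 ∧ F.Z e.1 = F.Z e.2 ∧
      F.T e.1 / 2 ^ (J - w) = F.T e.2 / 2 ^ (J - w) ∧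
      G.ty J w l (c (F.Z e.1)) k a (b e.1) = G.ty J w l (c (F.Z e.2)) k a (b e.2) := by
    intro e he
    have h1 := (hpos e he).2.2
    simp only [hg', GS.gg, Prod.mk.injEq] at h1
    exact ⟨h1.1.1.1, h1.1.1.2, h1.1.2, h1.2⟩
  have htt : ∀ ω, F.T ω / 2 ^ (J - (w + l)) / 2 ^ l = F.T ω / 2 ^ (J - w) := by
    intro ω
    rw [Nat.div_div_eq_div_mul, ← pow_add]
    congr 2
    omega
  have htwo : ∀ e, 0 < Q e → G.Two (L := L.toLA) J w l (c (F.Z e.2)) k a (F.l e.2)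
      (F.T e.1 / 2 ^ (J - (w + l))) (F.T e.2 / 2 ^ (J - (w + l))) (b e.1) (b e.2) := by
    intro e he
    obtain ⟨h1, h2, h3, h4⟩ := hline e he
    refine ⟨hc _ (hpos e he).2.1, ?_, hb e.2 (hpos e he).2.1, ?_, ?_⟩
    · have h5 := hb e.1 (hpos e he).1
      rw [h1, h2] at h5
      exact h5
    · rw [htt, htt, h3]
    · rw [← h4, h2]
  set S := G.SS (L := L.toLA) F w l c k a b with hS
  set FP := F.ext Q hPl Prod.snd with hFP
  set t₀ : F.Ω × F.Ω → ℕ := fun e => F.T e.1 / 2 ^ (J - (w + l)) with ht₀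
  set t₁ : F.Ω × F.Ω → ℕ := fun e => F.T e.2 / 2 ^ (J - (w + l)) with ht₁
  set zz : G.Sh → F.Ω × F.Ω → L.Cx := fun s e => G.crs J w l (c (F.Z e.2)) k a (t₀ e) (b e.1) s
    with hzz
  set Nn : G.Sh → ℕ := fun s => D.N J (w + l) (G.rg s) with hNn
  set Yy : ∀ s : G.Sh, (F.Ω × F.Ω) × Fin (Nn s) → D.Γ := fun s e =>
    D.Yf J (w + l) (zz s e.1) (G.rg s) (F.l e.1.2) (t₁ e.1) e.2 with hYy
  set Uu : G.Sh → F.Ω × F.Ω → ℝ := fun s e =>
    D.U J (w + l) (zz s e) (G.rg s) (F.l e.2) (t₁ e) with hUu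
  set aS : G.Sh → ℝ := fun s => CH (nz (cond Q S s) (Nn s)) (fun e => (Yy s e, zz s e.1))
    (fun e => F.Z e.1.2) - Ex (cond Q S s) (Uu s) with haS
  set vS : G.Sh → ℝ := fun s => CH (nz (cond Q S s) (Nn s))
    (fun e => ((t₀ e.1, b e.1.1), (t₁ e.1, b e.1.2)))
    (fun e => ((Yy s e, zz s e.1), F.Z e.1.2)) with hvS
  set gn : F.Ω × F.Ω → ℝ := fun e =>
    D.gn J w l (c (F.Z e.2)) k a (t₀ e) (t₁ e) (b e.1) (b e.2) with hgn
  -- the pieces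
  have hpair : ∀ s (hs : law FP.p S s ≠ 0),
      Pair D (FP.res S s (cond_isLaw FP.isLaw.nonneg S hs)) w l c k a s t₀
        (fun e => b e.1) (fun e => b e.2) := by
    intro s hs e he
    obtain ⟨k1, k2⟩ := (cond_pos_iff hQ0 S s e).mp he
    exact ⟨htwo e k1, k2, hnd _ (hpos e k1).1, hnd _ (hpos e k1).2.1⟩
  set M : ℝ := ((w + l : ℕ) + m * J) * Real.log 2 with hM
  have hget1 := LA.Get.mix (L := L.toLA) FP (w := w + l) (c := c) (k := k) (a := a + g)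
    (pn := pn) S (fun s => M - aS s - Ex (cond Q S s) (fun e => D.hc (zz s e)) -
      Ex (cond Q S s) (fun e => pn (F.Z e.2) (b e.2)) - (ε + ς * D.ra) * (G.rg s : ℝ))
    (fun s hs => piece₁ hT hB hl hk₀ hwJ (hpair s hs) hσ hpn)
  have hget2 := LA.Get.mix (L := L.toLA) FP (w := w + l) (c := c) (k := k) (a := a + g)
    (pn := pn) S (fun s => M - aS s - vS s -
      Ex (cond Q S s) (fun e => D.h (b e.2) - gn e +
        C * u * (l + L.age (b e.1) + L.age (b e.2))) -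
      Ex (cond Q S s) (fun e => pn (F.Z e.2) (b e.2)) - (ε + ς * D.ra) * (G.rg s : ℝ) -
      (3 * C + C * Real.log (2 + (G.rg s : ℝ))))
    (fun s hs => piece₂ hT hC hB hl hk₀ hwJ (hpair s hs) hσ hpn)
  have i1 := hD _ (LA.Get.of_ext hsnd hget1)
  have i2 := hD _ (LA.Get.of_ext hsnd hget2)
  rw [LA.Psi_eq] at i1 i2
  -- the averages
  have a5 : ∑ s ∈ univ.image S, law Q S s = 1 := (sum_law Q S).trans hPl.sum_one
  have q1 : Ex Q (fun e => D.hc (G.CC (L := L.toLA) F w l c k a b e)) =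
      ∑ s ∈ univ.image S, law Q S s * Ex (cond Q S s) (fun e => D.hc (zz s e)) :=
    avg_dep hPl S (fun s e => D.hc (zz s e))
  have q2 := avg_Ex hQ0 S (fun e : F.Ω × F.Ω => pn (F.Z e.2) (b e.2))
  have q3 := avg_num hPl S (fun s => (G.rg s : ℝ))
  have q4 := avg_Ex hQ0 S (fun e : F.Ω × F.Ω => D.h (b e.2) - gn e +
    C * u * (l + L.age (b e.1) + L.age (b e.2)))
  have q5 := avg_num hPl S (fun s => Real.log (2 + (G.rg s : ℝ)))
  have s1 := sum_lin (univ.image S) (law Q S) a5 M (ε + ς * D.ra) aS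
    (fun s => Ex (cond Q S s) (fun e => D.hc (zz s e)))
    (fun s => Ex (cond Q S s) (fun e => pn (F.Z e.2) (b e.2))) (fun s => (G.rg s : ℝ))
  have s2 := sum_lin2 (univ.image S) (law Q S) a5 M (ε + ς * D.ra) (3 * C) C aS vS
    (fun s => Ex (cond Q S s) (fun e => D.h (b e.2) - gn e +
      C * u * (l + L.age (b e.1) + L.age (b e.2))))
    (fun s => Ex (cond Q S s) (fun e => pn (F.Z e.2) (b e.2))) (fun s => (G.rg s : ℝ))
    (fun s => Real.log (2 + (G.rg s : ℝ)))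
  rw [← q1, ← q2, ← q3] at s1
  rw [← q4, ← q2, ← q3, ← q5] at s2
  -- the marginals
  have m1 : Ex Q (fun e => pn (F.Z e.2) (b e.2)) = Ex F.p (fun ω => pn (F.Z ω) (b ω)) :=
    hsnd.Ex_eq (fun ω => pn (F.Z ω) (b ω))
  have m2 : Ex Q (fun e => D.h (b e.2)) = Ex F.p (fun ω => D.h (b ω)) :=
    hsnd.Ex_eq (fun ω => D.h (b ω))
  have m3 : Ex Q (fun e => D.h (b e.2) - gn e +
      C * u * (l + L.age (b e.1) + L.age (b e.2))) = Ex F.p (fun ω => D.h (b ω)) - Ex Q gn +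
      C * u * Ex Q (fun e => ((l : ℝ) + L.age (b e.1) + L.age (b e.2))) := by
    rw [← m2, ← Ex_cmul]
    unfold Ex
    rw [← Finset.sum_sub_distrib, ← Finset.sum_add_distrib]
    exact Finset.sum_congr rfl fun e _ => by ring
  have m4 : Ex F.p (fun ω => L.pot J (w + l) (F.l ω) (F.T ω / 2 ^ (J - (w + l))) (b ω)) =
      Ex F.p (fun ω => D.cap J (w + l) (F.l ω) (F.T ω / 2 ^ (J - (w + l))) (b ω)) +
        Ex F.p (fun ω => D.h (b ω)) := by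
    rw [← Ex_add]
    exact Ex_congr F.isLaw.nonneg fun ω _ => hT.pot_eq _ _ _ _ _
  have m5 : Ex Q (fun e => D.hc (G.CC (L := L.toLA) F w l c k a b e) - D.h (b e.2)) =
      Ex Q (fun e => D.hc (G.CC (L := L.toLA) F w l c k a b e)) -
        Ex F.p (fun ω => D.h (b ω)) := by
    rw [← m2]
    unfold Ex
    rw [← Finset.sum_sub_distrib]
    exact Finset.sum_congr rfl fun e _ => by ring
  set Ecap := Ex F.p (fun ω => D.cap J (w + l) (F.l ω) (F.T ω / 2 ^ (J - (w + l))) (b ω))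
    with hEcap
  set HB := CH F.p (fun ω => (F.T ω / 2 ^ (J - (w + l)), b ω)) F.Z with hHB
  set Ea := Ex F.p (fun ω => (L.age (b ω) : ℝ)) with hEa
  have m6 : Ex Q (fun e => D.cap J (w + l) (F.l e.2) (t₁ e) (b e.2)) = Ecap :=
    hsnd.Ex_eq (fun ω => D.cap J (w + l) (F.l ω) (F.T ω / 2 ^ (J - (w + l))) (b ω))
  have m7 : Ex Q (fun e => D.cap J (w + l) (F.l e.2) (t₀ e) (b e.1)) = Ecap := by
    have h1 : Ex Q (fun e => D.cap J (w + l) (F.l e.1) (t₀ e) (b e.1)) = Ecap :=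
      hfst.Ex_eq (fun ω => D.cap J (w + l) (F.l ω) (F.T ω / 2 ^ (J - (w + l))) (b ω))
    rw [← h1]
    exact Ex_congr hQ0 fun e he => by rw [(hline e he).1]
  have m8 : Ex Q (fun e => (L.age (b e.1) : ℝ)) = Ea := hfst.Ex_eq (fun ω => (L.age (b ω) : ℝ))
  have m9 : Ex Q (fun e => (L.age (b e.2) : ℝ)) = Ea := hsnd.Ex_eq (fun ω => (L.age (b ω) : ℝ))
  have n1 : CH Q (fun e => (t₁ e, b e.2)) (fun e => (F.Z e.2, S e)) ≤ HB := by
    have h1 : CH Q (fun e => (t₁ e, b e.2)) (fun e => F.Z e.2) = HB :=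
      hsnd.CH_eq (fun ω => (F.T ω / 2 ^ (J - (w + l)), b ω)) F.Z
    rw [← h1]
    exact CH_mono_cond hQ0 fun _ _ _ _ h => (Prod.ext_iff.mp h).1
  have n0 : CH Q (fun e => (t₀ e, b e.1)) (fun e => (F.Z e.2, S e)) ≤ HB := by
    have h1 : CH Q (fun e => (t₀ e, b e.1)) (fun e => F.Z e.1) = HB :=
      hfst.CH_eq (fun ω => (F.T ω / 2 ^ (J - (w + l)), b ω)) F.Z
    rw [← h1]
    refine CH_mono_cond hQ0 fun e e' he he' h => ?_
    have h2 : F.Z e.2 = F.Z e'.2 := (Prod.ext_iff.mp h).1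
    show F.Z e.1 = F.Z e'.1
    rw [(hline e he).2.1, (hline e' he').2.1, h2]
  -- the codes
  set lM := Ex F.p (fun ω => cl l k a (c (F.Z ω)) (b ω)) with hlM
  have hcS : CH Q S (fun e => F.Z e.2) ≤ lM := by
    have h0 : Ex Q (fun e => cl l k a (c (F.Z e.2)) (b e.2)) = lM :=
      hsnd.Ex_eq (fun ω => cl l k a (c (F.Z ω)) (b ω))
    rw [← h0]
    refine CH_le_kraft hPl S _ _ fun ζ₀ => ?_
    by_cases hcz : L.cw (c ζ₀) w
    swap
    · exact ⟨fun _ => 0, ⟨fun _ => le_refl _, fun F => by simp⟩, fun e he hee => absurd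
        (show L.cw (c ζ₀) w by
          rw [← show F.Z e.2 = ζ₀ from hee]
          exact hc _ (hpos e he).2.1) hcz⟩
    obtain ⟨q, h1, h2⟩ := hG.sh_code J w l (c ζ₀) k a hl hwJ hcz
    refine ⟨q, h1, fun e he hee => ?_⟩
    have h3 := h2 _ _ _ _ _ (by
      have := htwo e he
      rw [show F.Z e.2 = ζ₀ from hee] at this
      exact this)
    have h4 : S e = G.sh J w l (c ζ₀) k a (F.T e.1 / 2 ^ (J - (w + l)))
      (F.T e.2 / 2 ^ (J - (w + l))) (b e.1) (b e.2) := by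
      rw [← show F.Z e.2 = ζ₀ from hee]
      rfl
    rw [h4]
    rw [show F.Z e.2 = ζ₀ from hee]
    exact ⟨h3.1, h3.2.2⟩
  -- visibility
  have hvis : ∀ s ∈ univ.image S, law Q S s * vS s ≤
      law Q S s * CH (cond Q S s) (fun e => (t₀ e, b e.1)) (fun e => F.Z e.2) +
      law Q S s * Ex (cond Q S s) (fun e => D.cap J (w + l) (F.l e.2) (t₀ e) (b e.1)) +
      law Q S s * CH (cond Q S s) (fun e => (t₁ e, b e.2)) (fun e => F.Z e.2) +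
      law Q S s * Ex (cond Q S s) (fun e => D.cap J (w + l) (F.l e.2) (t₁ e) (b e.2)) +
      C * (law Q S s * l + law Q S s * Ex (cond Q S s) (fun e => (L.age (b e.1) : ℝ))) +
      2 * C * (law Q S s * Real.log (2 + (G.rg s : ℝ))) + law Q S s * Cg -
      2 * (law Q S s * aS s) := by
    intro s _
    by_cases hs : law Q S s = 0
    · rw [hs]
      simp
    have hs' : law FP.p S s ≠ 0 := hs
    have hs0 : 0 ≤ law Q S s := law_nonneg hQ0 _ _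
    have hQl : IsLaw (cond Q S s) := cond_isLaw hQ0 S hs
    have hgam : CH (cond Q S s) (zz s) (fun e => ((t₁ e, b e.2), F.Z e.2)) ≤ Cg := by
      refine KNH.CH_le_of_card hQl _ _ ?_
      rintro ⟨⟨t₁', v₁⟩, ζ₀⟩
      by_cases hcz : L.cw (c ζ₀) w
      swap
      · refine ⟨∅, by simpa using hCg, fun e he hee => absurd ?_ hcz⟩
        simp only [Prod.mk.injEq] at hee
        rw [← hee.2]
        exact hc _ (hpos e ((cond_pos_iff hQ0 S _ e).mp he).1).2.1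
      obtain ⟨𝒞, h3, h4⟩ := hG.gamma J w l (c ζ₀) k a hl hwJ hcz t₁' v₁ s
      refine ⟨𝒞, h3, fun e he hee => ?_⟩
      obtain ⟨k1, k2⟩ := (cond_pos_iff hQ0 S _ e).mp he
      have k3 := htwo e k1
      have k4 : G.sh J w l (c (F.Z e.2)) k a (F.T e.1 / 2 ^ (J - (w + l)))
        (F.T e.2 / 2 ^ (J - (w + l))) (b e.1) (b e.2) = s := k2
      simp only [Prod.mk.injEq] at hee
      obtain ⟨⟨i1, i2⟩, i3⟩ := hee
      have i1' : F.T e.2 / 2 ^ (J - (w + l)) = t₁' := i1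
      rw [i1', i2, i3] at k3 k4
      have k5 := h4 _ _ _ k3 k4
      simp only [hzz]
      rw [i3]
      exact k5
    have h1 := vis2_le hT hl hwJ (hpair s hs') hgam
    have h2 : vS s ≤ (CH (cond Q S s) (fun e => (t₀ e, b e.1)) (fun e => F.Z e.2) +
        Ex (cond Q S s) (fun e => D.cap J (w + l) (F.l e.2) (t₀ e) (b e.1))) +
        (CH (cond Q S s) (fun e => (t₁ e, b e.2)) (fun e => F.Z e.2) +
        Ex (cond Q S s) (fun e => D.cap J (w + l) (F.l e.2) (t₁ e) (b e.2))) +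
        C * (l + Ex (cond Q S s) (fun e => (L.age (b e.1) : ℝ))) +
        2 * C * Real.log (2 + (G.rg s : ℝ)) + Cg - 2 * aS s := h1
    have h3 := mul_le_mul_of_nonneg_left h2 hs0
    refine h3.trans (le_of_eq ?_)
    ring
  have hvs := Finset.sum_le_sum hvis
  simp only [Finset.sum_add_distrib, Finset.sum_sub_distrib, ← Finset.mul_sum,
    ← Finset.sum_mul] at hvs
  rw [← avg_CH hQ0 S, ← avg_CH hQ0 S, ← avg_Ex hQ0 S, ← avg_Ex hQ0 S, ← avg_Ex hQ0 S, ← q5, a5,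
    one_mul, one_mul, m6, m7, m8] at hvs
  -- the geometry
  have hgn0 : 0 ≤ Ex Q gn := by
    refine (Ex_const hPl.sum_one (0 : ℝ)).ge.trans (Ex_mono hQ0 fun e he => ?_)
    exact hT.gn_nonneg J w l _ k a hl hwJ _ _ _ _ _ (htwo e he) (hnd _ (hpos e he).1)
      (hnd _ (hpos e he).2.1)
  have hEL : Ex Q (fun e => ((l : ℝ) + L.age (b e.1) + L.age (b e.2))) = l + 2 * Ea := by
    rw [Ex_add, Ex_add, Ex_const hPl.sum_one, m8, m9]
    ring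
  have hlat : Ex Q (fun e => D.hc (G.CC (L := L.toLA) F w l c k a b e) - D.h (b e.2)) ≤
      ρ * Ex Q gn + C * u * (l + 2 * Ea) := by
    rw [← hEL, ← Ex_cmul, ← Ex_cmul, ← Ex_add]
    refine Ex_mono hQ0 fun e he => ?_
    exact hT.lat J w l _ k a hl hwJ _ _ _ _ _ (htwo e he) (hnd _ (hpos e he).1)
      (hnd _ (hpos e he).2.1)
  have hran : Ex Q (fun e => (G.rg (S e) : ℝ)) ≤ a' * Ex Q gn + a' * (l + 2 * Ea) := by
    rw [← hEL, ← Ex_cmul, ← Ex_cmul, ← Ex_add]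
    refine Ex_mono hQ0 fun e he => ?_
    exact hT.range J w l _ k a hl hwJ _ _ _ _ _ (htwo e he) (hnd _ (hpos e he).1)
      (hnd _ (hpos e he).2.1)
  have hlk : Ex Q (fun e => Real.log (2 + (G.rg (S e) : ℝ))) ≤
      τ * Ex Q (fun e => (G.rg (S e) : ℝ)) + |2 * τ - 1 - Real.log τ| := by
    rw [← Ex_cmul, ← KNH.Ex_add_const hPl]
    refine Ex_mono hQ0 fun e _ => ?_
    have h1 := log_le_tau hτ (Nat.cast_nonneg (G.rg (S e)) : (0 : ℝ) ≤ G.rg (S e))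
    linarith [le_abs_self (2 * τ - 1 - Real.log τ)]
  have hEa0 : 0 ≤ Ea := by
    refine (Ex_const F.isLaw.sum_one (0 : ℝ)).ge.trans (Ex_mono F.isLaw.nonneg fun ω _ => ?_)
    exact Nat.cast_nonneg _
  have hl0' : (0 : ℝ) ≤ l := Nat.cast_nonneg l
  have habs := abs_nonneg (2 * τ - 1 - Real.log τ)
  -- the conclusion
  have i1' : (∑ s ∈ univ.image S, law Q S s * (M - aS s -
      Ex (cond Q S s) (fun e => D.hc (zz s e)) -
      Ex (cond Q S s) (fun e => pn (F.Z e.2) (b e.2)) - (ε + ς * D.ra) * (G.rg s : ℝ))) -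
      CH Q S (fun e => F.Z e.2) ≤ M - (Ex F.p (fun ω => L.pot J (w + l) (F.l ω)
        (F.T ω / 2 ^ (J - (w + l))) (b ω)) + Ex F.p (fun ω => pn (F.Z ω) (b ω))) - HB + D₀ := i1
  have i2' : (∑ s ∈ univ.image S, law Q S s * (M - aS s - vS s -
      Ex (cond Q S s) (fun e => D.h (b e.2) - gn e +
        C * u * (l + L.age (b e.1) + L.age (b e.2))) -
      Ex (cond Q S s) (fun e => pn (F.Z e.2) (b e.2)) - (ε + ς * D.ra) * (G.rg s : ℝ) -
      (3 * C + C * Real.log (2 + (G.rg s : ℝ))))) -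
      CH Q S (fun e => F.Z e.2) ≤ M - (Ex F.p (fun ω => L.pot J (w + l) (F.l ω)
        (F.T ω / 2 ^ (J - (w + l))) (b ω)) + Ex F.p (fun ω => pn (F.Z ω) (b ω))) - HB + D₀ := i2
  rw [s1, m4, m1] at i1'
  rw [s2, m4, m1, m3, hEL] at i2'
  set cc := 3 * C + Cg + |2 * τ - 1 - Real.log τ| with hcc
  set A := ∑ s ∈ univ.image S, law Q S s * aS s with hA
  set Vv := ∑ s ∈ univ.image S, law Q S s * vS s with hVv
  have hcl := closing (X := Ecap + HB - A) (G := Ex Q gn)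
    (K := Ex Q (fun e => (G.rg (S e) : ℝ))) (L := l + 2 * Ea) (v := Vv)
    (hd := Ex Q (fun e => D.hc (G.CC (L := L.toLA) F w l c k a b e) - D.h (b e.2)))
    (D := D₀) (H := lM) (lk := Ex Q (fun e => Real.log (2 + (G.rg (S e) : ℝ))))
    (e := ε + ς * D.ra) (ρ := ρ) (a := a') (C := C) (c := cc) (τ := τ) (u := u)
    (by positivity) ha' hC hτ.le hgn0 (by linarith) hρ0 hu1
    (by rw [m5]; linarith) (by linarith)
    (by nlinarith) hlat hran (by linarith) hsm hρ (by nlinarith)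
  exact ⟨hcl.2.1, hcl.2.2⟩

/-- **(TURN)** The conclusion of the turning step: `A` bounds the range, `ρ'` the excess, `B` is the
coefficient of the length of the codes. -/
def Turn (D : TD L G) (cl : ℕ → ℕ → ℕ → L.Cx → L.V → ℝ) (A ρ' B κ ς₀ : ℝ) (g l₀ : ℕ) : Prop :=
  ∀ (J w l : ℕ), 1 ≤ l → l₀ ≤ l → w + l ≤ J → ∀ (F : Fam m J) (c : F.ζ → L.Cx),
    (∀ ω, 0 < F.p ω → L.cw (c (F.Z ω)) w) → ∀ (k a : ℕ) (σ ς : ℝ), 0 ≤ σ → 0 ≤ ς → ς ≤ ς₀ →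
    ∀ pn : F.ζ → L.V → ℝ, (∀ z, L.Pen σ κ ς (pn z)) → ∀ b : F.Ω → L.V,
    L.Ok F (w + l) c k a b → (∀ ω, 0 < F.p ω → D.nd J (b ω)) → ∀ D₀ : ℝ,
    (∀ x, L.Get F (w + l) c k (a + g) pn x → x ≤ L.Psi F pn (w + l) b + D₀) →
    Ex (P2 F.p (G.gg (L := L.toLA) F w l c k a b))
        (fun e => (G.rg (G.SS (L := L.toLA) F w l c k a b e) : ℝ)) ≤
      A * (D₀ + (l + Ex F.p (fun ω => (L.age (b ω) : ℝ)))) +
        B * Ex F.p (fun ω => cl l k a (c (F.Z ω)) (b ω)) ∧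
    Ex (P2 F.p (G.gg (L := L.toLA) F w l c k a b))
        (fun e => D.hc (G.CC (L := L.toLA) F w l c k a b e) - D.h (b e.2)) ≤
      ρ' * (D₀ + (l + Ex F.p (fun ω => (L.age (b ω) : ℝ)))) +
        B * Ex F.p (fun ω => cl l k a (c (F.Z ω)) (b ω))

/-- The defect of optimality is not negative. -/
theorem near_nonneg {F : Fam m J} {w k a : ℕ} {c : F.ζ → L.Cx} {pn : F.ζ → L.V → ℝ}
    {b : F.Ω → L.V} (hb : L.Ok F w c k a b) {D₀ : ℝ}
    (hD : ∀ x, L.Get F w c k (a + g) pn x → x ≤ L.Psi F pn w b + D₀) : 0 ≤ D₀ := by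
  have h1 := hD _ ((LA.Get.self (L := L.toLA) F pn hb).mono_x (Nat.le_add_right a g) (le_refl _))
  linarith

/-- **The turning step.** -/
theorem turn (hG : Geo L.toLA G cl Cg gg) (hT : TF D C a' ρ u g) (hC : 0 ≤ C) (hCg : 0 ≤ Cg)
    (ha' : 1 ≤ a') (hρ0 : 0 ≤ ρ) (hρ : ρ ≤ 1 / 4) (hu0 : 0 ≤ u) (hu1 : u ≤ 1) (hra : 1 ≤ D.ra)
    (hB : ∀ ε : ℝ, 0 < ε → ∃ k₀ : ℕ, D.Box ε k₀) (κ : ℝ)
    (hcl : ∀ (l k a : ℕ) (c : L.Cx) (v : L.V), 0 ≤ cl l k a c v) :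
    ∃ l₀ : ℕ, Turn D cl (a' * (12 * C + 8)) ((12 * C + 6) * ρ + 2 * C * u) (4 * a') κ
      (1 / (32 * (a' * D.ra))) g l₀ := by
  have ha0 : 0 < a' := by linarith
  have hra' : (0 : ℝ) < D.ra := by exact_mod_cast hra
  obtain ⟨k₀, hBox⟩ := hB (1 / (32 * a')) (by positivity)
  obtain ⟨τ, hτ⟩ : ∃ τ : ℝ, τ = 1 / (24 * (C + 1) * a') := ⟨_, rfl⟩
  have hτ0 : 0 < τ := by
    rw [hτ]
    positivity
  obtain ⟨l₀, hl₀⟩ := exists_nat_ge ((3 + 3 * C) * (3 * C + Cg + |2 * τ - 1 - Real.log τ|))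
  refine ⟨max l₀ k₀, ?_⟩
  intro J w l hl hl0 hwJ F c hc k a σ ς hσ hς hς0 pn hpn b hb hnd D₀ hD
  have hD0 := near_nonneg hb hD
  have hsm : (2 * (1 / (32 * a') + ς * D.ra) + 3 * C * τ) * a' ≤ 1 / 4 := by
    have h1 : ς * D.ra * a' ≤ 1 / 32 := by
      have := mul_le_mul_of_nonneg_right hς0 (mul_pos hra' ha0).le
      calc ς * D.ra * a' = ς * (D.ra * a') := by ring
        _ ≤ 1 / (32 * (a' * D.ra)) * (D.ra * a') := this
        _ = 1 / 32 := by field_simp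
    have h2 : 1 / (32 * a') * a' = 1 / 32 := by field_simp
    have h3 : 3 * C * τ * a' ≤ 1 / 8 := by
      have h4 : 3 * C * τ * a' = C / (8 * (C + 1)) := by
        rw [hτ]
        field_simp
        ring
      rw [h4, div_le_div_iff₀ (by positivity) (by norm_num)]
      linarith
    have h5 : (2 * (1 / (32 * a') + ς * D.ra) + 3 * C * τ) * a' =
        2 * (1 / (32 * a') * a') + 2 * (ς * D.ra * a') + 3 * C * τ * a' := by ring
    rw [h5, h2]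
    linarith
  have hcore := turn_core hG hT hC hCg ha' hρ0 hρ hu1 hBox (by positivity) hσ hς hτ0 hsm hl
    hwJ ((le_max_right _ _).trans hl0)
    (hl₀.trans (by exact_mod_cast (le_max_left _ _).trans hl0)) F c hc k a pn hpn b hb hnd hD
  have hEa0 : 0 ≤ Ex F.p (fun ω => (L.age (b ω) : ℝ)) := by
    refine (Ex_const F.isLaw.sum_one (0 : ℝ)).ge.trans (Ex_mono F.isLaw.nonneg fun ω _ => ?_)
    exact Nat.cast_nonneg _
  have hlM0 : 0 ≤ Ex F.p (fun ω => cl l k a (c (F.Z ω)) (b ω)) := by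
    refine (Ex_const F.isLaw.sum_one (0 : ℝ)).ge.trans (Ex_mono F.isLaw.nonneg fun ω _ => ?_)
    exact hcl _ _ _ _ _
  have hl0' : (0 : ℝ) ≤ l := Nat.cast_nonneg l
  obtain ⟨Ea, hEa⟩ : ∃ x, x = Ex F.p (fun ω => (L.age (b ω) : ℝ)) := ⟨_, rfl⟩
  obtain ⟨lM, hlM⟩ : ∃ x, x = Ex F.p (fun ω => cl l k a (c (F.Z ω)) (b ω)) := ⟨_, rfl⟩
  rw [← hEa, ← hlM] at hcore ⊢
  rw [← hEa] at hEa0
  rw [← hlM] at hlM0
  refine ⟨hcore.1.trans ?_, hcore.2.trans ?_⟩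
  · have h1 : a' * ((6 * C + 4) * (l + 2 * Ea) + 4 * (D₀ + lM)) =
        a' * ((6 * C + 4) * (l + 2 * Ea)) + 4 * a' * D₀ + 4 * a' * lM := by ring
    have h2 : a' * (12 * C + 8) * (D₀ + (l + Ea)) = a' * ((6 * C + 4) * (l + 2 * Ea)) +
        4 * a' * D₀ + (a' * (12 * C + 4) * D₀ + a' * (6 * C + 4) * l) := by ring
    have h3 : 0 ≤ a' * (12 * C + 4) * D₀ + a' * (6 * C + 4) * l := by positivity
    rw [h1, h2]
    linarith
  · have h1 : (ρ * (6 * C + 3) + C * u) * (l + 2 * Ea) + 4 * ρ * (D₀ + lM) =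
        (ρ * (6 * C + 3) + C * u) * (l + 2 * Ea) + 4 * ρ * D₀ + 4 * ρ * lM := by ring
    have h2 : ((12 * C + 6) * ρ + 2 * C * u) * (D₀ + (l + Ea)) =
        (ρ * (6 * C + 3) + C * u) * (l + 2 * Ea) + 4 * ρ * D₀ +
        (((12 * C + 2) * ρ + 2 * C * u) * D₀ + (ρ * (6 * C + 3) + C * u) * l) := by ring
    have h3 : 0 ≤ ((12 * C + 2) * ρ + 2 * C * u) * D₀ + (ρ * (6 * C + 3) + C * u) * l := by
      positivity
    have h4 : 4 * ρ * lM ≤ 4 * a' * lM := by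
      have : 4 * ρ ≤ 4 * a' := by linarith
      exact mul_le_mul_of_nonneg_right this hlM0
    rw [h1, h2]
    linarith

end all

end Pool.TRN
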