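import Pool.Agent.H15.KN.Cst

/-!
# The tower and the walk for an abstract class of labels with an age

`LSys.Get F w c k a θ x`: the family `F` has a label at the window `w`, whose potential minus the
penalty `θ` of its age is at least `x`, between the coarse cell given by `c` and a cell which
is `2 ^ (-k)` times as large, up to the slack `2 ^ a`. The age of a label is the number of digits
of the time between the window and the sub-window on which its cells live.
-/

set_option autoImplicit false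

namespace Pool.KN2

open Finset Real
open Pool.Agent.H49.Ent Pool.Agent.H32.Dense Pool.STK Pool.KA
open Pool.KM7 (Nng)
open Pool.KN (co co_add co_zero co_nonneg co_cst Adm Adm.mono)

/-- An abstract class of labels. -/
structure LSys (m : ℕ) where
  /-- the coarse cells -/
  Cx : Type
  /-- some label at the window `w`, with the range `k` and the slack `a`, has potential at
  least `x` more than the penalty `θ` of its age -/
  Get : ∀ {J : ℕ} (F : Fam m J) (_w : ℕ) (_c : F.ζ → Cx) (_k _a : ℕ) (_θ : ℕ → ℝ) (_x : ℝ), Prop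
  mono : ∀ {J : ℕ} {F : Fam m J} {w : ℕ} {c : F.ζ → Cx} {k a a' : ℕ} {θ θ' : ℕ → ℝ} {x x' : ℝ}
    (d : ℝ), a ≤ a' → (∀ g, θ' g ≤ θ g + d) → x' + d ≤ x →
    Get F w c k a θ x → Get F w c k a' θ' x'

/-- The slopes of the penalty are between `σ` and `κ`. -/
def Slp (σ κ : ℝ) (θ : ℕ → ℝ) : Prop :=
  ∀ a b : ℕ, a ≤ b → σ * ((b : ℝ) - a) ≤ θ b - θ a ∧ θ b - θ a ≤ κ * ((b : ℝ) - a)

/-- The loss of a block of `n` digits for a label of age `g`, with range and slack `k`. -/
noncomputable def lg (k n : ℝ) (g : ℕ) : ℝ := Real.log (2 + k / (n + g))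

section

variable {m : ℕ} (S : LSys m) {Y : Type} (f : Y → ℕ → ℝ) (Λ : ℝ) (K : ℕ) (κ : ℝ)

/-- **`N` blocks lose at most their cost, `δ` for each digit, and
`c₀ log (2 + (k + a) / (K N + age))`**; the slack grows by `G`. -/
def STP (N G : ℕ) (δ c₀ σ : ℝ) : Prop :=
  ∀ (J sh w : ℕ), J = w + K * N + K * sh → ∀ (F : Fam m J) (c : F.ζ → S.Cx) (k a : ℕ)
    (y : ℕ → F.Ω → Y), Adm K (sh + N) F y → ∀ (θ : ℕ → ℝ), Slp σ κ θ → ∀ x : ℝ,
      S.Get F (w + K * N) c k a (fun g => θ g + c₀ * lg (k + a) (K * N : ℕ) g) x →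
      S.Get F w c k (a + G) θ (x - co f Λ K N sh F y - δ * (K * N : ℕ))

/-- **(LOCALIZE)** The loss `c₀ log (2 + (k + a) / (K N + age))` of the local problems
becomes `C (1 + Λ) log (2 + (k + a) / (K N + age))`, and a constant. -/
def LOCZ (C B σm : ℝ) (g : ℕ) : Prop :=
  ∀ (Y : Type) (f : Y → ℕ → ℝ) (Λ : ℝ), 0 < Λ → ∀ K : ℕ, 1 + Λ ≤ K → Nng f Λ K →
    ∀ N : ℕ, 1 ≤ N → ∀ (G : ℕ) (δ c₀ σ : ℝ), 0 ≤ δ → 0 ≤ c₀ → c₀ ≤ 3 * (C * (1 + Λ)) →
    σm ≤ σ → σ + C * (1 + Λ) / (K * N : ℕ) ≤ κ → STP S f Λ K κ N G δ c₀ σ →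
      STP S f Λ K κ N (G + g) (δ + B * (1 + Λ) / (K * N : ℕ)) (C * (1 + Λ))
        (σ + C * (1 + Λ) / (K * N : ℕ))

end

/-! ### The penalty -/

theorem Slp.mono {σ σ' κ κ' : ℝ} {θ : ℕ → ℝ} (h : Slp σ κ θ) (h1 : σ' ≤ σ) (h2 : κ ≤ κ') :
    Slp σ' κ' θ := by
  intro a b hab
  have h3 : (0 : ℝ) ≤ (b : ℝ) - a := by
    have : (a : ℝ) ≤ b := by exact_mod_cast hab
    linarith
  obtain ⟨h4, h5⟩ := h a b hab
  exact ⟨(mul_le_mul_of_nonneg_right h1 h3).trans h4, h5.trans (mul_le_mul_of_nonneg_right h2 h3)⟩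

theorem Slp.lin {σ κ ω : ℝ} (h1 : σ ≤ ω) (h2 : ω ≤ κ) : Slp σ κ (fun g => ω * (g : ℝ)) := by
  intro a b hab
  have h3 : (0 : ℝ) ≤ (b : ℝ) - a := by
    have : (a : ℝ) ≤ b := by exact_mod_cast hab
    linarith
  have e : ω * (b : ℝ) - ω * a = ω * ((b : ℝ) - a) := by ring
  simp only [e]
  exact ⟨mul_le_mul_of_nonneg_right h1 h3, mul_le_mul_of_nonneg_right h2 h3⟩

section lg

variable {k n : ℝ} {a b : ℕ}

theorem lg_nonneg (hk : 0 ≤ k) (hn : 0 < n) (a : ℕ) : 0 ≤ lg k n a := by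
  refine Real.log_nonneg ?_
  have : 0 ≤ k / (n + a) := by positivity
  linarith

theorem lg_anti (hk : 0 ≤ k) (hn : 0 < n) (hab : a ≤ b) : lg k n b ≤ lg k n a := by
  have h1 : (a : ℝ) ≤ b := by exact_mod_cast hab
  have h2 : 0 ≤ k / (n + b) := by positivity
  refine Real.log_le_log (by linarith) ?_
  have h3 : k / (n + b) ≤ k / (n + a) :=
    div_le_div_of_nonneg_left hk (by positivity) (by linarith)
  linarith

/-- The slopes of the loss are between `-1/n` and `0`. -/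
theorem lg_slope (hk : 0 ≤ k) (hn : 0 < n) (hab : a ≤ b) :
    lg k n a - lg k n b ≤ ((b : ℝ) - a) / n := by
  have h1 : (a : ℝ) ≤ b := by exact_mod_cast hab
  have ha0 : (0 : ℝ) ≤ a := Nat.cast_nonneg a
  have hna : 0 < n + a := by linarith
  have hnb : 0 < n + b := by linarith
  have h2 : 0 ≤ k / (n + b) := by positivity
  have h2' : 0 ≤ k / (n + a) := by positivity
  unfold lg
  rw [← Real.log_div (by linarith) (by linarith)]
  have h3 : (2 + k / (n + a)) / (2 + k / (n + b)) ≤ (n + b) / (n + a) := by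
    rw [div_le_div_iff₀ (by linarith) hna]
    have e1 : (2 + k / (n + a)) * (n + a) = 2 * (n + a) + k := by field_simp
    have e2 : (n + b) * (2 + k / (n + b)) = 2 * (n + b) + k := by field_simp
    rw [e1, e2]
    linarith
  have h4 : 0 < (2 + k / (n + a)) / (2 + k / (n + b)) := by positivity
  have h5 : (n + b) / (n + a) - 1 ≤ ((b : ℝ) - a) / n := by
    have e : (n + b) / (n + a) - 1 = ((b : ℝ) - a) / (n + a) := by
      field_simp
      ring
    rw [e]
    exact div_le_div_of_nonneg_left (by linarith) hn (by linarith)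
  have h6 := Real.log_le_sub_one_of_pos h4
  linarith

theorem lg_le (hk : 0 ≤ k) (hn : 1 ≤ n) (a : ℕ) : lg k n a ≤ Real.log (k + 2) := by
  have ha0 : (0 : ℝ) ≤ a := Nat.cast_nonneg a
  have h2 : 0 ≤ k / (n + a) := by positivity
  refine Real.log_le_log (by linarith) ?_
  have h3 : k / (n + a) ≤ k := div_le_self hk (by linarith)
  linarith

/-- Half of the block. -/
theorem lg_two {G g : ℝ} (hk : 0 ≤ k) (hn : 0 < n) (hg : 0 ≤ g) (hG : G ≤ 2 * g * n) (hG0 : 0 ≤ G)
    (a : ℕ) : lg (k + G) n a ≤ lg k (2 * n) a + (Real.log 2 + Real.log (1 + g)) := by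
  have ha0 : (0 : ℝ) ≤ a := Nat.cast_nonneg a
  have hna : 0 < n + a := by linarith
  have h2na : 0 < 2 * n + a := by linarith
  have h2 : 0 ≤ k / (2 * n + a) := by positivity
  unfold lg
  rw [← Real.log_mul (by norm_num) (by positivity), ← Real.log_mul (by positivity) (by positivity)]
  refine Real.log_le_log (by positivity) ?_
  have h3 : (k + G) / (n + a) ≤ 2 * (k / (2 * n + a)) + 2 * g := by
    rw [div_le_iff₀ hna]
    have e1 : (2 * (k / (2 * n + a)) + 2 * g) * (n + a) =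
        k * ((2 * (n + a)) / (2 * n + a)) + 2 * g * n + 2 * g * a := by
      field_simp
      ring
    rw [e1]
    have h4 : 1 ≤ (2 * (n + a)) / (2 * n + a) := by
      rw [one_le_div h2na]
      linarith
    have h5 := mul_le_mul_of_nonneg_left h4 hk
    have h6 : 0 ≤ 2 * g * a := by positivity
    linarith
  have h7 : 0 ≤ k / (2 * n + a) * g := by positivity
  have e2 : (2 + k / (2 * n + a)) * (2 * (1 + g)) =
      4 + 2 * (k / (2 * n + a)) + 4 * g + 2 * (k / (2 * n + a) * g) := by ring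
  rw [e2]
  linarith

theorem lg_half (hk : 0 ≤ k) (hn : 0 < n) (a : ℕ) : lg k n a ≤ lg k (2 * n) a + Real.log 2 := by
  have h := lg_two (G := 0) (g := 0) hk hn le_rfl (by simp) le_rfl a
  simpa using h

end lg

theorem Slp.add_lg {σ κ : ℝ} {θ : ℕ → ℝ} (h : Slp σ κ θ) {k n c : ℝ} (hk : 0 ≤ k) (hn : 0 < n)
    (hc : 0 ≤ c) : Slp (σ - c / n) κ (fun g => θ g + c * lg k n g) := by
  intro a b hab
  obtain ⟨h1, h2⟩ := h a b hab
  have h3 := mul_le_mul_of_nonneg_left (lg_slope hk hn hab) hc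
  have h4 := mul_le_mul_of_nonneg_left (lg_anti hk hn hab) hc
  have e1 : c * (((b : ℝ) - a) / n) = c / n * ((b : ℝ) - a) := by ring
  rw [e1] at h3
  constructor
  · change (σ - c / n) * ((b : ℝ) - a) ≤ (θ b + c * lg k n b) - (θ a + c * lg k n a)
    rw [sub_mul]
    linarith
  · change (θ b + c * lg k n b) - (θ a + c * lg k n a) ≤ κ * ((b : ℝ) - a)
    linarith

/-! ### The tower -/

section tower

variable {m : ℕ} {S : LSys m} {Y : Type} {f : Y → ℕ → ℝ} {Λ : ℝ} {K : ℕ} {κ : ℝ}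

theorem get_eq {J : ℕ} {F : Fam m J} {w w' : ℕ} (h : w = w') {c : F.ζ → S.Cx} {k a : ℕ}
    {θ : ℕ → ℝ} {x : ℝ} (hG : S.Get F w c k a θ x) : S.Get F w' c k a θ x := by
  subst h
  exact hG

theorem STP.mono {N G G' : ℕ} {δ δ' c₀ c₀' σ σ' : ℝ} (h : δ ≤ δ') (hc : c₀ ≤ c₀') (hG : G ≤ G')
    (hσ : σ ≤ σ') (hKN : 0 < K * N) (hP : STP S f Λ K κ N G δ c₀ σ) :
    STP S f Λ K κ N G' δ' c₀' σ' := by
  intro J sh w hJ F c k a y hA θ hθ x hx
  have hKN' : (0 : ℝ) < (K * N : ℕ) := by exact_mod_cast hKN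
  have h1 : δ * ((K * N : ℕ) : ℝ) ≤ δ' * ((K * N : ℕ) : ℝ) :=
    mul_le_mul_of_nonneg_right h (Nat.cast_nonneg _)
  refine S.mono 0 (by omega) (fun g => (add_zero (θ g)).ge) ?_
    (hP J sh w hJ F c k a y hA θ (hθ.mono hσ le_rfl) x
      (S.mono 0 le_rfl (fun g => ?_) (add_zero x).le hx))
  · linarith
  · have h2 := mul_le_mul_of_nonneg_right hc (lg_nonneg (k := (k : ℝ) + a) (by positivity) hKN' g)
    linarith

/-- Two halves. -/
theorem STP.two {n G g : ℕ} {δ c₀ σ : ℝ} (hK : 1 ≤ K) (hn : 1 ≤ n) (hc : 0 ≤ c₀)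
    (hG : G ≤ 2 * g * n) (h : STP S f Λ K κ n G δ c₀ σ) :
    STP S f Λ K κ (n + n) (G + G)
      (δ + c₀ * (2 * Real.log 2 + Real.log (1 + g)) / (K * (n + n) : ℕ)) (c₀ + c₀)
      (σ + c₀ / (K * n : ℕ)) := by
  intro J sh w hJ F c k a y hA θ hθ x hx
  have hKn0 : 0 < K * n := Nat.mul_pos hK hn
  have hKn : (0 : ℝ) < ((K * n : ℕ) : ℝ) := by exact_mod_cast hKn0
  have hc' : 0 ≤ c₀ / ((K * n : ℕ) : ℝ) := by positivity
  have e1 : K * (n + n) = K * n + K * n := by ring
  have e2 : K * (sh + n) = K * n + K * sh := by ring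
  have e3 : ((K * (n + n) : ℕ) : ℝ) = 2 * (K * n : ℕ) := by
    rw [e1]
    push_cast
    ring
  have hk0 : (0 : ℝ) ≤ (k : ℝ) + a := by positivity
  have hG0 : (0 : ℝ) ≤ G := Nat.cast_nonneg G
  have hG1 : (G : ℝ) ≤ 2 * g * (K * n : ℕ) := by
    have h5 : G ≤ 2 * g * (K * n) := by
      refine hG.trans (Nat.mul_le_mul_left _ ?_)
      exact Nat.le_mul_of_pos_left _ hK
    exact_mod_cast h5
  -- the penalty after the first half
  obtain ⟨θ₁, hθ₁⟩ : ∃ θ₁ : ℕ → ℝ, θ₁ = fun j => θ j + c₀ * lg ((k : ℝ) + (a + G : ℕ)) (K * n : ℕ) j :=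
    ⟨_, rfl⟩
  have hs1 : Slp σ κ θ₁ := by
    rw [hθ₁]
    have h5 := hθ.add_lg (k := (k : ℝ) + (a + G : ℕ)) (by positivity) hKn hc
    rwa [add_sub_cancel_right] at h5
  -- the first half
  have d0 : (0 : ℝ) ≤ c₀ * (2 * Real.log 2 + Real.log (1 + g)) := by
    have h1 : 0 ≤ Real.log 2 := Real.log_nonneg (by norm_num)
    have h2 : 0 ≤ Real.log (1 + (g : ℝ)) := Real.log_nonneg (by
      have : (0 : ℝ) ≤ g := Nat.cast_nonneg g
      linarith)
    positivity
  have h3 := h J sh (w + K * n) (by omega) F c k a y (hA.mono (by omega)) θ₁ hs1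
    (x - c₀ * (2 * Real.log 2 + Real.log (1 + g)))
    (S.mono (c₀ * (2 * Real.log 2 + Real.log (1 + g))) le_rfl (fun j => by
      have p1 := mul_le_mul_of_nonneg_left (lg_half hk0 hKn j) hc
      have p2 := mul_le_mul_of_nonneg_left
        (lg_two (G := (G : ℝ)) (g := (g : ℝ)) hk0 hKn (Nat.cast_nonneg g) hG1 hG0 j) hc
      rw [hθ₁]
      have e4 : (k : ℝ) + ((a + G : ℕ) : ℝ) = k + a + G := by
        push_cast
        ring
      simp only [e4, e3]
      have e5 : c₀ * (lg ((k : ℝ) + a) (2 * (K * n : ℕ)) j + Real.log 2) =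
        c₀ * lg ((k : ℝ) + a) (2 * (K * n : ℕ)) j + c₀ * Real.log 2 := by ring
      have e6 : c₀ * (lg ((k : ℝ) + a) (2 * (K * n : ℕ)) j +
          (Real.log 2 + Real.log (1 + g))) =
        c₀ * lg ((k : ℝ) + a) (2 * (K * n : ℕ)) j + c₀ * Real.log 2 +
          c₀ * Real.log (1 + g) := by ring
      have e7 : c₀ * (2 * Real.log 2 + Real.log (1 + g)) =
        c₀ * Real.log 2 + c₀ * Real.log 2 + c₀ * Real.log (1 + g) := by ring
      rw [e5] at p1
      rw [e6] at p2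
      rw [e7, add_mul]
      linarith) (by linarith) (get_eq (by omega) hx))
  -- the second half
  have h4 := h J (sh + n) w (by omega) F c k (a + G) y (hA.mono (by omega)) θ
    (hθ.mono (by linarith) le_rfl) _ (hθ₁ ▸ h3)
  refine S.mono 0 (by omega) (fun g => (add_zero (θ g)).ge) ?_ h4
  rw [co_add]
  have e8 : (δ + c₀ * (2 * Real.log 2 + Real.log (1 + g)) / (K * (n + n) : ℕ)) *
      ((K * (n + n) : ℕ) : ℝ) = δ * (K * n : ℕ) + δ * (K * n : ℕ) +
      c₀ * (2 * Real.log 2 + Real.log (1 + g)) := by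
    have h5 : ((K * (n + n) : ℕ) : ℝ) ≠ 0 := by
      rw [e3]
      positivity
    rw [add_mul, div_mul_cancel₀ _ h5, e3]
    ring
  rw [e8]
  linarith

/-- `2 ^ j` blocks. -/
theorem stp_pow {C B σm : ℝ} (hC : 0 ≤ C) (hB : 0 ≤ B) {g : ℕ} (hL : LOCZ S κ C B σm g)
    (hΛ : 0 < Λ) (hK : 1 + Λ ≤ K) (hf : Nng f Λ K) {δ : ℝ} (hδ : 0 ≤ δ)
    (hκ : σm + 3 * (C * (1 + Λ)) / K ≤ κ)
    (hP : STP S f Λ K κ 1 g δ (C * (1 + Λ)) σm) (j : ℕ) :
    STP S f Λ K κ (2 ^ j) (g * (2 * 2 ^ j - 1))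
      (δ + (C * (1 + Λ) * (2 * Real.log 2 + Real.log (1 + g)) + B * (1 + Λ)) / K)
      (C * (1 + Λ)) (σm + 3 * (C * (1 + Λ)) / K) := by
  have hl2 : 0 < Real.log 2 := Real.log_pos (by norm_num)
  have hK0 : (0 : ℝ) < K := by linarith
  have hK1 : 1 ≤ K := by
    have : (1 : ℝ) ≤ K := by linarith
    exact_mod_cast this
  obtain ⟨P, hP0⟩ : ∃ P, P = C * (1 + Λ) := ⟨_, rfl⟩
  have hP1 : 0 ≤ P := by
    rw [hP0]
    positivity
  have hlg : 0 ≤ Real.log (1 + (g : ℝ)) := Real.log_nonneg (by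
    have : (0 : ℝ) ≤ g := Nat.cast_nonneg g
    linarith)
  obtain ⟨Q, hQ0⟩ : ∃ Q, Q = P * (2 * Real.log 2 + Real.log (1 + g)) + B * (1 + Λ) := ⟨_, rfl⟩
  have hQ1 : 0 ≤ Q := by
    rw [hQ0]
    positivity
  rw [← hP0] at hκ hP ⊢
  rw [← hQ0]
  have hh : ∀ j : ℕ, (1 : ℝ) / 2 ^ j ≤ 1 := fun j => by
    rw [div_le_one (by positivity)]
    exact one_le_pow₀ (by norm_num)
  have key : ∀ j, STP S f Λ K κ (2 ^ j) (g * (2 * 2 ^ j - 1)) (δ + Q / K * (1 - 1 / 2 ^ j)) P
      (σm + 3 * P / K * (1 - 1 / 2 ^ j)) := by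
    intro j
    induction j with
    | zero =>
      refine hP.mono ?_ le_rfl (by omega) ?_ (by omega)
      · simp
      · simp
    | succ j ih =>
      have hj1 : 1 ≤ 2 ^ j := Nat.one_le_two_pow
      have hG0 : g * (2 * 2 ^ j - 1) ≤ 2 * g * 2 ^ j := by
        calc g * (2 * 2 ^ j - 1) ≤ g * (2 * 2 ^ j) := Nat.mul_le_mul_left _ (Nat.sub_le _ _)
          _ = 2 * g * 2 ^ j := by ring
      have h0 := STP.two hK1 hj1 hP1 hG0 ih
      have hKn : (0 : ℝ) < ((K * (2 ^ j + 2 ^ j) : ℕ) : ℝ) := by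
        have : 0 < K * (2 ^ j + 2 ^ j) := Nat.mul_pos hK1 (by omega)
        exact_mod_cast this
      have e1 : ((K * (2 ^ j + 2 ^ j) : ℕ) : ℝ) = K * 2 ^ (j + 1) := by
        push_cast
        ring
      have e1' : ((K * 2 ^ j : ℕ) : ℝ) = K * 2 ^ j := by push_cast; rfl
      have h2j : (0 : ℝ) < 2 ^ j := by positivity
      have e2 : 3 * P / K * (1 - 1 / 2 ^ j) + P / ((K * 2 ^ j : ℕ) : ℝ) +
          P / ((K * (2 ^ j + 2 ^ j) : ℕ) : ℝ) = 3 * P / K * (1 - 1 / 2 ^ (j + 1)) := by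
        rw [e1, e1', pow_succ]
        field_simp
        ring
      have hd0 : 0 ≤ Q / K * (1 - 1 / 2 ^ j) :=
        mul_nonneg (by positivity) (by have := hh j; linarith)
      have hs0 : 0 ≤ 3 * P / K * (1 - 1 / 2 ^ j) :=
        mul_nonneg (by positivity) (by have := hh j; linarith)
      have h1 := hL Y f Λ hΛ K hK hf (2 ^ j + 2 ^ j) (by omega) _ _ (P + P) _
        (by positivity) (by positivity) (by rw [← hP0]; linarith)
        (by
          have : 0 ≤ P / ((K * 2 ^ j : ℕ) : ℝ) := by positivity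
          linarith) (by
          rw [← hP0]
          have h5 : 3 * P / K * (1 - 1 / 2 ^ (j + 1)) ≤ 3 * P / K := by
            have h6 : (1 : ℝ) - 1 / 2 ^ (j + 1) ≤ 1 := by
              have : (0 : ℝ) ≤ 1 / 2 ^ (j + 1) := by positivity
              linarith
            have h7 : 0 ≤ 3 * P / K := by positivity
            calc 3 * P / K * (1 - 1 / 2 ^ (j + 1)) ≤ 3 * P / K * 1 :=
                  mul_le_mul_of_nonneg_left h6 h7
              _ = _ := mul_one _
          linarith) h0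
      rw [← hP0] at h1
      have e3 : (2 : ℕ) ^ (j + 1) = 2 ^ j + 2 ^ j := by ring
      rw [e3]
      refine h1.mono ?_ le_rfl ?_ ?_ (Nat.mul_pos hK1 (by omega))
      · have e4 : Q / K * (1 - 1 / 2 ^ (j + 1)) = Q / K * (1 - 1 / 2 ^ j) +
            P * (2 * Real.log 2 + Real.log (1 + g)) / ((K * (2 ^ j + 2 ^ j) : ℕ) : ℝ) +
            B * (1 + Λ) / ((K * (2 ^ j + 2 ^ j) : ℕ) : ℝ) := by
          rw [e1, hQ0, pow_succ]
          field_simp
          ring
        have e5 : (1 : ℝ) - 1 / 2 ^ (j + 1) = 1 - 1 / 2 ^ (j + 1) := rfl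
        rw [e4]
        linarith
      · have h4 : g * (2 * 2 ^ j - 1) + g * (2 * 2 ^ j - 1) + g = g * (2 * (2 ^ j + 2 ^ j) - 1) := by
          have h5 : 2 * (2 ^ j + 2 ^ j) - 1 = (2 * 2 ^ j - 1) + (2 * 2 ^ j - 1) + 1 := by omega
          rw [h5]
          ring
        exact h4.le
      · linarith
  refine (key j).mono ?_ le_rfl le_rfl ?_ (Nat.mul_pos hK1 (by positivity))
  · have h6 : (1 : ℝ) - 1 / 2 ^ j ≤ 1 := by
      have : (0 : ℝ) ≤ 1 / 2 ^ j := by positivity
      linarith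
    have h7 : 0 ≤ Q / K := by positivity
    have h8 := mul_le_mul_of_nonneg_left h6 h7
    linarith
  · have h6 : (1 : ℝ) - 1 / 2 ^ j ≤ 1 := by
      have : (0 : ℝ) ≤ 1 / 2 ^ j := by positivity
      linarith
    have h7 : 0 ≤ 3 * P / K := by positivity
    have h8 := mul_le_mul_of_nonneg_left h6 h7
    linarith

/-- **The walk** from any window to any other, by blocks of lengths powers of two. -/
theorem stp_walk {C B σm : ℝ} (hC : 0 ≤ C) (hB : 0 ≤ B) {g : ℕ} (hL : LOCZ S κ C B σm g)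
    (hΛ : 0 < Λ) (hK : 1 + Λ ≤ K) (hf : Nng f Λ K) {δ : ℝ} (hδ : 0 ≤ δ)
    (hκ : σm + 3 * (C * (1 + Λ)) / K ≤ κ)
    (hP : STP S f Λ K κ 1 g δ (C * (1 + Λ)) σm) (b : ℕ) :
    ∀ n < 2 ^ b, ∀ (J sh w : ℕ), J = w + K * n + K * sh → ∀ (F : Fam m J) (c : F.ζ → S.Cx)
      (k a : ℕ) (y : ℕ → F.Ω → Y), Adm K (sh + n) F y → ∀ (θ : ℕ → ℝ),
      Slp (σm + 3 * (C * (1 + Λ)) / K + 2 * (C * (1 + Λ)) / K * (1 - 1 / 2 ^ b)) κ θ → ∀ x : ℝ,
      S.Get F (w + K * n) c k a θ x →
      S.Get F w c k (a + 2 * g * n) θ (x - co f Λ K n sh F y -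
        (δ + (C * (1 + Λ) * (2 * Real.log 2 + Real.log (1 + g)) + B * (1 + Λ)) / K) *
          (K * n : ℕ) -
        b * (C * (1 + Λ) * (1 + Real.log (1 + 2 * g) / Real.log 2)) *
          Real.log (k + a + (K * n : ℕ) + 2)) := by
  have hl2 : 0 < Real.log 2 := Real.log_pos (by norm_num)
  have hK0 : (0 : ℝ) < K := by linarith
  have hK1 : 1 ≤ K := by
    have : (1 : ℝ) ≤ K := by linarith
    exact_mod_cast this
  have hg0 : (0 : ℝ) ≤ g := Nat.cast_nonneg g
  have hlg : 0 ≤ Real.log (1 + 2 * (g : ℝ)) := Real.log_nonneg (by linarith)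
  have hpow := stp_pow hC hB hL hΛ hK hf hδ hκ hP
  obtain ⟨δ', hδ'⟩ : ∃ δ', δ' = δ + (C * (1 + Λ) * (2 * Real.log 2 + Real.log (1 + g)) +
    B * (1 + Λ)) / K := ⟨_, rfl⟩
  obtain ⟨P, hP0⟩ : ∃ P, P = C * (1 + Λ) := ⟨_, rfl⟩
  have hP1 : 0 ≤ P := by
    rw [hP0]
    positivity
  rw [← hδ'] at hpow ⊢
  rw [← hP0] at hpow hκ ⊢
  obtain ⟨q, hq⟩ : ∃ q, q = Real.log (1 + 2 * g) / Real.log 2 := ⟨_, rfl⟩
  have hq0 : 0 ≤ q := by
    rw [hq]
    positivity
  rw [← hq]
  have hPq : 0 ≤ P * (1 + q) := by positivity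
  induction b with
  | zero =>
    intro n hn J sh w hJ F c k a y hA θ hθ x hx
    have hn0 : n = 0 := by
      rw [pow_zero] at hn
      omega
    subst hn0
    refine S.mono 0 (by omega) (fun g => (add_zero (θ g)).ge) ?_ (get_eq (by omega) hx)
    rw [co_zero]
    push_cast
    simp
  | succ b ih =>
    intro n hn J sh w hJ F c k a y hA θ hθ x hx
    have hla : 0 ≤ Real.log (k + a + (K * n : ℕ) + 2) := Real.log_nonneg (by
      have : (0 : ℝ) ≤ (k : ℝ) + a + (K * n : ℕ) := by positivity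
      linarith)
    have hsb : 2 * P / K * (1 - 1 / 2 ^ (b + 1)) = 2 * P / K * (1 - 1 / 2 ^ b) +
        P / (K * 2 ^ b : ℕ) := by
      push_cast
      rw [pow_succ]
      field_simp
      ring
    have hPb : 0 ≤ P / ((K * 2 ^ b : ℕ) : ℝ) := by positivity
    by_cases hb : n < 2 ^ b
    · refine S.mono 0 le_rfl (fun g => (add_zero (θ g)).ge) ?_
        (ih n hb J sh w hJ F c k a y hA θ (hθ.mono (by linarith) le_rfl) x hx)
      have h1 := mul_nonneg hPq hla
      have e5 : ((b + 1 : ℕ) : ℝ) * (P * (1 + q)) * Real.log (k + a + (K * n : ℕ) + 2) =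
          (b : ℝ) * (P * (1 + q)) * Real.log (k + a + (K * n : ℕ) + 2) +
          P * (1 + q) * Real.log (k + a + (K * n : ℕ) + 2) := by
        rw [Nat.cast_succ]
        ring
      rw [e5]
      linarith
    · push Not at hb
      obtain ⟨n', rfl⟩ := Nat.exists_eq_add_of_le hb
      have hn' : n' < 2 ^ b := by
        rw [pow_succ] at hn
        omega
      have hKb : (0 : ℝ) < ((K * 2 ^ b : ℕ) : ℝ) := by
        have : 0 < K * 2 ^ b := Nat.mul_pos hK1 (by positivity)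
        exact_mod_cast this
      have hKb1 : (1 : ℝ) ≤ ((K * 2 ^ b : ℕ) : ℝ) := by
        have : 1 ≤ K * 2 ^ b := Nat.mul_pos hK1 (by positivity)
        exact_mod_cast this
      have e1 : K * (2 ^ b + n') = K * 2 ^ b + K * n' := by ring
      have e2 : K * (sh + n') = K * n' + K * sh := by ring
      obtain ⟨θ₁, hθ₁⟩ : ∃ θ₁ : ℕ → ℝ,
        θ₁ = fun j => θ j + P * lg ((k : ℝ) + (a + 2 * g * n' : ℕ)) (K * 2 ^ b : ℕ) j := ⟨_, rfl⟩
      have hs1 : Slp (σm + 3 * P / K + 2 * P / K * (1 - 1 / 2 ^ b)) κ θ₁ := by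
        rw [hθ₁]
        have h5 := hθ.add_lg (k := (k : ℝ) + (a + 2 * g * n' : ℕ)) (by positivity) hKb hP1
        refine h5.mono ?_ le_rfl
        linarith
      have h3 := ih n' hn' J sh (w + K * 2 ^ b) (by omega) F c k a y (hA.mono (by omega)) θ₁ hs1
        (x - P * Real.log ((k : ℝ) + (a + 2 * g * n' : ℕ) + 2))
        (S.mono (P * Real.log ((k : ℝ) + (a + 2 * g * n' : ℕ) + 2)) le_rfl (fun j => by
          have p1 := mul_le_mul_of_nonneg_left
            (lg_le (k := (k : ℝ) + (a + 2 * g * n' : ℕ)) (by positivity) hKb1 j) hP1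
          rw [hθ₁]
          linarith) (by linarith) (get_eq (by omega) hx))
      have h4 := hpow b J (sh + n') w (by omega) F c k (a + 2 * g * n') y (hA.mono (by omega)) θ
        (hθ.mono (by
          have h6 : 0 ≤ 2 * P / K * (1 - 1 / 2 ^ (b + 1)) := by
            refine mul_nonneg (by positivity) ?_
            have : (1 : ℝ) / 2 ^ (b + 1) ≤ 1 := by
              rw [div_le_one (by positivity)]
              exact one_le_pow₀ (by norm_num)
            linarith
          linarith) le_rfl) _ (hθ₁ ▸ h3)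
      refine S.mono 0 ?_ (fun g => (add_zero (θ g)).ge) ?_ h4
      · have h5 : g * (2 * 2 ^ b - 1) ≤ 2 * g * 2 ^ b := by
          calc g * (2 * 2 ^ b - 1) ≤ g * (2 * 2 ^ b) := Nat.mul_le_mul_left _ (Nat.sub_le _ _)
            _ = 2 * g * 2 ^ b := by ring
        have h6 : 2 * g * (2 ^ b + n') = 2 * g * 2 ^ b + 2 * g * n' := by ring
        omega
      · have hcc : co f Λ K (2 ^ b + n') sh F y =
            co f Λ K n' sh F y + co f Λ K (2 ^ b) (sh + n') F y := by
          rw [add_comm (2 ^ b) n']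
          exact co_add n' (2 ^ b) sh F y
        rw [hcc]
        have hk0 : (0 : ℝ) ≤ k := Nat.cast_nonneg k
        have ha0 : (0 : ℝ) ≤ a := Nat.cast_nonneg a
        have e3 : ((K * (2 ^ b + n') : ℕ) : ℝ) = (K * 2 ^ b : ℕ) + (K * n' : ℕ) := by
          rw [e1]
          push_cast
          ring
        have hX : Real.log 2 ≤ Real.log (k + a + (K * (2 ^ b + n') : ℕ) + 2) := by
          refine Real.log_le_log (by norm_num) ?_
          have : (0 : ℝ) ≤ (k : ℝ) + a + (K * (2 ^ b + n') : ℕ) := by positivity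
          linarith
        have l1 : Real.log (k + a + (K * n' : ℕ) + 2) ≤
            Real.log (k + a + (K * (2 ^ b + n') : ℕ) + 2) := by
          refine Real.log_le_log (by positivity) ?_
          rw [e3]
          linarith
        have l2 : Real.log ((k : ℝ) + (a + 2 * g * n' : ℕ) + 2) ≤
            (1 + q) * Real.log (k + a + (K * (2 ^ b + n') : ℕ) + 2) := by
          have h5 : Real.log (1 + 2 * (g : ℝ)) ≤
              q * Real.log (k + a + (K * (2 ^ b + n') : ℕ) + 2) := by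
            have h6 : Real.log (1 + 2 * (g : ℝ)) = q * Real.log 2 := by
              rw [hq]
              field_simp
            rw [h6]
            exact mul_le_mul_of_nonneg_left hX hq0
          have h7 : Real.log ((k : ℝ) + (a + 2 * g * n' : ℕ) + 2) ≤
              Real.log (k + a + (K * (2 ^ b + n') : ℕ) + 2) + Real.log (1 + 2 * g) := by
            rw [← Real.log_mul (by positivity) (by positivity)]
            refine Real.log_le_log (by positivity) ?_
            have hn0 : (n' : ℝ) ≤ (K * n' : ℕ) := by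
              have : n' ≤ K * n' := Nat.le_mul_of_pos_left _ hK1
              exact_mod_cast this
            have q0 := mul_le_mul_of_nonneg_left hn0 hg0
            have q1 := mul_nonneg hg0 hk0
            have q2 := mul_nonneg hg0 ha0
            have q3 := mul_nonneg hg0 hKb.le
            have q4 : ((k : ℝ) + a + (K * (2 ^ b + n') : ℕ) + 2) * (1 + 2 * g) =
              k + a + (K * 2 ^ b : ℕ) + (K * n' : ℕ) + 2 + 2 * (g * k) + 2 * (g * a) +
              2 * (g * (K * 2 ^ b : ℕ)) + 2 * (g * (K * n' : ℕ)) + 4 * g := by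
              rw [e3]
              ring
            have q5 : ((a + 2 * g * n' : ℕ) : ℝ) = a + 2 * (g * n') := by
              push_cast
              ring
            rw [q4, q5]
            have : (0 : ℝ) ≤ ((K * n' : ℕ) : ℝ) := Nat.cast_nonneg _
            linarith
          linarith
        have m1 := mul_le_mul_of_nonneg_left l1 (show 0 ≤ (b : ℝ) * (P * (1 + q)) by positivity)
        have m2 := mul_le_mul_of_nonneg_left l2 hP1
        have e4 : ((b + 1 : ℕ) : ℝ) * (P * (1 + q)) *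
            Real.log (k + a + (K * (2 ^ b + n') : ℕ) + 2) =
            (b : ℝ) * (P * (1 + q)) * Real.log (k + a + (K * (2 ^ b + n') : ℕ) + 2) +
            P * ((1 + q) * Real.log (k + a + (K * (2 ^ b + n') : ℕ) + 2)) := by
          push_cast
          ring
        rw [e4, e3]
        rw [e3] at m1 m2
        rw [mul_add δ']
        linarith

end tower

end Pool.KN2
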