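import Pool.Agent.H15.KN.Cst

/-!
# The tower and the walk for an abstract class of labels with an age and a range

`LSys.Get F w c k a θ x`: the family `F` has a label at the window `w`, inside the coarse cell
given by `c`, whose potential minus the penalty `θ` of its age and of its range is at least `x`.
The age of a label is the number of digits of the time between the window and the sub-window on
which its cells live (it is bounded by `k`); the range is the size of the label against the coarse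
cell; `a` is the slack.
-/

set_option autoImplicit false

namespace Pool.KN3

open Finset Real
open Pool.Agent.H49.Ent Pool.Agent.H32.Dense Pool.STK Pool.KA
open Pool.KM7 (Nng)
open Pool.KN (co co_add co_zero co_nonneg co_cst Adm Adm.mono)

/-- An abstract class of labels. -/
structure LSys (m : ℕ) where
  /-- the coarse cells -/
  Cx : Type
  /-- `c` is a cell of a window with at most `w` digits -/
  Cw : Cx → ℕ → Prop
  Cw_mono : ∀ {c : Cx} {w w' : ℕ}, w ≤ w' → Cw c w → Cw c w'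
  /-- some label at the window `w`, with the bound `k` of the age and the slack `a`, has potential
  at least `x` more than the penalty `θ` of its age and of its range -/
  Get : ∀ {J : ℕ} (F : Fam m J) (_w : ℕ) (_c : F.ζ → Cx) (_k _a : ℕ) (_θ : ℕ → ℕ → ℝ)
    (_x : ℝ), Prop
  mono : ∀ {J : ℕ} {F : Fam m J} {w : ℕ} {c : F.ζ → Cx} {k a a' : ℕ} {θ θ' : ℕ → ℕ → ℝ}
    {x x' : ℝ} (d : ℝ), a ≤ a' → (∀ g r, θ' g r ≤ θ g r + d) → x' + d ≤ x →
    Get F w c k a θ x → Get F w c k a' θ' x'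

/-- The slopes of the penalty: between `σ` and `κ` in the age, between `0` and `ς` in the
range. -/
structure Slp (σ κ ς : ℝ) (θ : ℕ → ℕ → ℝ) : Prop where
  age : ∀ a b r : ℕ, a ≤ b → σ * ((b : ℝ) - a) ≤ θ b r - θ a r ∧
    θ b r - θ a r ≤ κ * ((b : ℝ) - a)
  rng : ∀ g r s : ℕ, r ≤ s → 0 ≤ θ g s - θ g r ∧ θ g s - θ g r ≤ ς * ((s : ℝ) - r)

/-- The loss of a block of `n` digits for a label of age `g` and range `r`. -/
noncomputable def lg (k n : ℝ) (g r : ℕ) : ℝ := Real.log (2 + (k + r) / (n + g))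

section

variable {m : ℕ} (S : LSys m) {Y : Type} (f : Y → ℕ → ℝ) (Λ : ℝ) (K : ℕ) (κ : ℝ)

/-- **`N` blocks lose at most their cost, `δ` for each digit, and
`c₀ log (2 + (k + range) / (K N + age))`**; the slack grows by `G`. -/
def STP (N G : ℕ) (δ c₀ σ ς : ℝ) : Prop :=
  ∀ (J sh w : ℕ), J = w + K * N + K * sh → ∀ (F : Fam m J) (c : F.ζ → S.Cx),
    (∀ ω, 0 < F.p ω → S.Cw (c (F.Z ω)) w) → ∀ (k a : ℕ)
    (y : ℕ → F.Ω → Y), Adm K (sh + N) F y → ∀ (θ : ℕ → ℕ → ℝ), Slp σ κ ς θ → ∀ x : ℝ,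
      S.Get F (w + K * N) c k a (fun g r => θ g r + c₀ * lg k (K * N : ℕ) g r) x →
      S.Get F w c k (a + G) θ (x - co f Λ K N sh F y - δ * (K * N : ℕ))

/-- **(LOCALIZE)** The loss `c₀ log (2 + (k + range) / (K N + age))` of the local problems
becomes `C (1 + Λ) log (2 + (k + range) / (K N + age))`, and a constant. -/
def LOCZ (C B C₂ σm : ℝ) (g : ℕ) : Prop :=
  ∀ (Y : Type) (f : Y → ℕ → ℝ) (Λ : ℝ), 0 < Λ → ∀ K : ℕ, C₂ * (1 + Λ) ≤ K → 1 ≤ K → Nng f Λ K →
    ∀ N : ℕ, 1 ≤ N → ∀ (G : ℕ) (δ c₀ σ ς : ℝ), 0 ≤ δ → 0 ≤ c₀ → c₀ ≤ 3 * (C * (1 + Λ)) →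
    σm ≤ σ → σ + C₂ * (1 + Λ) / (K * N : ℕ) ≤ κ → 0 ≤ ς → ς ≤ C * (1 + Λ) / (K * N : ℕ) →
    STP S f Λ K κ N G δ c₀ σ ς →
      STP S f Λ K κ N (G + g) (δ + B * (1 + Λ) / (K * N : ℕ)) (C * (1 + Λ))
        (σ + C₂ * (1 + Λ) / (K * N : ℕ)) ς

end

/-! ### The penalty -/

theorem Slp.mono {σ σ' κ κ' ς ς' : ℝ} {θ : ℕ → ℕ → ℝ} (h : Slp σ κ ς θ) (h1 : σ' ≤ σ)
    (h2 : κ ≤ κ') (h3 : ς ≤ ς') : Slp σ' κ' ς' θ := by
  refine ⟨fun a b r hab => ?_, fun g r s hrs => ?_⟩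
  · have h3 : (0 : ℝ) ≤ (b : ℝ) - a := by
      have : (a : ℝ) ≤ b := by exact_mod_cast hab
      linarith
    obtain ⟨h4, h5⟩ := h.age a b r hab
    exact ⟨(mul_le_mul_of_nonneg_right h1 h3).trans h4,
      h5.trans (mul_le_mul_of_nonneg_right h2 h3)⟩
  · have h4 : (0 : ℝ) ≤ (s : ℝ) - r := by
      have : (r : ℝ) ≤ s := by exact_mod_cast hrs
      linarith
    obtain ⟨h5, h6⟩ := h.rng g r s hrs
    exact ⟨h5, h6.trans (mul_le_mul_of_nonneg_right h3 h4)⟩

theorem Slp.lin {σ κ ω : ℝ} (h1 : σ ≤ ω) (h2 : ω ≤ κ) : Slp σ κ 0 (fun g _ => ω * (g : ℝ)) := by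
  refine ⟨fun a b r hab => ?_, fun g r s _ => by simp⟩
  have h3 : (0 : ℝ) ≤ (b : ℝ) - a := by
    have : (a : ℝ) ≤ b := by exact_mod_cast hab
    linarith
  have e : ω * (b : ℝ) - ω * a = ω * ((b : ℝ) - a) := by ring
  simp only [e]
  exact ⟨mul_le_mul_of_nonneg_right h1 h3, mul_le_mul_of_nonneg_right h2 h3⟩

section lg

variable {k n : ℝ} {a b : ℕ}

theorem lg_nonneg (hk : 0 ≤ k) (hn : 0 < n) (a r : ℕ) : 0 ≤ lg k n a r := by
  refine Real.log_nonneg ?_
  have : 0 ≤ (k + r) / (n + a) := by positivity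
  linarith

theorem lg_anti (hk : 0 ≤ k) (hn : 0 < n) (hab : a ≤ b) (r : ℕ) : lg k n b r ≤ lg k n a r := by
  have h1 : (a : ℝ) ≤ b := by exact_mod_cast hab
  have h2 : 0 ≤ (k + r) / (n + b) := by positivity
  refine Real.log_le_log (by linarith) ?_
  have h3 : (k + r) / (n + b) ≤ (k + r) / (n + a) :=
    div_le_div_of_nonneg_left (by positivity) (by positivity) (by linarith)
  linarith

/-- The slopes of the loss in the age are between `-1/n` and `0`. -/
theorem lg_slope (hk : 0 ≤ k) (hn : 0 < n) (hab : a ≤ b) (r : ℕ) :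
    lg k n a r - lg k n b r ≤ ((b : ℝ) - a) / n := by
  have h1 : (a : ℝ) ≤ b := by exact_mod_cast hab
  have ha0 : (0 : ℝ) ≤ a := Nat.cast_nonneg a
  have hna : 0 < n + a := by linarith
  have hnb : 0 < n + b := by linarith
  have h2 : 0 ≤ (k + r) / (n + b) := by positivity
  have h2' : 0 ≤ (k + r) / (n + a) := by positivity
  have hkr : 0 ≤ k + r := by positivity
  unfold lg
  rw [← Real.log_div (by linarith) (by linarith)]
  have h3 : (2 + (k + r) / (n + a)) / (2 + (k + r) / (n + b)) ≤ (n + b) / (n + a) := by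
    rw [div_le_div_iff₀ (by linarith) hna]
    have e1 : (2 + (k + r) / (n + a)) * (n + a) = 2 * (n + a) + (k + r) := by field_simp
    have e2 : (n + b) * (2 + (k + r) / (n + b)) = 2 * (n + b) + (k + r) := by field_simp
    rw [e1, e2]
    linarith
  have h4 : 0 < (2 + (k + r) / (n + a)) / (2 + (k + r) / (n + b)) := by positivity
  have h5 : (n + b) / (n + a) - 1 ≤ ((b : ℝ) - a) / n := by
    have e : (n + b) / (n + a) - 1 = ((b : ℝ) - a) / (n + a) := by
      field_simp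
      ring
    rw [e]
    exact div_le_div_of_nonneg_left (by linarith) hn (by linarith)
  have h6 := Real.log_le_sub_one_of_pos h4
  linarith

theorem lg_rmono (hk : 0 ≤ k) (hn : 0 < n) (g : ℕ) {r s : ℕ} (hrs : r ≤ s) :
    lg k n g r ≤ lg k n g s := by
  have h1 : (r : ℝ) ≤ s := by exact_mod_cast hrs
  have h2 : 0 ≤ (k + r) / (n + g) := by positivity
  refine Real.log_le_log (by linarith) ?_
  have h3 : (k + r) / (n + g) ≤ (k + s) / (n + g) :=
    div_le_div_of_nonneg_right (by linarith) (by positivity)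
  linarith

/-- The slopes of the loss in the range are between `0` and `1/(2 n)`. -/
theorem lg_rslope (hk : 0 ≤ k) (hn : 0 < n) (g : ℕ) {r s : ℕ} (hrs : r ≤ s) :
    lg k n g s - lg k n g r ≤ 1 / (2 * n) * ((s : ℝ) - r) := by
  have h1 : (r : ℝ) ≤ s := by exact_mod_cast hrs
  have hg0 : (0 : ℝ) ≤ g := Nat.cast_nonneg g
  have hng : 0 < n + g := by linarith
  have h2 : 0 ≤ (k + r) / (n + g) := by positivity
  have h2' : 0 ≤ (k + s) / (n + g) := by positivity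
  unfold lg
  rw [← Real.log_div (by linarith) (by linarith)]
  have h4 : 0 < (2 + (k + s) / (n + g)) / (2 + (k + r) / (n + g)) := by positivity
  have h5 : (2 + (k + s) / (n + g)) / (2 + (k + r) / (n + g)) - 1 ≤
      1 / (2 * n) * ((s : ℝ) - r) := by
    have e : (2 + (k + s) / (n + g)) / (2 + (k + r) / (n + g)) - 1 =
        (((s : ℝ) - r) / (n + g)) / (2 + (k + r) / (n + g)) := by
      rw [div_sub_one (by linarith)]
      congr 1
      ring
    rw [e]
    have h6 : ((s : ℝ) - r) / (n + g) ≤ ((s : ℝ) - r) / n :=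
      div_le_div_of_nonneg_left (by linarith) hn (by linarith)
    have h7 : 0 ≤ ((s : ℝ) - r) / (n + g) := div_nonneg (by linarith) hng.le
    calc (((s : ℝ) - r) / (n + g)) / (2 + (k + r) / (n + g)) ≤ (((s : ℝ) - r) / (n + g)) / 2 :=
          div_le_div_of_nonneg_left h7 (by norm_num) (by linarith)
      _ ≤ (((s : ℝ) - r) / n) / 2 := div_le_div_of_nonneg_right h6 (by norm_num)
      _ = 1 / (2 * n) * ((s : ℝ) - r) := by field_simp
  have h6 := Real.log_le_sub_one_of_pos h4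
  linarith

theorem lg_nmono (hk : 0 ≤ k) (hn : 0 < n) {n' : ℝ} (hnn : n ≤ n') (g r : ℕ) :
    lg k n' g r ≤ lg k n g r := by
  have hg0 : (0 : ℝ) ≤ g := Nat.cast_nonneg g
  have h2 : 0 ≤ (k + r) / (n' + g) := div_nonneg (by positivity) (by linarith)
  refine Real.log_le_log (by linarith) ?_
  have h3 : (k + r) / (n' + g) ≤ (k + r) / (n + g) :=
    div_le_div_of_nonneg_left (by positivity) (by positivity) (by linarith)
  linarith

theorem lg_le (hk : 0 ≤ k) (hn : 1 ≤ n) (g r : ℕ) : lg k n g r ≤ Real.log (k + r + 2) := by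
  have ha0 : (0 : ℝ) ≤ g := Nat.cast_nonneg g
  have hkr : 0 ≤ k + r := by positivity
  have h2 : 0 ≤ (k + r) / (n + g) := by positivity
  refine Real.log_le_log (by linarith) ?_
  have h3 : (k + r) / (n + g) ≤ k + r := div_le_self hkr (by linarith)
  linarith

/-- Half of the block. -/
theorem lg_half (hk : 0 ≤ k) (hn : 0 < n) (g r : ℕ) :
    lg k n g r ≤ lg k (2 * n) g r + Real.log 2 := by
  have hg0 : (0 : ℝ) ≤ g := Nat.cast_nonneg g
  have hng : 0 < n + g := by linarith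
  have h2ng : 0 < 2 * n + g := by linarith
  have hkr : 0 ≤ k + r := by positivity
  have h2 : 0 ≤ (k + r) / (2 * n + g) := by positivity
  unfold lg
  rw [← Real.log_mul (by positivity) (by positivity)]
  refine Real.log_le_log (by positivity) ?_
  have h3 : (k + r) / (n + g) ≤ 2 * ((k + r) / (2 * n + g)) := by
    rw [← mul_div_assoc, div_le_div_iff₀ hng h2ng]
    nlinarith
  linarith

end lg

theorem Slp.add_lg {σ κ ς : ℝ} {θ : ℕ → ℕ → ℝ} (h : Slp σ κ ς θ) {k n c : ℝ} (hk : 0 ≤ k)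
    (hn : 0 < n) (hc : 0 ≤ c) :
    Slp (σ - c / n) κ (ς + c / (2 * n)) (fun g r => θ g r + c * lg k n g r) := by
  refine ⟨fun a b r hab => ?_, fun g r s hrs => ?_⟩
  · obtain ⟨h1, h2⟩ := h.age a b r hab
    have h3 := mul_le_mul_of_nonneg_left (lg_slope hk hn hab r) hc
    have h4 := mul_le_mul_of_nonneg_left (lg_anti hk hn hab r) hc
    have e1 : c * (((b : ℝ) - a) / n) = c / n * ((b : ℝ) - a) := by ring
    rw [e1] at h3
    constructor
    · rw [sub_mul]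
      linarith
    · linarith
  · obtain ⟨h1, h2⟩ := h.rng g r s hrs
    have h3 := mul_le_mul_of_nonneg_left (lg_rslope hk hn g hrs) hc
    have h4 := mul_le_mul_of_nonneg_left (lg_rmono hk hn g hrs) hc
    have e1 : c * (1 / (2 * n) * ((s : ℝ) - r)) = c / (2 * n) * ((s : ℝ) - r) := by ring
    rw [e1] at h3
    constructor
    · linarith
    · rw [add_mul]
      linarith

/-! ### The tower -/

section tower

variable {m : ℕ} {S : LSys m} {Y : Type} {f : Y → ℕ → ℝ} {Λ : ℝ} {K : ℕ} {κ : ℝ}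

theorem get_eq {J : ℕ} {F : Fam m J} {w w' : ℕ} (h : w = w') {c : F.ζ → S.Cx} {k a : ℕ}
    {θ : ℕ → ℕ → ℝ} {x : ℝ} (hG : S.Get F w c k a θ x) : S.Get F w' c k a θ x := by
  subst h
  exact hG

theorem STP.mono {N G G' : ℕ} {δ δ' c₀ c₀' σ σ' ς ς' : ℝ} (h : δ ≤ δ') (hc : c₀ ≤ c₀')
    (hG : G ≤ G') (hσ : σ ≤ σ') (hς : ς' ≤ ς) (hKN : 0 < K * N)
    (hP : STP S f Λ K κ N G δ c₀ σ ς) : STP S f Λ K κ N G' δ' c₀' σ' ς' := by
  intro J sh w hJ F c hcw k a y hA θ hθ x hx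
  have hKN' : (0 : ℝ) < (K * N : ℕ) := by exact_mod_cast hKN
  have h1 : δ * ((K * N : ℕ) : ℝ) ≤ δ' * ((K * N : ℕ) : ℝ) :=
    mul_le_mul_of_nonneg_right h (Nat.cast_nonneg _)
  refine S.mono 0 (by omega) (fun g r => (add_zero (θ g r)).ge) ?_
    (hP J sh w hJ F c hcw k a y hA θ (hθ.mono hσ le_rfl hς) x
      (S.mono 0 le_rfl (fun g r => ?_) (add_zero x).le hx))
  · linarith
  · have h2 := mul_le_mul_of_nonneg_right hc (lg_nonneg (k := (k : ℝ)) (Nat.cast_nonneg k) hKN' g r)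
    linarith

/-- Two halves. -/
theorem STP.two {n G : ℕ} {δ c₀ σ ς : ℝ} (hK : 1 ≤ K) (hn : 1 ≤ n) (hc : 0 ≤ c₀)
    (h : STP S f Λ K κ n G δ c₀ σ (ς + c₀ / (2 * (K * n : ℕ)))) :
    STP S f Λ K κ (n + n) (G + G) (δ + c₀ * (2 * Real.log 2) / (K * (n + n) : ℕ)) (c₀ + c₀)
      (σ + c₀ / (K * n : ℕ)) ς := by
  intro J sh w hJ F c hcw k a y hA θ hθ x hx
  have hKn0 : 0 < K * n := Nat.mul_pos hK hn
  have hKn : (0 : ℝ) < ((K * n : ℕ) : ℝ) := by exact_mod_cast hKn0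
  have hc' : 0 ≤ c₀ / ((K * n : ℕ) : ℝ) := by positivity
  have e1 : K * (n + n) = K * n + K * n := by ring
  have e2 : K * (sh + n) = K * n + K * sh := by ring
  have e3 : ((K * (n + n) : ℕ) : ℝ) = 2 * (K * n : ℕ) := by
    rw [e1]
    push_cast
    ring
  have hk0 : (0 : ℝ) ≤ (k : ℝ) := by positivity
  -- the penalty after the first half
  obtain ⟨θ₁, hθ₁⟩ : ∃ θ₁ : ℕ → ℕ → ℝ, θ₁ = fun g r => θ g r + c₀ * lg k (K * n : ℕ) g r :=
    ⟨_, rfl⟩
  have hs1 : Slp σ κ (ς + c₀ / (2 * (K * n : ℕ))) θ₁ := by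
    rw [hθ₁]
    have h5 := hθ.add_lg (k := (k : ℝ)) hk0 hKn hc
    rwa [add_sub_cancel_right] at h5
  -- the first half
  have h3 := h J sh (w + K * n) (by omega) F c (fun ω hω => S.Cw_mono (Nat.le_add_right _ _)
      (hcw ω hω)) k a y (hA.mono (by omega)) θ₁ hs1
    (x - c₀ * (2 * Real.log 2))
    (S.mono (c₀ * (2 * Real.log 2)) le_rfl (fun g r => by
      have p1 := mul_le_mul_of_nonneg_left (lg_half hk0 hKn g r) hc
      rw [hθ₁]
      simp only [e3]
      have e5 : c₀ * (lg (k : ℝ) (2 * (K * n : ℕ)) g r + Real.log 2) =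
        c₀ * lg (k : ℝ) (2 * (K * n : ℕ)) g r + c₀ * Real.log 2 := by ring
      have e7 : c₀ * (2 * Real.log 2) = c₀ * Real.log 2 + c₀ * Real.log 2 := by ring
      rw [e5] at p1
      rw [e7, add_mul]
      linarith) (by linarith) (get_eq (by omega) hx))
  -- the second half
  have hς' : 0 ≤ c₀ / (2 * ((K * n : ℕ) : ℝ)) := by positivity
  have h4 := h J (sh + n) w (by omega) F c hcw k (a + G) y (hA.mono (by omega)) θ
    (hθ.mono (by linarith) le_rfl (by linarith)) _ (hθ₁ ▸ h3)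
  refine S.mono 0 (by omega) (fun g r => (add_zero (θ g r)).ge) ?_ h4
  rw [co_add]
  have e8 : (δ + c₀ * (2 * Real.log 2) / (K * (n + n) : ℕ)) *
      ((K * (n + n) : ℕ) : ℝ) = δ * (K * n : ℕ) + δ * (K * n : ℕ) +
      c₀ * (2 * Real.log 2) := by
    have h5 : ((K * (n + n) : ℕ) : ℝ) ≠ 0 := by
      rw [e3]
      positivity
    rw [add_mul, div_mul_cancel₀ _ h5, e3]
    ring
  rw [e8]
  linarith

/-- `2 ^ j` blocks. -/
theorem stp_pow {C B C₂ σm : ℝ} (hC : 0 ≤ C) (hB : 0 ≤ B) (hC₂ : 0 ≤ C₂) {g : ℕ}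
    (hL : LOCZ S κ C B C₂ σm g)
    (hΛ : 0 < Λ) (hK : C₂ * (1 + Λ) ≤ K) (hK1 : 1 ≤ K) (hf : Nng f Λ K) {δ : ℝ} (hδ : 0 ≤ δ)
    (hκ : σm + (2 * C + C₂) * (1 + Λ) / K ≤ κ)
    (hP : STP S f Λ K κ 1 g δ (C * (1 + Λ)) σm (C * (1 + Λ) / K)) (j : ℕ) :
    STP S f Λ K κ (2 ^ j) (g * (2 * 2 ^ j - 1))
      (δ + (2 * C * Real.log 2 + B) * (1 + Λ) / K)
      (C * (1 + Λ)) (σm + (2 * C + C₂) * (1 + Λ) / K) (C * (1 + Λ) / (K * 2 ^ j)) := by
  have hl2 : 0 < Real.log 2 := Real.log_pos (by norm_num)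
  have hK0 : (0 : ℝ) < K := by exact_mod_cast hK1
  obtain ⟨P, hP0⟩ : ∃ P, P = C * (1 + Λ) := ⟨_, rfl⟩
  obtain ⟨P₂, hP2⟩ : ∃ P₂, P₂ = C₂ * (1 + Λ) := ⟨_, rfl⟩
  have hP1 : 0 ≤ P := by
    rw [hP0]
    positivity
  have hP21 : 0 ≤ P₂ := by
    rw [hP2]
    positivity
  obtain ⟨Q, hQ0⟩ : ∃ Q, Q = P * (2 * Real.log 2) + B * (1 + Λ) := ⟨_, rfl⟩
  have hQ1 : 0 ≤ Q := by
    rw [hQ0]
    positivity
  obtain ⟨R, hR0⟩ : ∃ R, R = 2 * P + P₂ := ⟨_, rfl⟩
  have hR1 : 0 ≤ R := by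
    rw [hR0]
    positivity
  have eQ : (2 * C * Real.log 2 + B) * (1 + Λ) = Q := by
    rw [hQ0, hP0]
    ring
  have eR : (2 * C + C₂) * (1 + Λ) = R := by
    rw [hR0, hP0, hP2]
    ring
  rw [eR] at hκ ⊢
  rw [← hP0] at hP ⊢
  rw [eQ]
  have hh : ∀ j : ℕ, (1 : ℝ) / 2 ^ j ≤ 1 := fun j => by
    rw [div_le_one (by positivity)]
    exact one_le_pow₀ (by norm_num)
  have key : ∀ j, STP S f Λ K κ (2 ^ j) (g * (2 * 2 ^ j - 1)) (δ + Q / K * (1 - 1 / 2 ^ j)) P
      (σm + R / K * (1 - 1 / 2 ^ j)) (P / (K * 2 ^ j)) := by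
    intro j
    induction j with
    | zero =>
      refine hP.mono ?_ le_rfl (by omega) ?_ ?_ (by omega)
      · simp
      · simp
      · simp
    | succ j ih =>
      have hj1 : 1 ≤ 2 ^ j := Nat.one_le_two_pow
      have hKn : (0 : ℝ) < ((K * (2 ^ j + 2 ^ j) : ℕ) : ℝ) := by
        have : 0 < K * (2 ^ j + 2 ^ j) := Nat.mul_pos hK1 (by omega)
        exact_mod_cast this
      have e1 : ((K * (2 ^ j + 2 ^ j) : ℕ) : ℝ) = K * 2 ^ (j + 1) := by
        push_cast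
        ring
      have e1' : ((K * 2 ^ j : ℕ) : ℝ) = K * 2 ^ j := by push_cast; rfl
      have h2j : (0 : ℝ) < 2 ^ j := by positivity
      have hς0 : 0 ≤ P / (K * 2 ^ (j + 1)) := by positivity
      have e6 : P / (K * 2 ^ j) = P / (K * 2 ^ (j + 1)) + P / (2 * ((K * 2 ^ j : ℕ) : ℝ)) := by
        rw [e1', pow_succ]
        field_simp
        ring
      rw [e6] at ih
      have h0 := STP.two hK1 hj1 hP1 ih
      have e2 : R / K * (1 - 1 / 2 ^ j) + P / ((K * 2 ^ j : ℕ) : ℝ) +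
          P₂ / ((K * (2 ^ j + 2 ^ j) : ℕ) : ℝ) = R / K * (1 - 1 / 2 ^ (j + 1)) := by
        rw [e1, e1', hR0, pow_succ]
        field_simp
        ring
      have hd0 : 0 ≤ Q / K * (1 - 1 / 2 ^ j) :=
        mul_nonneg (by positivity) (by have := hh j; linarith)
      have hs0 : 0 ≤ R / K * (1 - 1 / 2 ^ j) :=
        mul_nonneg (by positivity) (by have := hh j; linarith)
      have h1 := hL Y f Λ hΛ K hK hK1 hf (2 ^ j + 2 ^ j) (by omega) _ _ (P + P) _ _
        (by positivity) (by positivity) (by rw [← hP0]; linarith)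
        (by
          have : 0 ≤ P / ((K * 2 ^ j : ℕ) : ℝ) := by positivity
          linarith) (by
          rw [← hP2]
          have h5 : R / K * (1 - 1 / 2 ^ (j + 1)) ≤ R / K := by
            have h6 : (1 : ℝ) - 1 / 2 ^ (j + 1) ≤ 1 := by
              have : (0 : ℝ) ≤ 1 / 2 ^ (j + 1) := by positivity
              linarith
            have h7 : 0 ≤ R / K := by positivity
            calc R / K * (1 - 1 / 2 ^ (j + 1)) ≤ R / K * 1 :=
                  mul_le_mul_of_nonneg_left h6 h7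
              _ = _ := mul_one _
          linarith) hς0 (by rw [← hP0, e1]) h0
      rw [← hP0, ← hP2] at h1
      have e3 : (2 : ℕ) ^ (j + 1) = 2 ^ j + 2 ^ j := by ring
      rw [e3]
      refine h1.mono ?_ le_rfl ?_ ?_ le_rfl (Nat.mul_pos hK1 (by omega))
      · have e4 : Q / K * (1 - 1 / 2 ^ (j + 1)) = Q / K * (1 - 1 / 2 ^ j) +
            P * (2 * Real.log 2) / ((K * (2 ^ j + 2 ^ j) : ℕ) : ℝ) +
            B * (1 + Λ) / ((K * (2 ^ j + 2 ^ j) : ℕ) : ℝ) := by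
          rw [e1, hQ0, pow_succ]
          field_simp
          ring
        rw [e4]
        linarith
      · have h4 : g * (2 * 2 ^ j - 1) + g * (2 * 2 ^ j - 1) + g = g * (2 * (2 ^ j + 2 ^ j) - 1) := by
          have h5 : 2 * (2 ^ j + 2 ^ j) - 1 = (2 * 2 ^ j - 1) + (2 * 2 ^ j - 1) + 1 := by omega
          rw [h5]
          ring
        exact h4.le
      · linarith
  refine (key j).mono ?_ le_rfl le_rfl ?_ le_rfl (Nat.mul_pos hK1 (by positivity))
  · have h6 : (1 : ℝ) - 1 / 2 ^ j ≤ 1 := by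
      have : (0 : ℝ) ≤ 1 / 2 ^ j := by positivity
      linarith
    have h7 : 0 ≤ Q / K := by positivity
    have h8 := mul_le_mul_of_nonneg_left h6 h7
    linarith
  · have h6 : (1 : ℝ) - 1 / 2 ^ j ≤ 1 := by
      have : (0 : ℝ) ≤ 1 / 2 ^ j := by positivity
      linarith
    have h7 : 0 ≤ R / K := by positivity
    have h8 := mul_le_mul_of_nonneg_left h6 h7
    linarith

/-- **The walk** from any window to any other, by blocks of lengths powers of two. -/
theorem stp_walk {C B C₂ σm : ℝ} (hC : 0 ≤ C) (hB : 0 ≤ B) (hC₂ : 0 ≤ C₂) {g : ℕ}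
    (hL : LOCZ S κ C B C₂ σm g)
    (hΛ : 0 < Λ) (hK : C₂ * (1 + Λ) ≤ K) (hK1 : 1 ≤ K) (hf : Nng f Λ K) {δ : ℝ} (hδ : 0 ≤ δ)
    (hκ : σm + (2 * C + C₂) * (1 + Λ) / K ≤ κ)
    (hP : STP S f Λ K κ 1 g δ (C * (1 + Λ)) σm (C * (1 + Λ) / K)) (b : ℕ) :
    ∀ n < 2 ^ b, ∀ (J sh w : ℕ), J = w + K * n + K * sh → ∀ (F : Fam m J) (c : F.ζ → S.Cx),
      (∀ ω, 0 < F.p ω → S.Cw (c (F.Z ω)) w) → ∀
      (k a : ℕ) (y : ℕ → F.Ω → Y), Adm K (sh + n) F y → ∀ (θ : ℕ → ℕ → ℝ),
      Slp (σm + (2 * C + C₂) * (1 + Λ) / K + 2 * (C * (1 + Λ)) / K * (1 - 1 / 2 ^ b)) κ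
        (C * (1 + Λ) / (K * 2 ^ b)) θ → ∀ x : ℝ,
      S.Get F (w + K * n) c k a (fun g r => θ g r + b * (C * (1 + Λ)) * lg k K g r) x →
      S.Get F w c k (a + 2 * g * n) θ (x - co f Λ K n sh F y -
        (δ + (2 * C * Real.log 2 + B) * (1 + Λ) / K) * (K * n : ℕ)) := by
  have hl2 : 0 < Real.log 2 := Real.log_pos (by norm_num)
  have hK0 : (0 : ℝ) < K := by exact_mod_cast hK1
  have hK1' : (1 : ℝ) ≤ K := by exact_mod_cast hK1
  have hpow := stp_pow hC hB hC₂ hL hΛ hK hK1 hf hδ hκ hP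
  obtain ⟨δ', hδ'⟩ : ∃ δ', δ' = δ + (2 * C * Real.log 2 + B) * (1 + Λ) / K := ⟨_, rfl⟩
  obtain ⟨P, hP0⟩ : ∃ P, P = C * (1 + Λ) := ⟨_, rfl⟩
  have hP1 : 0 ≤ P := by
    rw [hP0]
    positivity
  obtain ⟨σ', hσ'⟩ : ∃ σ', σ' = σm + (2 * C + C₂) * (1 + Λ) / K := ⟨_, rfl⟩
  rw [← hδ', ← hP0, ← hσ'] at hpow
  rw [← hδ', ← hP0, ← hσ']
  induction b with
  | zero =>
    intro n hn J sh w hJ F c hcw k a y hA θ hθ x hx
    have hn0 : n = 0 := by
      rw [pow_zero] at hn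
      omega
    subst hn0
    refine S.mono 0 (by omega) (fun g r => ?_) ?_ (get_eq (by omega) hx)
    · simp
    · rw [co_zero]
      push_cast
      simp
  | succ b ih =>
    intro n hn J sh w hJ F c hcw k a y hA θ hθ x hx
    have hk0 : (0 : ℝ) ≤ k := Nat.cast_nonneg k
    have hsb : 2 * P / K * (1 - 1 / 2 ^ (b + 1)) = 2 * P / K * (1 - 1 / 2 ^ b) +
        P / (K * 2 ^ b : ℕ) := by
      push_cast
      rw [pow_succ]
      field_simp
      ring
    have hPb : 0 ≤ P / ((K * 2 ^ b : ℕ) : ℝ) := by positivity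
    have hςb : P / (K * 2 ^ (b + 1)) + P / (2 * ((K * 2 ^ b : ℕ) : ℝ)) = P / (K * 2 ^ b) := by
      push_cast
      rw [pow_succ]
      field_simp
      ring
    have hς2 : 0 ≤ P / (2 * ((K * 2 ^ b : ℕ) : ℝ)) := by positivity
    have hbP : (0 : ℝ) ≤ b * P := by positivity
    have e9 : ∀ g r : ℕ, ((b + 1 : ℕ) : ℝ) * P * lg k K g r =
        b * P * lg k K g r + P * lg k K g r := fun g r => by
      rw [Nat.cast_succ]
      ring
    by_cases hb : n < 2 ^ b
    · refine ih n hb J sh w hJ F c hcw k a y hA θ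
        (hθ.mono (by linarith) le_rfl (by linarith)) x
        (S.mono 0 le_rfl (fun g r => ?_) (add_zero x).le hx)
      have h1 := mul_nonneg hP1 (lg_nonneg hk0 hK0 g r)
      rw [e9]
      linarith
    · push Not at hb
      obtain ⟨n', rfl⟩ := Nat.exists_eq_add_of_le hb
      have hn' : n' < 2 ^ b := by
        rw [pow_succ] at hn
        omega
      have hKb : (0 : ℝ) < ((K * 2 ^ b : ℕ) : ℝ) := by
        have : 0 < K * 2 ^ b := Nat.mul_pos hK1 (by positivity)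
        exact_mod_cast this
      have hKKb : (K : ℝ) ≤ ((K * 2 ^ b : ℕ) : ℝ) := by
        have : K ≤ K * 2 ^ b := Nat.le_mul_of_pos_right _ (by positivity)
        exact_mod_cast this
      have e1 : K * (2 ^ b + n') = K * 2 ^ b + K * n' := by ring
      have e2 : K * (sh + n') = K * n' + K * sh := by ring
      obtain ⟨θ₁, hθ₁⟩ : ∃ θ₁ : ℕ → ℕ → ℝ,
        θ₁ = fun g r => θ g r + P * lg k (K * 2 ^ b : ℕ) g r := ⟨_, rfl⟩
      have hs1 : Slp (σ' + 2 * P / K * (1 - 1 / 2 ^ b)) κ (P / (K * 2 ^ b)) θ₁ := by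
        rw [hθ₁]
        have h5 := hθ.add_lg (k := (k : ℝ)) hk0 hKb hP1
        refine h5.mono ?_ le_rfl ?_
        · linarith
        · linarith
      have h3 := ih n' hn' J sh (w + K * 2 ^ b) (by omega) F c
        (fun ω hω => S.Cw_mono (Nat.le_add_right _ _) (hcw ω hω)) k a y (hA.mono (by omega)) θ₁ hs1
        x (S.mono 0 le_rfl (fun g r => by
          have p1 := mul_le_mul_of_nonneg_left (lg_nmono hk0 hK0 hKKb g r) hP1
          rw [hθ₁, e9]
          linarith) (add_zero x).le (get_eq (by omega) hx))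
      have hσb : 0 ≤ 2 * P / K * (1 - 1 / 2 ^ (b + 1)) := by
        refine mul_nonneg (by positivity) ?_
        have : (1 : ℝ) / 2 ^ (b + 1) ≤ 1 := by
          rw [div_le_one (by positivity)]
          exact one_le_pow₀ (by norm_num)
        linarith
      have h4 := hpow b J (sh + n') w (by omega) F c hcw k (a + 2 * g * n') y
        (hA.mono (by omega)) θ (hθ.mono (by linarith) le_rfl (by linarith)) _ (hθ₁ ▸ h3)
      refine S.mono 0 ?_ (fun g r => (add_zero (θ g r)).ge) ?_ h4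
      · have h5 : g * (2 * 2 ^ b - 1) ≤ 2 * g * 2 ^ b := by
          calc g * (2 * 2 ^ b - 1) ≤ g * (2 * 2 ^ b) := Nat.mul_le_mul_left _ (Nat.sub_le _ _)
            _ = 2 * g * 2 ^ b := by ring
        have h6 : 2 * g * (2 ^ b + n') = 2 * g * 2 ^ b + 2 * g * n' := by ring
        omega
      · have hcc : co f Λ K (2 ^ b + n') sh F y =
            co f Λ K n' sh F y + co f Λ K (2 ^ b) (sh + n') F y := by
          rw [add_comm (2 ^ b) n']
          exact co_add n' (2 ^ b) sh F y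
        have e3 : ((K * (2 ^ b + n') : ℕ) : ℝ) = (K * 2 ^ b : ℕ) + (K * n' : ℕ) := by
          rw [e1]
          push_cast
          ring
        rw [hcc, e3, mul_add δ']
        linarith

end tower

end Pool.KN3
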