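import Pool.Agent.H15.KN.Cst

/-!
# The tower and the walk for an abstract class of labels with penalties

`LSys.Get F w c k a θ x`: the family `F` has a label at the window `w`, inside the coarse cell
given by `c`, whose potential minus the penalty `θ` (a function of the side information and of the
value of the label) is at least `x`. The age of a label is the number of digits of the time between
the window and the sub-window on which its cells live (it is bounded by `k`); `a` is the slack;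
`lgv n k c v` is the length of the codes of a block of `n` digits for the label `v` in the coarse
cell `c`.
-/

set_option autoImplicit false

namespace Pool.KN4

open Finset Real
open Pool.Agent.H49.Ent Pool.Agent.H32.Dense Pool.STK Pool.KA
open Pool.KM7 (Nng)
open Pool.KN (co co_add co_zero co_nonneg co_cst Adm Adm.mono)

/-- An abstract class of labels. -/
structure LSys (m : ℕ) where
  /-- the coarse cells -/
  Cx : Type
  /-- the values of the labels -/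
  V : Type
  /-- the age -/
  age : V → ℕ
  /-- `c` is a cell of a window with at most `w` digits -/
  Cw : Cx → ℕ → Prop
  Cw_mono : ∀ {c : Cx} {w w' : ℕ}, w ≤ w' → Cw c w → Cw c w'
  /-- the penalties: slope in the age between `σ` and `κ`, in the range at most `ς` -/
  Pen : (_σ _κ _ς : ℝ) → (V → ℝ) → Prop
  Pen_mono : ∀ {σ σ' κ κ' ς ς' : ℝ} {θ : V → ℝ}, σ' ≤ σ → κ ≤ κ' → ς ≤ ς' → Pen σ κ ς θ →
    Pen σ' κ' ς' θ
  Pen_lin : ∀ {σ κ ω : ℝ}, 0 ≤ σ → σ ≤ ω → ω ≤ κ → Pen σ κ 0 (fun v => ω * (age v : ℝ))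
  /-- the length of the codes of a block of `n` digits -/
  lgv : (_n : ℝ) → (_k : ℕ) → Cx → V → ℝ
  lgv_nonneg : ∀ {n : ℝ} {k : ℕ} {c : Cx} {v : V}, 1 ≤ n → 0 ≤ lgv n k c v
  lgv_anti : ∀ {n n' : ℝ} {k : ℕ} {c : Cx} {v : V}, 1 ≤ n → n ≤ n' → lgv n' k c v ≤ lgv n k c v
  lgv_half : ∀ {n : ℝ} {k : ℕ} {c : Cx} {v : V}, 1 ≤ n →
    lgv n k c v ≤ lgv (2 * n) k c v + Real.log 2
  Pen_add : ∀ {σ κ ς : ℝ} {θ : V → ℝ}, Pen σ κ ς θ → ∀ {n c₀ : ℝ} (k : ℕ) (c : Cx), 1 ≤ n →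
    0 ≤ c₀ → Pen (σ - c₀ / n) κ (ς + c₀ / n) (fun v => θ v + c₀ * lgv n k c v)
  /-- some label at the window `w`, with the bound `k` of the age and the slack `a`, has potential
  at least `x` more than the penalty `θ` -/
  Get : ∀ {J : ℕ} (F : Fam m J) (_w : ℕ) (_c : F.ζ → Cx) (_k _a : ℕ) (_θ : F.ζ → V → ℝ)
    (_x : ℝ), Prop
  mono : ∀ {J : ℕ} {F : Fam m J} {w : ℕ} {c : F.ζ → Cx} {k a a' : ℕ} {θ θ' : F.ζ → V → ℝ}
    {x x' : ℝ} (d : ℝ), a ≤ a' → (∀ z v, θ' z v ≤ θ z v + d) → x' + d ≤ x →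
    Get F w c k a θ x → Get F w c k a' θ' x'

section

variable {m : ℕ} (S : LSys m) {Y : Type} (f : Y → ℕ → ℝ) (Λ : ℝ) (K : ℕ) (κ : ℝ)

/-- **`N` blocks lose at most their cost, `δ` for each digit, and `c₀ lgv`**; the slack grows
by `G`. -/
def STP (N G : ℕ) (δ c₀ σ ς : ℝ) : Prop :=
  ∀ (J sh w : ℕ), J = w + K * N + K * sh → ∀ (F : Fam m J) (c : F.ζ → S.Cx),
    (∀ ω, 0 < F.p ω → S.Cw (c (F.Z ω)) w) → ∀ (k a : ℕ)
    (y : ℕ → F.Ω → Y), Adm K (sh + N) F y → ∀ (θ : F.ζ → S.V → ℝ), (∀ z, S.Pen σ κ ς (θ z)) →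
    ∀ x : ℝ,
      S.Get F (w + K * N) c k a (fun z v => θ z v + c₀ * S.lgv (K * N : ℕ) k (c z) v) x →
      S.Get F w c k (a + G) θ (x - co f Λ K N sh F y - δ * (K * N : ℕ))

/-- **(LOCALIZE)** The loss `c₀ lgv` of the local problems becomes `C (1 + Λ) lgv`, and a
constant. -/
def LOCZ (C B C₂ σm : ℝ) (g : ℕ) : Prop :=
  ∀ (Y : Type) (f : Y → ℕ → ℝ) (Λ : ℝ), 0 < Λ → ∀ K : ℕ, C₂ * (1 + Λ) ≤ K → 1 ≤ K → Nng f Λ K →
    ∀ N : ℕ, 1 ≤ N → ∀ (G : ℕ) (δ c₀ σ ς : ℝ), 0 ≤ δ → 0 ≤ c₀ → c₀ ≤ 3 * (C * (1 + Λ)) →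
    σm ≤ σ → σ + C * (1 + Λ) / (K * N : ℕ) ≤ κ → 0 ≤ ς → ς ≤ 2 * (C * (1 + Λ)) / K →
    STP S f Λ K κ N G δ c₀ σ ς →
      STP S f Λ K κ N (G + g) (δ + B * (1 + Λ) / (K * N : ℕ)) (C * (1 + Λ))
        (σ + C * (1 + Λ) / (K * N : ℕ)) ς

end

/-! ### The tower -/

section tower

variable {m : ℕ} {S : LSys m} {Y : Type} {f : Y → ℕ → ℝ} {Λ : ℝ} {K : ℕ} {κ : ℝ}

theorem get_eq {J : ℕ} {F : Fam m J} {w w' : ℕ} (h : w = w') {c : F.ζ → S.Cx} {k a : ℕ}
    {θ : F.ζ → S.V → ℝ} {x : ℝ} (hG : S.Get F w c k a θ x) : S.Get F w' c k a θ x := by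
  subst h
  exact hG

theorem STP.mono {N G G' : ℕ} {δ δ' c₀ c₀' σ σ' ς ς' : ℝ} (h : δ ≤ δ') (hc : c₀ ≤ c₀')
    (hG : G ≤ G') (hσ : σ ≤ σ') (hς : ς' ≤ ς) (hKN : 1 ≤ K * N)
    (hP : STP S f Λ K κ N G δ c₀ σ ς) : STP S f Λ K κ N G' δ' c₀' σ' ς' := by
  intro J sh w hJ F c hcw k a y hA θ hθ x hx
  have hKN' : (1 : ℝ) ≤ (K * N : ℕ) := by exact_mod_cast hKN
  have h1 : δ * ((K * N : ℕ) : ℝ) ≤ δ' * ((K * N : ℕ) : ℝ) :=
    mul_le_mul_of_nonneg_right h (Nat.cast_nonneg _)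
  refine S.mono 0 (by omega) (fun z v => (add_zero (θ z v)).ge) ?_
    (hP J sh w hJ F c hcw k a y hA θ (fun z => S.Pen_mono hσ le_rfl hς (hθ z)) x
      (S.mono 0 le_rfl (fun z v => ?_) (add_zero x).le hx))
  · linarith
  · have h2 := mul_le_mul_of_nonneg_right hc (S.lgv_nonneg (k := k) (c := c z) (v := v) hKN')
    linarith

/-- Two halves. -/
theorem STP.two {n G : ℕ} {δ c₀ σ ς : ℝ} (hK : 1 ≤ K) (hn : 1 ≤ n) (hc : 0 ≤ c₀)
    (h : STP S f Λ K κ n G δ c₀ σ (ς + c₀ / (K * n : ℕ))) :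
    STP S f Λ K κ (n + n) (G + G) (δ + c₀ * (2 * Real.log 2) / (K * (n + n) : ℕ)) (c₀ + c₀)
      (σ + c₀ / (K * n : ℕ)) ς := by
  intro J sh w hJ F c hcw k a y hA θ hθ x hx
  have hKn1 : 1 ≤ K * n := Nat.mul_pos hK hn
  have hKn : (1 : ℝ) ≤ ((K * n : ℕ) : ℝ) := by exact_mod_cast hKn1
  have hKn0 : (0 : ℝ) < ((K * n : ℕ) : ℝ) := by linarith
  have hc' : 0 ≤ c₀ / ((K * n : ℕ) : ℝ) := by positivity
  have e1 : K * (n + n) = K * n + K * n := by ring
  have e2 : K * (sh + n) = K * n + K * sh := by ring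
  have e3 : ((K * (n + n) : ℕ) : ℝ) = 2 * (K * n : ℕ) := by
    rw [e1]
    push_cast
    ring
  -- the penalty after the first half
  obtain ⟨θ₁, hθ₁⟩ : ∃ θ₁ : F.ζ → S.V → ℝ,
    θ₁ = fun z v => θ z v + c₀ * S.lgv (K * n : ℕ) k (c z) v := ⟨_, rfl⟩
  have hs1 : ∀ z, S.Pen σ κ (ς + c₀ / (K * n : ℕ)) (θ₁ z) := by
    intro z
    rw [hθ₁]
    have h5 := S.Pen_add (hθ z) k (c z) hKn hc
    rwa [add_sub_cancel_right] at h5
  -- the first half
  have h3 := h J sh (w + K * n) (by omega) F c (fun ω hω => S.Cw_mono (Nat.le_add_right _ _)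
      (hcw ω hω)) k a y (hA.mono (by omega)) θ₁ hs1
    (x - c₀ * (2 * Real.log 2))
    (S.mono (c₀ * (2 * Real.log 2)) le_rfl (fun z v => by
      have p1 := mul_le_mul_of_nonneg_left (S.lgv_half (k := k) (c := c z) (v := v) hKn) hc
      rw [hθ₁]
      simp only [e3]
      have e5 : c₀ * (S.lgv (2 * (K * n : ℕ)) k (c z) v + Real.log 2) =
        c₀ * S.lgv (2 * (K * n : ℕ)) k (c z) v + c₀ * Real.log 2 := by ring
      have e7 : c₀ * (2 * Real.log 2) = c₀ * Real.log 2 + c₀ * Real.log 2 := by ring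
      rw [e5] at p1
      rw [e7, add_mul]
      linarith) (by linarith) (get_eq (by omega) hx))
  -- the second half
  have h4 := h J (sh + n) w (by omega) F c hcw k (a + G) y (hA.mono (by omega)) θ
    (fun z => S.Pen_mono (by linarith) le_rfl (by linarith) (hθ z)) _ (hθ₁ ▸ h3)
  refine S.mono 0 (by omega) (fun z v => (add_zero (θ z v)).ge) ?_ h4
  rw [co_add]
  have e8 : (δ + c₀ * (2 * Real.log 2) / (K * (n + n) : ℕ)) *
      ((K * (n + n) : ℕ) : ℝ) = δ * (K * n : ℕ) + δ * (K * n : ℕ) +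
      c₀ * (2 * Real.log 2) := by
    have h5 : ((K * (n + n) : ℕ) : ℝ) ≠ 0 := by
      rw [e3]
      positivity
    rw [add_mul, div_mul_cancel₀ _ h5, e3]
    ring
  rw [e8]
  linarith

/-- `2 ^ j` blocks. -/
theorem stp_pow {C B C₂ σm : ℝ} (hC : 0 ≤ C) (hB : 0 ≤ B) {g : ℕ}
    (hL : LOCZ S κ C B C₂ σm g)
    (hΛ : 0 < Λ) (hK : C₂ * (1 + Λ) ≤ K) (hK1 : 1 ≤ K) (hf : Nng f Λ K) {δ : ℝ} (hδ : 0 ≤ δ)
    (hκ : σm + 3 * C * (1 + Λ) / K ≤ κ)
    (hP : STP S f Λ K κ 1 g δ (C * (1 + Λ)) σm (2 * (C * (1 + Λ)) / K)) (j : ℕ) :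
    STP S f Λ K κ (2 ^ j) (g * (2 * 2 ^ j - 1))
      (δ + (2 * C * Real.log 2 + B) * (1 + Λ) / K)
      (C * (1 + Λ)) (σm + 3 * C * (1 + Λ) / K) (2 * (C * (1 + Λ)) / (K * 2 ^ j)) := by
  have hl2 : 0 < Real.log 2 := Real.log_pos (by norm_num)
  have hK0 : (0 : ℝ) < K := by exact_mod_cast hK1
  obtain ⟨P, hP0⟩ : ∃ P, P = C * (1 + Λ) := ⟨_, rfl⟩
  have hP1 : 0 ≤ P := by
    rw [hP0]
    positivity
  obtain ⟨Q, hQ0⟩ : ∃ Q, Q = P * (2 * Real.log 2) + B * (1 + Λ) := ⟨_, rfl⟩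
  have hQ1 : 0 ≤ Q := by
    rw [hQ0]
    positivity
  obtain ⟨R, hR0⟩ : ∃ R, R = 3 * P := ⟨_, rfl⟩
  have hR1 : 0 ≤ R := by
    rw [hR0]
    positivity
  have eQ : (2 * C * Real.log 2 + B) * (1 + Λ) = Q := by
    rw [hQ0, hP0]
    ring
  have eR : 3 * C * (1 + Λ) = R := by
    rw [hR0, hP0]
    ring
  rw [eR] at hκ ⊢
  rw [← hP0] at hP ⊢
  rw [eQ]
  have hh : ∀ j : ℕ, (1 : ℝ) / 2 ^ j ≤ 1 := fun j => by
    rw [div_le_one (by positivity)]
    exact one_le_pow₀ (by norm_num)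
  have key : ∀ j, STP S f Λ K κ (2 ^ j) (g * (2 * 2 ^ j - 1)) (δ + Q / K * (1 - 1 / 2 ^ j)) P
      (σm + R / K * (1 - 1 / 2 ^ j)) (2 * P / (K * 2 ^ j)) := by
    intro j
    induction j with
    | zero =>
      refine hP.mono ?_ le_rfl (by omega) ?_ ?_ (by omega)
      · simp
      · simp
      · simp
    | succ j ih =>
      have hj1 : 1 ≤ 2 ^ j := Nat.one_le_two_pow
      have hKn : (0 : ℝ) < ((K * (2 ^ j + 2 ^ j) : ℕ) : ℝ) := by
        have : 0 < K * (2 ^ j + 2 ^ j) := Nat.mul_pos hK1 (by omega)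
        exact_mod_cast this
      have e1 : ((K * (2 ^ j + 2 ^ j) : ℕ) : ℝ) = K * 2 ^ (j + 1) := by
        push_cast
        ring
      have e1' : ((K * 2 ^ j : ℕ) : ℝ) = K * 2 ^ j := by push_cast; rfl
      have h2j : (0 : ℝ) < 2 ^ j := by positivity
      have hς0 : 0 ≤ 2 * P / (K * 2 ^ (j + 1)) := by positivity
      have hς1 : 2 * P / (K * 2 ^ (j + 1)) ≤ 2 * P / K := by
        refine div_le_div_of_nonneg_left (by positivity) hK0 ?_
        have : (1 : ℝ) ≤ 2 ^ (j + 1) := one_le_pow₀ (by norm_num)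
        nlinarith
      have e6 : 2 * P / (K * 2 ^ j) = 2 * P / (K * 2 ^ (j + 1)) + P / ((K * 2 ^ j : ℕ) : ℝ) := by
        rw [e1', pow_succ]
        field_simp
        ring
      rw [e6] at ih
      have h0 := STP.two hK1 hj1 hP1 ih
      have e2 : R / K * (1 - 1 / 2 ^ j) + P / ((K * 2 ^ j : ℕ) : ℝ) +
          P / ((K * (2 ^ j + 2 ^ j) : ℕ) : ℝ) = R / K * (1 - 1 / 2 ^ (j + 1)) := by
        rw [e1, e1', hR0, pow_succ]
        field_simp
        ring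
      have hd0 : 0 ≤ Q / K * (1 - 1 / 2 ^ j) :=
        mul_nonneg (by positivity) (by have := hh j; linarith)
      have hs0 : 0 ≤ R / K * (1 - 1 / 2 ^ j) :=
        mul_nonneg (by positivity) (by have := hh j; linarith)
      have h1 := hL Y f Λ hΛ K hK hK1 hf (2 ^ j + 2 ^ j) (by omega) _ _ (P + P) _ _
        (by positivity) (by positivity) (by rw [← hP0]; linarith)
        (by
          have : 0 ≤ P / ((K * 2 ^ j : ℕ) : ℝ) := by positivity
          linarith) (by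
          rw [← hP0]
          have h5 : R / K * (1 - 1 / 2 ^ (j + 1)) ≤ R / K := by
            have h6 : (1 : ℝ) - 1 / 2 ^ (j + 1) ≤ 1 := by
              have : (0 : ℝ) ≤ 1 / 2 ^ (j + 1) := by positivity
              linarith
            have h7 : 0 ≤ R / K := by positivity
            calc R / K * (1 - 1 / 2 ^ (j + 1)) ≤ R / K * 1 :=
                  mul_le_mul_of_nonneg_left h6 h7
              _ = _ := mul_one _
          linarith) hς0 (by rw [← hP0]; exact hς1) h0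
      rw [← hP0] at h1
      have e3 : (2 : ℕ) ^ (j + 1) = 2 ^ j + 2 ^ j := by ring
      rw [e3]
      refine h1.mono ?_ le_rfl ?_ ?_ le_rfl (Nat.mul_pos hK1 (by omega))
      · have e4 : Q / K * (1 - 1 / 2 ^ (j + 1)) = Q / K * (1 - 1 / 2 ^ j) +
            P * (2 * Real.log 2) / ((K * (2 ^ j + 2 ^ j) : ℕ) : ℝ) +
            B * (1 + Λ) / ((K * (2 ^ j + 2 ^ j) : ℕ) : ℝ) := by
          rw [e1, hQ0, pow_succ]
          field_simp
          ring
        rw [e4]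
        linarith
      · have h4 : g * (2 * 2 ^ j - 1) + g * (2 * 2 ^ j - 1) + g = g * (2 * (2 ^ j + 2 ^ j) - 1) := by
          have h5 : 2 * (2 ^ j + 2 ^ j) - 1 = (2 * 2 ^ j - 1) + (2 * 2 ^ j - 1) + 1 := by omega
          rw [h5]
          ring
        exact h4.le
      · linarith
  refine (key j).mono ?_ le_rfl le_rfl ?_ le_rfl (Nat.mul_pos hK1 (by positivity))
  · have h6 : (1 : ℝ) - 1 / 2 ^ j ≤ 1 := by
      have : (0 : ℝ) ≤ 1 / 2 ^ j := by positivity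
      linarith
    have h7 : 0 ≤ Q / K := by positivity
    have h8 := mul_le_mul_of_nonneg_left h6 h7
    linarith
  · have h6 : (1 : ℝ) - 1 / 2 ^ j ≤ 1 := by
      have : (0 : ℝ) ≤ 1 / 2 ^ j := by positivity
      linarith
    have h7 : 0 ≤ R / K := by positivity
    have h8 := mul_le_mul_of_nonneg_left h6 h7
    linarith

/-- **The walk** from any window to any other, by blocks of lengths powers of two. -/
theorem stp_walk {C B C₂ σm : ℝ} (hC : 0 ≤ C) (hB : 0 ≤ B) {g : ℕ}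
    (hL : LOCZ S κ C B C₂ σm g)
    (hΛ : 0 < Λ) (hK : C₂ * (1 + Λ) ≤ K) (hK1 : 1 ≤ K) (hf : Nng f Λ K) {δ : ℝ} (hδ : 0 ≤ δ)
    (hκ : σm + 3 * C * (1 + Λ) / K ≤ κ)
    (hP : STP S f Λ K κ 1 g δ (C * (1 + Λ)) σm (2 * (C * (1 + Λ)) / K)) (b : ℕ) :
    ∀ n < 2 ^ b, ∀ (J sh w : ℕ), J = w + K * n + K * sh → ∀ (F : Fam m J) (c : F.ζ → S.Cx),
      (∀ ω, 0 < F.p ω → S.Cw (c (F.Z ω)) w) → ∀
      (k a : ℕ) (y : ℕ → F.Ω → Y), Adm K (sh + n) F y → ∀ (θ : F.ζ → S.V → ℝ),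
      (∀ z, S.Pen (σm + 3 * C * (1 + Λ) / K + 2 * (C * (1 + Λ)) / K * (1 - 1 / 2 ^ b)) κ
        (2 * (C * (1 + Λ)) / (K * 2 ^ b)) (θ z)) → ∀ x : ℝ,
      S.Get F (w + K * n) c k a
        (fun z v => θ z v + b * (C * (1 + Λ)) * S.lgv K k (c z) v) x →
      S.Get F w c k (a + 2 * g * n) θ (x - co f Λ K n sh F y -
        (δ + (2 * C * Real.log 2 + B) * (1 + Λ) / K) * (K * n : ℕ)) := by
  have hl2 : 0 < Real.log 2 := Real.log_pos (by norm_num)
  have hK0 : (0 : ℝ) < K := by exact_mod_cast hK1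
  have hK1' : (1 : ℝ) ≤ K := by exact_mod_cast hK1
  have hpow := stp_pow hC hB hL hΛ hK hK1 hf hδ hκ hP
  obtain ⟨δ', hδ'⟩ : ∃ δ', δ' = δ + (2 * C * Real.log 2 + B) * (1 + Λ) / K := ⟨_, rfl⟩
  obtain ⟨P, hP0⟩ : ∃ P, P = C * (1 + Λ) := ⟨_, rfl⟩
  have hP1 : 0 ≤ P := by
    rw [hP0]
    positivity
  obtain ⟨σ', hσ'⟩ : ∃ σ', σ' = σm + 3 * C * (1 + Λ) / K := ⟨_, rfl⟩
  rw [← hδ', ← hP0, ← hσ'] at hpow
  rw [← hδ', ← hP0, ← hσ']
  induction b with
  | zero =>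
    intro n hn J sh w hJ F c hcw k a y hA θ hθ x hx
    have hn0 : n = 0 := by
      rw [pow_zero] at hn
      omega
    subst hn0
    refine S.mono 0 (by omega) (fun z v => ?_) ?_ (get_eq (by omega) hx)
    · simp
    · rw [co_zero]
      push_cast
      simp
  | succ b ih =>
    intro n hn J sh w hJ F c hcw k a y hA θ hθ x hx
    have hsb : 2 * P / K * (1 - 1 / 2 ^ (b + 1)) = 2 * P / K * (1 - 1 / 2 ^ b) +
        P / (K * 2 ^ b : ℕ) := by
      push_cast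
      rw [pow_succ]
      field_simp
      ring
    have hPb : 0 ≤ P / ((K * 2 ^ b : ℕ) : ℝ) := by positivity
    have hςb : 2 * P / (K * 2 ^ (b + 1)) + P / ((K * 2 ^ b : ℕ) : ℝ) = 2 * P / (K * 2 ^ b) := by
      push_cast
      rw [pow_succ]
      field_simp
      ring
    have e9 : ∀ (c : S.Cx) (v : S.V), ((b + 1 : ℕ) : ℝ) * P * S.lgv K k c v =
        b * P * S.lgv K k c v + P * S.lgv K k c v := fun c v => by
      rw [Nat.cast_succ]
      ring
    by_cases hb : n < 2 ^ b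
    · refine ih n hb J sh w hJ F c hcw k a y hA θ
        (fun z => S.Pen_mono (by linarith) le_rfl (by linarith) (hθ z)) x
        (S.mono 0 le_rfl (fun z v => ?_) (add_zero x).le hx)
      have h1 := mul_nonneg hP1 (S.lgv_nonneg (k := k) (c := c z) (v := v) hK1')
      rw [e9]
      linarith
    · push Not at hb
      obtain ⟨n', rfl⟩ := Nat.exists_eq_add_of_le hb
      have hn' : n' < 2 ^ b := by
        rw [pow_succ] at hn
        omega
      have hKb : (1 : ℝ) ≤ ((K * 2 ^ b : ℕ) : ℝ) := by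
        have : 1 ≤ K * 2 ^ b := Nat.mul_pos hK1 (by positivity)
        exact_mod_cast this
      have hKKb : (K : ℝ) ≤ ((K * 2 ^ b : ℕ) : ℝ) := by
        have : K ≤ K * 2 ^ b := Nat.le_mul_of_pos_right _ (by positivity)
        exact_mod_cast this
      have e1 : K * (2 ^ b + n') = K * 2 ^ b + K * n' := by ring
      have e2 : K * (sh + n') = K * n' + K * sh := by ring
      obtain ⟨θ₁, hθ₁⟩ : ∃ θ₁ : F.ζ → S.V → ℝ,
        θ₁ = fun z v => θ z v + P * S.lgv (K * 2 ^ b : ℕ) k (c z) v := ⟨_, rfl⟩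
      have hs1 : ∀ z, S.Pen (σ' + 2 * P / K * (1 - 1 / 2 ^ b)) κ (2 * P / (K * 2 ^ b))
          (θ₁ z) := by
        intro z
        rw [hθ₁]
        refine S.Pen_mono ?_ le_rfl ?_ (S.Pen_add (hθ z) k (c z) hKb hP1)
        · linarith
        · linarith
      have h3 := ih n' hn' J sh (w + K * 2 ^ b) (by omega) F c
        (fun ω hω => S.Cw_mono (Nat.le_add_right _ _) (hcw ω hω)) k a y (hA.mono (by omega)) θ₁ hs1
        x (S.mono 0 le_rfl (fun z v => by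
          have p1 := mul_le_mul_of_nonneg_left
            (S.lgv_anti (k := k) (c := c z) (v := v) hK1' hKKb) hP1
          rw [hθ₁, e9]
          linarith) (add_zero x).le (get_eq (by omega) hx))
      have hσb : 0 ≤ 2 * P / K * (1 - 1 / 2 ^ (b + 1)) := by
        refine mul_nonneg (by positivity) ?_
        have : (1 : ℝ) / 2 ^ (b + 1) ≤ 1 := by
          rw [div_le_one (by positivity)]
          exact one_le_pow₀ (by norm_num)
        linarith
      have h4 := hpow b J (sh + n') w (by omega) F c hcw k (a + 2 * g * n') y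
        (hA.mono (by omega)) θ (fun z => S.Pen_mono (by linarith) le_rfl (by linarith) (hθ z)) _
        (hθ₁ ▸ h3)
      refine S.mono 0 ?_ (fun z v => (add_zero (θ z v)).ge) ?_ h4
      · have h5 : g * (2 * 2 ^ b - 1) ≤ 2 * g * 2 ^ b := by
          calc g * (2 * 2 ^ b - 1) ≤ g * (2 * 2 ^ b) := Nat.mul_le_mul_left _ (Nat.sub_le _ _)
            _ = 2 * g * 2 ^ b := by ring
        have h6 : 2 * g * (2 ^ b + n') = 2 * g * 2 ^ b + 2 * g * n' := by ring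
        omega
      · have hcc : co f Λ K (2 ^ b + n') sh F y =
            co f Λ K n' sh F y + co f Λ K (2 ^ b) (sh + n') F y := by
          rw [add_comm (2 ^ b) n']
          exact co_add n' (2 ^ b) sh F y
        have e3 : ((K * (2 ^ b + n') : ℕ) : ℝ) = (K * 2 ^ b : ℕ) + (K * n' : ℕ) := by
          rw [e1]
          push_cast
          ring
        rw [hcc, e3, mul_add δ']
        linarith

end tower

end Pool.KN4
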