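import Pool.Agent.H96.KN.Tow
import Pool.Agent.H15.KN.Walk

/-!
# From a class of labels with an age and localisation to the bound by the cost of the times
-/

set_option autoImplicit false

namespace Pool.KN2

open Finset Real
open Pool.Agent.H49.Ent Pool.Agent.H32.Dense Pool.STK Pool.KA
open Pool.KM7 (Nng)
open Pool.KN (co co_add co_zero co_nonneg co_cst Adm Adm.mono fN nng_fN Bd BNStmt log_le_lin
  log_log_lin)

/-- **From the base case to all families.** -/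
theorem thmBN {m : ℕ} {S : LSys m} {Y : Type} {f : Y → ℕ → ℝ} {Λ : ℝ} {K : ℕ} {κ : ℝ}
    {C B σm : ℝ} (hC : 0 ≤ C) (hB : 0 ≤ B) {g : ℕ} (hL : LOCZ S κ C B σm g)
    (hΛ : 0 < Λ) (hK : 1 + Λ ≤ K) (hf : Nng f Λ K) {δ : ℝ} (hδ : 0 ≤ δ)
    (hκ : σm + 5 * (C * (1 + Λ)) / K ≤ κ)
    (hP : STP S f Λ K κ 1 g δ (C * (1 + Λ)) σm) {N J : ℕ}
    (hJ : J = K * N) (F : Fam m J) (y : ℕ → F.Ω → Y) (hA : Adm K N F y) (c : F.ζ → S.Cx)
    (k a : ℕ) (x : ℝ) (hx : S.Get F J c k a (fun g => κ * (g : ℝ)) x) :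
    S.Get F 0 c k (a + 2 * g * N) (fun g => κ * (g : ℝ)) (x - co f Λ K N 0 F y -
      (δ + (C * (1 + Λ) * (2 * Real.log 2 + Real.log (1 + g)) + B * (1 + Λ)) / K) * J -
      4 * C * (1 + Λ) * (1 + Real.log (1 + 2 * g) / Real.log 2) *
        Real.log (N + 2) * Real.log (k + a + J + 2)) := by
  have hl2 : 0 < Real.log 2 := Real.log_pos (by norm_num)
  have hK0 : (0 : ℝ) < K := by linarith
  have hP1 : 0 ≤ C * (1 + Λ) := by positivity
  have hPK : 0 ≤ C * (1 + Λ) / K := by positivity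
  have e3 : 3 * (C * (1 + Λ)) / K = 3 * (C * (1 + Λ) / K) := by ring
  have e5 : 5 * (C * (1 + Λ)) / K = 5 * (C * (1 + Λ) / K) := by ring
  have hNb : N < 2 ^ (Nat.log 2 N + 1) := Nat.lt_pow_succ_log_self (by norm_num) N
  have hsl : Slp (σm + 3 * (C * (1 + Λ)) / K + 2 * (C * (1 + Λ)) / K *
      (1 - 1 / 2 ^ (Nat.log 2 N + 1))) κ (fun g => κ * (g : ℝ)) := by
    refine Slp.lin ?_ le_rfl
    have h1 : (0 : ℝ) ≤ 1 / 2 ^ (Nat.log 2 N + 1) := by positivity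
    have h2 : 2 * (C * (1 + Λ)) / K * (1 - 1 / 2 ^ (Nat.log 2 N + 1)) ≤
        2 * (C * (1 + Λ)) / K * 1 :=
      mul_le_mul_of_nonneg_left (by linarith) (by positivity)
    have e2 : 2 * (C * (1 + Λ)) / K * 1 = 2 * (C * (1 + Λ) / K) := by ring
    rw [e2] at h2
    rw [e3]
    rw [e5] at hκ
    linarith
  have h1 := stp_walk hC hB hL hΛ hK hf hδ (by rw [e3]; rw [e5] at hκ; linarith) hP
    (Nat.log 2 N + 1) N hNb J 0 0 (by omega) F c k a y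
    (by rw [zero_add]; exact hA) _ hsl x (get_eq (by omega) hx)
  refine S.mono 0 le_rfl (fun g => (add_zero _).ge) ?_ h1
  have e1 : (((K * N : ℕ)) : ℝ) = J := by rw [hJ]
  rw [e1]
  have hlk : 0 ≤ Real.log ((k : ℝ) + a + J + 2) := Real.log_nonneg (by
    have : (0 : ℝ) ≤ (k : ℝ) + a + J := by positivity
    linarith)
  have hlg : 0 ≤ Real.log (1 + 2 * (g : ℝ)) := Real.log_nonneg (by
    have : (0 : ℝ) ≤ g := Nat.cast_nonneg g
    linarith)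
  have h2 : (((Nat.log 2 N + 1 : ℕ)) : ℝ) ≤ 4 * Real.log ((N : ℝ) + 2) := by
    have h3 : ((Nat.log 2 N : ℕ) : ℝ) * Real.log 2 ≤ Real.log ((N : ℝ) + 2) := by
      rw [← Real.log_pow]
      refine Real.log_le_log (by positivity) ?_
      rcases Nat.eq_zero_or_pos N with h0 | h0
      · subst h0
        norm_num
      · have h4 : 2 ^ Nat.log 2 N ≤ N := Nat.pow_log_le_self 2 (by omega)
        have h5 : (2 : ℝ) ^ Nat.log 2 N ≤ N := by exact_mod_cast h4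
        linarith
    have h4 : Real.log 2 ≤ Real.log ((N : ℝ) + 2) :=
      Real.log_le_log (by norm_num) (by
        have : (0 : ℝ) ≤ N := Nat.cast_nonneg N
        linarith)
    have h5 : (0.69 : ℝ) < Real.log 2 := by
      have := Real.log_two_gt_d9
      linarith
    push_cast
    nlinarith
  have h3 : 0 ≤ C * (1 + Λ) * (1 + Real.log (1 + 2 * g) / Real.log 2) := by positivity
  have h4 := mul_le_mul_of_nonneg_right (mul_le_mul_of_nonneg_right h2 h3) hlk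
  linarith

/-- The two ends of the walk: the label of the points, and the directions. -/
def EndsN (m : ℕ) (ε : ℝ) (S : LSys m) : Prop :=
  ∃ C : ℝ, 0 ≤ C ∧ ∀ (J : ℕ) (F : Fam m J), Bd F → ∃ (c : F.ζ → S.Cx) (k a : ℕ),
    (k : ℝ) + a ≤ C * (J + 1) ∧
    (∀ θ : ℕ → ℝ, θ 0 = 0 → S.Get F J c k a θ
      ((m + 1) * (J * Real.log 2) - CH F.p (fun ω => (F.X J ω, F.T ω)) F.Z - ε * J - C)) ∧
    ∀ (a' : ℕ) (θ : ℕ → ℝ) (x : ℝ), (∀ g, 0 ≤ θ g) → S.Get F 0 c k (a + a') θ x →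
      x ≤ m * (J * Real.log 2) - CH F.p (F.D J) F.Z + ε * (J + a') + C

/-- One block. -/
def BaseN (m : ℕ) (δ κ C σm : ℝ) (g : ℕ) (S : LSys m) : Prop :=
  ∃ η : ℝ, 0 < η ∧ ∀ K : ℕ, 3 / 2 ^ K ≤ η → ∃ Λ : ℝ, 1 ≤ Λ ∧ ∃ L₀ : ℕ, ∀ L ≥ L₀,
    STP S (fN (m + 1) L K η Λ) Λ L κ 1 g δ (C * (1 + Λ)) σm

/-- **What has to be proved for the class of labels.** -/
def PotTStmt (m : ℕ) : Prop :=
  ∀ δ : ℝ, 0 < δ → ∃ (S : LSys m) (κ C B σm : ℝ) (g : ℕ), 0 ≤ C ∧ 0 ≤ B ∧ 0 ≤ σm ∧ σm < κ ∧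
    LOCZ S κ C B σm g ∧ EndsN m δ S ∧ BaseN m δ κ C σm g S

/-- **From the class of labels to the bound by the cost of the times.** -/
theorem bn_of_potT {m : ℕ} (h : PotTStmt m) : BNStmt m := by
  intro δ hδ
  obtain ⟨S, κ, C, B, σm, g, hC, hB, hσ0, hσκ, hL, ⟨C₁, hC₁, hE⟩, η, hη, hBs⟩ :=
    h (δ / 8) (by positivity)
  refine ⟨η, hη, fun K hK => ?_⟩
  obtain ⟨Λ, hΛ, L₀, hST⟩ := hBs K hK
  have hΛ0 : 0 < Λ := by linarith
  have hl2 : 0 < Real.log 2 := Real.log_pos (by norm_num)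
  have hg0 : (0 : ℝ) ≤ g := Nat.cast_nonneg g
  have hlg1 : 0 ≤ Real.log (1 + (g : ℝ)) := Real.log_nonneg (by linarith)
  obtain ⟨Q, hQ⟩ : ∃ Q, Q = C * (1 + Λ) * (2 * Real.log 2 + Real.log (1 + g)) + B * (1 + Λ) :=
    ⟨_, rfl⟩
  have hQ0 : 0 ≤ Q := by
    rw [hQ]
    positivity
  obtain ⟨L₁, hL₁⟩ := exists_nat_ge (Q / (δ / 8))
  obtain ⟨L₂, hL₂⟩ := exists_nat_ge (5 * (C * (1 + Λ)) / (κ - σm))
  obtain ⟨L₃, hL₃⟩ := exists_nat_ge (1 + Λ)
  refine ⟨Λ, hΛ, max (max (max L₀ L₁) (max L₂ L₃)) (max (2 * g) 1), fun L hLL => ?_⟩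
  have l0 : L₀ ≤ L := (((le_max_left _ _).trans (le_max_left _ _)).trans
    (le_max_left _ _)).trans hLL
  have l1 : L₁ ≤ L := (((le_max_right _ _).trans (le_max_left _ _)).trans
    (le_max_left _ _)).trans hLL
  have l2 : L₂ ≤ L := (((le_max_left _ _).trans (le_max_right _ _)).trans
    (le_max_left _ _)).trans hLL
  have l3 : L₃ ≤ L := (((le_max_right _ _).trans (le_max_right _ _)).trans
    (le_max_left _ _)).trans hLL
  have l4 : 2 * g ≤ L := ((le_max_left _ _).trans (le_max_right _ _)).trans hLL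
  have l5 : 1 ≤ L := ((le_max_right _ _).trans (le_max_right _ _)).trans hLL
  have hL0 : (1 : ℝ) ≤ L := by exact_mod_cast l5
  have hQL : Q / L ≤ δ / 8 := by
    have h1 : Q / (δ / 8) ≤ L := hL₁.trans (by exact_mod_cast l1)
    rw [div_le_iff₀ (by positivity)] at h1
    rw [div_le_iff₀ (by linarith)]
    linarith
  have hκL : σm + 5 * (C * (1 + Λ)) / L ≤ κ := by
    have h1 : 5 * (C * (1 + Λ)) / (κ - σm) ≤ L := hL₂.trans (by exact_mod_cast l2)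
    rw [div_le_iff₀ (by linarith)] at h1
    have h2 : 5 * (C * (1 + Λ)) / L ≤ κ - σm := by
      rw [div_le_iff₀ (by linarith)]
      linarith
    linarith
  have hKL : 1 + Λ ≤ (L : ℝ) := hL₃.trans (by exact_mod_cast l3)
  obtain ⟨q, hq⟩ : ∃ q, q = 4 * C * (1 + Λ) * (1 + Real.log (1 + 2 * g) / Real.log 2) :=
    ⟨_, rfl⟩
  have hq0 : 0 ≤ q := by
    rw [hq]
    have hlg : 0 ≤ Real.log (1 + 2 * (g : ℝ)) := Real.log_nonneg (by linarith)
    positivity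
  refine ⟨2 * C₁ + (2 * (δ / 8) + 64 * q ^ 2 / (δ / 8 / (C₁ + 1))), ?_⟩
  intro N F y hBd hAdm
  obtain ⟨c, k, a, hka, hG, hF⟩ := hE (L * N) F hBd
  have hκ0 : 0 ≤ κ := by linarith
  have h1 := thmBN hC hB hL hΛ0 hKL (nng_fN (by omega) K η hΛ) (by positivity) hκL (hST L l0)
    rfl F y hAdm c k a _ (hG (fun g => κ * (g : ℝ)) (by simp))
  have h2 := hF _ _ _ (fun g => by positivity) h1
  rw [co_cst, ← hq, ← hQ] at h2
  obtain ⟨J, hJ⟩ : ∃ J : ℝ, J = ((L * N : ℕ) : ℝ) := ⟨_, rfl⟩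
  rw [← hJ] at h2 hka
  have hgN : ((2 * g * N : ℕ) : ℝ) ≤ J := by
    have h3 : 2 * g * N ≤ L * N := Nat.mul_le_mul_right _ l4
    rw [hJ]
    exact_mod_cast h3
  have hJ0 : (0 : ℝ) ≤ J := by
    rw [hJ]
    exact Nat.cast_nonneg _
  have hNJ : (N : ℝ) ≤ J := by
    have h3 : N ≤ L * N := Nat.le_mul_of_pos_left _ l5
    rw [hJ]
    exact_mod_cast h3
  have h3 := log_log_lin (ε := δ / 8) (C₁ := C₁) (q := q) (N := (N : ℝ))
    (x := (k : ℝ) + a) (J := J) (by positivity) hC₁ hq0 (Nat.cast_nonneg N) (by positivity)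
    hNJ hka
  have h4 : δ / 8 * ((J : ℝ) + (2 * g * N : ℕ)) ≤ δ / 4 * J := by
    have h40 := mul_le_mul_of_nonneg_left hgN (show 0 ≤ δ / 8 by positivity)
    linarith only [h40]
  have h5 : (δ / 8 + Q / L) * (J : ℝ) ≤ δ / 4 * J :=
    mul_le_mul_of_nonneg_right (by linarith) hJ0
  rw [← hJ]
  have e1 : ((m : ℝ) + 1) * (J * Real.log 2) = m * (J * Real.log 2) + J * Real.log 2 := by ring
  rw [e1] at h2
  have h6 : 0 ≤ δ * J := by positivity
  linarith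

end Pool.KN2
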